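import Pool.Agent.SYS.CO.RkE
import Pool.Agent.SYS.UP.RchC

/-!
# SYSS-COH-Pla: a planar step does not change the classes of the region

PLAN.
* `tl_nx`: `X.nx d = ret X.s X.B d` (`ret_spec`): `X.s d = X.f (X.a d) = X.f d = T.f d`, whose tail is the head of `d`
  (`T.f d = T.s (T.a d)`); on `X.R \ X.B` one has `X.s = T.s` (`le_s`), which keeps the tail.  (Also in `LR/Cpl.lean`: copy it.)
* `hc_of_sub`: `S'.X` is contained in `S.X` (`Sub`, `mem_X_iff`).  `hc_ind` for `S'` with
  `P d e = (d in S'.X <-> e in S'.X) and (d in S'.X -> S.Hc T d e)`: `T.a`: `hc_a`; `T.f` off `S'.R`: `hc_f` (off `S.R`);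
  `S'.nx d`, `d` in `S'.B`: `S.Hc d (T.a d)` and `T.a d`, `S'.nx d` are in `S.X` and have the same tail: `ret_hc`.
* `hcomp_sub`: the map `Quotient (hset S' T) -> Quotient (hset S T)` is well defined by `hc_of_sub` and onto by `hx`.
* `st_num`: `T`: `inn_face, face_B, face_R` (`|B'| = |B| + 1`, `|R'| = |R| + 3`).  `L, R`: `inn_glue_split, glue_B, glue_R`, then
  the fields `B, R, inn` of `FillBy` and `2 V = 2 + a + |u|` (the darts of `u` are distinct and in the boundary of the glued region,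
  `hw_nodup`).
* `st_cls`: every dart of `S.X` is `S.Hc`-related to a dart of `S'.X`: `z` is in `S'.B` and `S.Hc T x z`; a dart of `S.X` which is
  not in `S'.X` is `S.Hc`-related to `x`: `T`: it is `x` or `T.a x` (`t1 = T.f (T.a x)` is the dart `z`); `L, R`: it is `x`, `y = T.a x`,
  or in the filled component of a dart of the hole of `x` (`fil_X`, `fil_le_hc` for the glued region, then `hc_of_sub`), `hc_hole`.
* `vv_num`: `rk_reg` for both, `vv_eq_of_rk`.  `vv_st`: `vv_num` with `st_con`, `st_num`, `hcomp_sub`.  `vv_rch`: induction on the word.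
-/

namespace SYS.CO

open Classical SST GNH Part

variable {D : Type}

theorem tl_nx [Finite D] {T : Tri D} {X : Part D} (h : X.Le T) {d : D} (hd : d ∈ X.B) : T.tl (X.nx d) = T.hd d := by
  have h3 := Part.car_vt (Relation.EqvGen.refl d) (Part.car_single T (X.B_sub_R hd)) (Part.vt_nx hd)
  have h4 := Part.car_walk h (X.B_sub_R hd) h3
  exact h4.2.symm

theorem X_sub [Finite D] {S S' : Part D} (h : S.Sub S') : S'.X ⊆ S.X := by
  intro d hd
  rw [mem_X_iff] at hd ⊢
  by_contra h1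
  have h2 := h.2 d h1
  rw [hd] at h2
  exact h1 h2.symm

private theorem nx_B [Finite D] {S : Part D} {d : D} (hd : d ∈ S.B) : S.nx d ∈ S.B :=
  (ret_spec S.s hd).choose_spec.2.1

private theorem face_f0 [Finite D] (S : Part D) {x t0 t1 t2 : D} (hx : x ∈ S.B) (h0 : t0 ∉ S.R) (h1 : t1 ∉ S.R) (h2 : t2 ∉ S.R)
    (h01 : t0 ≠ t1) (h12 : t1 ≠ t2) (h20 : t2 ≠ t0) :
    (S.face x t0 t1 t2 hx h0 h1 h2 h01 h12 h20).f t0 = t1 := by
  have hf : S.f t1 = t1 := not_not.1 h1
  show (S.f * cyc3 t0 t1 t2) t0 = t1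
  rw [Equiv.Perm.mul_apply, cyc3, Equiv.Perm.mul_apply, Equiv.swap_apply_of_ne_of_ne h01 h20.symm, Equiv.swap_apply_left, hf]

theorem hc_of_sub [Finite D] {T : Tri D} {S S' : Part D} (h : S.Sub S') (hT : S'.Le T) {d e : D} (hd : d ∈ S'.X)
    (h' : S'.Hc T d e) : S.Hc T d e := by
  have hS : S.Le T := sub_le h hT
  refine (hc_ind (S := S') (T := T) (fun d e => (d ∈ S'.X ↔ e ∈ S'.X) ∧ (d ∈ S'.X → S.Hc T d e))
    (fun d => ⟨Iff.rfl, fun _ => hc_refl S T d⟩)
    (fun d e hde => ⟨hde.1.symm, fun he => hc_symm (hde.2 (hde.1.2 he))⟩)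
    (fun d e k h1 h2 => ⟨h1.1.trans h2.1, fun hd => hc_trans (h1.2 hd) (h2.2 (h1.1.1 hd))⟩) ?_ ?_ ?_ h').2 hd
  · intro d hd
    exact ⟨(X_a hT d).symm, fun _ => hc_a (X_sub h hd)⟩
  · intro d hd
    have h1 : T.f d ∉ S'.R := fun h2 => hd ((le_f_mem hT d).1 h2)
    exact ⟨⟨fun _ => Or.inl h1, fun _ => Or.inl hd⟩, fun _ => hc_f fun h2 => hd (h.R_sub h2)⟩
  · intro d hd
    have h1 : S'.nx d ∈ S'.B := nx_B hd
    refine ⟨⟨fun _ => Or.inr h1, fun _ => Or.inr hd⟩, fun h2 => ?_⟩
    have h3 : T.a d ∈ S.X := (X_a hS d).2 (X_sub h h2)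
    refine hc_trans (hc_a (X_sub h h2)) (ret_hc hS h3 (X_sub h (Or.inr h1)) ?_)
    rw [tl_nx hT hd]
    rfl

theorem hcomp_sub [Finite D] {T : Tri D} {S S' : Part D} (h : S.Sub S') (hT : S'.Le T)
    (hx : ∀ d ∈ S.X, ∃ e ∈ S'.X, S.Hc T d e) : hcomp S T ≤ hcomp S' T := by
  unfold hcomp
  have hfin : Finite (Quotient (hset S' T)) := inferInstance
  refine Nat.card_le_card_of_surjective (Quotient.map' (s₁ := hset S' T) (s₂ := hset S T)
    (fun a : S'.X => (⟨a.1, X_sub h a.2⟩ : S.X)) (fun a b hab => hc_of_sub h hT a.2 hab)) ?_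
  intro q
  induction q using Quotient.inductionOn with
  | h d =>
    obtain ⟨e, he, hde⟩ := hx d.1 d.2
    exact ⟨Quotient.mk _ ⟨e, he⟩, Quotient.sound (hc_symm hde)⟩

private theorem pl_hB [Finite D] {S : Part D} {x y : D} {u v : List D} (hx : x ∈ S.B) (hw : S.hw x = x :: (u ++ y :: v))
    {d : D} (hd : d ∈ u ∨ d ∈ v) : d ∈ S.B ∧ S.s.SameCycle x d ∧ d ≠ x ∧ d ≠ y := by
  have h1 : d ∈ S.hw x := by
    rw [hw, List.mem_cons, List.mem_append, List.mem_cons]
    tauto
  have hn := S.hw_nodup hx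
  rw [hw, List.nodup_cons, List.nodup_append, List.nodup_cons] at hn
  obtain ⟨n1, n2, ⟨n3, n4⟩, n5⟩ := hn
  refine ⟨((mem_hw S hx).1 h1).1, ((mem_hw S hx).1 h1).2, ?_, ?_⟩
  · rintro rfl
    apply n1
    rw [List.mem_append, List.mem_cons]
    tauto
  · rintro rfl
    rcases hd with hd | hd
    · exact n5 d hd d List.mem_cons_self rfl
    · exact n3 hd

private theorem pl_y [Finite D] {S : Part D} {x y : D} {u v : List D} (hx : x ∈ S.B) (hw : S.hw x = x :: (u ++ y :: v)) :
    S.s.SameCycle x y ∧ x ≠ y := by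
  have h1 : y ∈ S.hw x := by
    rw [hw, List.mem_cons, List.mem_append, List.mem_cons]
    tauto
  have hn := S.hw_nodup hx
  rw [hw, List.nodup_cons] at hn
  refine ⟨((mem_hw S hx).1 h1).2, ?_⟩
  rintro rfl
  apply hn.1
  rw [List.mem_append, List.mem_cons]
  tauto

private theorem pl_mem [Finite D] {S : Part D} {x y : D} {u v : List D} (hx : x ∈ S.B) (hy : y ∈ S.B)
    (hw : S.hw x = x :: (u ++ y :: v)) {d : D} (hd : d ∈ u ∨ d ∈ v) : d ∈ (S.glue x y hx hy).B := by
  obtain ⟨h1, _, h2, h3⟩ := pl_hB hx hw hd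
  rw [glue_B _ _ _ (pl_y hx hw).2]
  refine ⟨h1, ?_⟩
  rw [Set.mem_insert_iff, Set.mem_singleton_iff]
  tauto

/-- the list `m` is a hole of `S` (or empty) -/
private def PlH [Finite D] (S : Part D) (m : List D) : Prop := m = [] ∨ ∃ z1 m', m = z1 :: m' ∧ z1 ∈ S.B ∧ S.hw z1 = m

private theorem plh_hun [Finite D] {S : Part D} {m : List D} (h : PlH S m) : S.HUn {d | d ∈ m} := by
  rcases h with rfl | ⟨z1, m', _, h2, h3⟩
  · refine ⟨fun d hd => ?_, fun d hd => ?_⟩ <;> exact absurd hd List.not_mem_nil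
  · refine ⟨fun d hd => ?_, fun d hd e he hde => ?_⟩
    · rw [Set.mem_ofPred_eq, ← h3] at hd
      exact ((mem_hw S h2).1 hd).1
    · rw [Set.mem_ofPred_eq, ← h3] at hd ⊢
      exact (mem_hw S h2).2 ⟨he, ((mem_hw S h2).1 hd).2.trans hde⟩

/-- the data of a step which splits the hole -/
private structure SpD [Finite D] (S S' : Part D) (x z y : D) (m : List D) (a : ℕ) (hx : x ∈ S.B) (hy : y ∈ S.B) : Prop where
  xy : x ≠ y
  yw : y ∈ S.hw x
  zw : z ∈ S.hw x
  mw : ∀ d ∈ m, d ∈ S.hw x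
  nd : m.Nodup
  mB : ∀ d ∈ m, d ∈ (S.glue x y hx hy).B
  inn : (S.glue x y hx hy).inn = S.inn + if m = [] then 1 else 0
  hol : PlH (S.glue x y hx hy) m
  fil : (S.glue x y hx hy).DiscFill S' m a

private theorem spd_R [Finite D] {S S' : Part D} {x z : D} {k a : ℕ} (h : S.St x (.R k a) S' z) :
    ∃ (y : D) (m : List D) (hx : x ∈ S.B) (hy : y ∈ S.B), SpD S S' x z y m a hx hy := by
  obtain ⟨y, u, v, w, hx, hy, hw, hk, hv, hf⟩ := h
  subst hv
  have hn := S.hw_nodup hx
  rw [hw, List.nodup_cons, List.nodup_append] at hn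
  refine ⟨y, u, hx, hy, (pl_y hx hw).2, ?_, ?_, ?_, hn.2.1, fun d hd => pl_mem hx hy hw (Or.inl hd), ?_, ?_, hf⟩
  · rw [hw]; simp
  · rw [hw]; simp
  · intro d hd
    rw [hw]
    simp [hd]
  · rw [inn_glue_split S hx hy hw, if_neg (List.cons_ne_nil z w), add_zero]
  · rcases u with _ | ⟨z1, u'⟩
    · exact Or.inl rfl
    · exact Or.inr ⟨z1, u', rfl, pl_mem hx hy hw (Or.inl List.mem_cons_self),
        hw_glue_split_left S hx hy hw rfl⟩

private theorem spd_L [Finite D] {S S' : Part D} {x z : D} {k a : ℕ} (h : S.St x (.L k a) S' z) :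
    ∃ (y : D) (m : List D) (hx : x ∈ S.B) (hy : y ∈ S.B), SpD S S' x z y m a hx hy := by
  obtain ⟨y, u, v, w, hx, hy, hw, hk, hu, hf⟩ := h
  subst hu
  have hn := S.hw_nodup hx
  rw [hw, List.nodup_cons, List.nodup_append] at hn
  refine ⟨y, v, hx, hy, (pl_y hx hw).2, ?_, ?_, ?_, (List.nodup_cons.1 hn.2.2.1).2, fun d hd => pl_mem hx hy hw (Or.inr hd), ?_, ?_, hf⟩
  · rw [hw]; simp
  · rw [hw]; simp
  · intro d hd
    rw [hw]
    simp [hd]
  · rw [inn_glue_split S hx hy hw, if_neg (List.cons_ne_nil z w), add_zero]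
  · rcases v with _ | ⟨z1, v'⟩
    · exact Or.inl rfl
    · exact Or.inr ⟨z1, v', rfl, pl_mem hx hy hw (Or.inr List.mem_cons_self),
        hw_glue_split_right S hx hy hw rfl⟩

private theorem spd_num [Finite D] {S S' : Part D} {x z y : D} {m : List D} {a : ℕ} {hx : x ∈ S.B} {hy : y ∈ S.B}
    (h : SpD S S' x z y m a hx hy) :
    6 * S'.inn + 3 * S'.B.ncard + S.R.ncard = 6 * S.inn + 3 * S.B.ncard + S'.R.ncard := by
  have hB : (S.glue x y hx hy).B.ncard + 2 = S.B.ncard := by
    rw [glue_B _ _ _ h.xy]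
    have h1 : ({x, y} : Set D) ⊆ S.B := by
      intro d hd
      rcases hd with rfl | hd
      · exact hx
      · rw [Set.mem_singleton_iff.1 hd]
        exact hy
    have h2 := Set.ncard_sdiff_add_ncard_of_subset h1 (Set.toFinite _)
    rw [Set.ncard_pair h.xy] at h2
    exact h2
  have hi := h.inn
  rcases h.fil with ⟨rfl, _, rfl⟩ | ⟨hm, V, hV, hf⟩
  · rw [if_pos rfl] at hi
    rw [glue_R]
    omega
  · rw [if_neg hm, add_zero] at hi
    have h1 := hf.inn
    have h2 := hf.R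
    rw [glue_R] at h2
    have h3 : S'.B.ncard + m.length = (S.glue x y hx hy).B.ncard := by
      rw [hf.B]
      have h4 : ({d | d ∈ m} : Set D) ⊆ (S.glue x y hx hy).B := fun d hd => h.mB d hd
      have h5 := Set.ncard_sdiff_add_ncard_of_subset h4 (Set.toFinite _)
      have h6 : ({d | d ∈ m} : Set D).ncard = m.length := by
        have h7 : ({d | d ∈ m} : Set D) = (m.toFinset : Set D) := by
          ext d
          simp
        rw [h7, Set.ncard_coe_finset, List.toFinset_card_of_nodup h.nd]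
      rw [h6] at h5
      exact h5
    omega

private theorem spd_cls [Finite D] {T : Tri D} {S S' : Part D} {x z y : D} {m : List D} {a : ℕ} {hx : x ∈ S.B} {hy : y ∈ S.B}
    (h : SpD S S' x z y m a hx hy) (hT : S'.Le T) {d : D} (hd : d ∈ S.X) : d ∈ S'.X ∨ S.Hc T x d := by
  have hGX : d ∈ (S.glue x y hx hy).X ∨ S.Hc T x d := by
    by_cases h1 : d = x
    · right
      rw [h1]
      exact hc_refl S T x
    by_cases h2 : d = y
    · right
      rw [h2]
      exact hc_hole hx h.yw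
    left
    rcases hd with hd | hd
    · exact Or.inl hd
    · right
      rw [glue_B _ _ _ h.xy]
      refine ⟨hd, ?_⟩
      rw [Set.mem_insert_iff, Set.mem_singleton_iff]
      tauto
  rcases hGX with hG | hG
  swap
  · exact Or.inr hG
  rcases h.fil with ⟨rfl, _, rfl⟩ | ⟨hm, V, hV, hf⟩
  · exact Or.inl hG
  by_cases hdX : d ∈ S'.X
  · exact Or.inl hdX
  right
  have hGT : (S.glue x y hx hy).Le T := sub_le hf.sub hT
  rw [fil_X (plh_hun h.hol) hf] at hdX
  have h1 : d ∈ (S'.R \ (S.glue x y hx hy).R) ∪ {d | d ∈ m} := by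
    by_contra h2
    exact hdX ⟨hG, h2⟩
  obtain ⟨x0, hx0⟩ := List.exists_mem_of_ne_nil m hm
  have h2 := (fil_le_hc hGT (plh_hun h.hol) hf hT (x := x0) hx0).1
  rw [← h2] at h1
  have h3 : S.Hc T x0 d := hc_of_sub (glue_sub S hx hy) hGT (Or.inr (h.mB x0 hx0)) h1.2
  exact hc_trans (hc_hole hx (h.mw x0 hx0)) h3

theorem st_num [Finite D] {S S' : Part D} {x z : D} {s : Stp} (h : S.St x s S' z) :
    6 * S'.inn + 3 * S'.B.ncard + S.R.ncard = 6 * S.inn + 3 * S.B.ncard + S'.R.ncard := by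
  cases s with
  | T =>
    obtain ⟨t0, t1, t2, hx, h0, h1, h2, h01, h12, h20, rfl, rfl⟩ := h
    rw [inn_face, face_B, face_R]
    have e1 : (S.R ∪ {t0, z, t2}).ncard = S.R.ncard + 3 := by
      rw [Set.ncard_union_eq ?_ (Set.toFinite _) (Set.toFinite _)]
      · congr 1
        rw [Set.ncard_insert_of_notMem ?_ (Set.toFinite _), Set.ncard_pair h12]
        rw [Set.mem_insert_iff, Set.mem_singleton_iff]
        rintro (h | h)
        · exact h01 h
        · exact h20 h.symm
      · rw [Set.disjoint_left]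
        rintro d hd (rfl | rfl | hd')
        · exact h0 hd
        · exact h1 hd
        · rw [Set.mem_singleton_iff.1 hd'] at hd
          exact h2 hd
    have e2 : ((S.B \ {x}) ∪ {z, t2}).ncard = S.B.ncard + 1 := by
      rw [Set.ncard_union_eq ?_ (Set.toFinite _) (Set.toFinite _)]
      · rw [Set.ncard_pair h12]
        have h3 := Set.ncard_sdiff_singleton_add_one hx (Set.toFinite _)
        omega
      · rw [Set.disjoint_left]
        rintro d hd (rfl | hd')
        · exact h1 (S.B_sub_R hd.1)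
        · rw [Set.mem_singleton_iff.1 hd'] at hd
          exact h2 (S.B_sub_R hd.1)
    rw [e1, e2]
    omega
  | L k a =>
    obtain ⟨y, m, hx, hy, h1⟩ := spd_L h
    exact spd_num h1
  | R k a =>
    obtain ⟨y, m, hx, hy, h1⟩ := spd_R h
    exact spd_num h1

theorem st_cls [Finite D] {T : Tri D} {S S' : Part D} {x z : D} {s : Stp} (h : S.St x s S' z) (hT : S'.Le T) {d : D}
    (hd : d ∈ S.X) : ∃ e ∈ S'.X, S.Hc T d e := by
  obtain ⟨-, hxB, hzB⟩ := st_sub h
  by_cases hdX : d ∈ S'.X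
  · exact ⟨d, hdX, hc_refl S T d⟩
  refine ⟨z, Or.inr hzB, ?_⟩
  cases s with
  | T =>
    obtain ⟨t0, t1, t2, hx, h0, h1, h2, h01, h12, h20, rfl, rfl⟩ := h
    obtain ⟨S', hS'⟩ : ∃ S', S' = S.face x t0 z t2 hx h0 h1 h2 h01 h12 h20 := ⟨_, rfl⟩
    have hR := face_R S hx h0 h1 h2 h01 h12 h20
    have hB := face_B S hx h0 h1 h2 h01 h12 h20
    have hsx := face_s_x S hx h0 h1 h2 h01 h12 h20
    rw [← hS'] at hT hdX hR hB hsx
    -- the darts of the new triangle
    have hxR' : x ∈ S'.R := by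
      rw [hR]
      exact Or.inl (S.B_sub_R hx)
    have hxB' : x ∉ S'.B := by
      rw [hB]
      rintro (h3 | h3 | h3)
      · exact h3.2 rfl
      · exact h1 (by rw [← h3]; exact S.B_sub_R hx)
      · exact h2 (by rw [← Set.mem_singleton_iff.1 h3]; exact S.B_sub_R hx)
    have hTs : T.s x = z := by rw [le_s hT hxR' hxB', hsx]
    have hTf : T.f (T.a x) = z := hTs
    have hTaR : T.a x ∉ S.R := fun h3 => h1 (by rw [← hTf]; exact (le_f_mem (sub_le (face_sub S hx h0 h1 h2 h01 h12 h20) (hS' ▸ hT)) _).2 h3)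
    have hxz : S.Hc T x z := by
      refine hc_trans (hc_a (Or.inr hx)) ?_
      have h3 := hc_f (S := S) (T := T) hTaR
      rwa [hTf] at h3
    have hdx : d = x ∨ d = T.a x := by
      by_contra hcon
      push Not at hcon
      apply hdX
      rcases hd with hd | hd
      · by_cases h3 : d ∈ S'.R
        · right
          rw [hR] at h3
          rw [hB]
          rcases h3 with h3 | h3 | h3 | h3
          · exact absurd h3 hd
          · exfalso
            apply hcon.2
            have h4 : T.f t0 = T.f (T.a x) := by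
              rw [hTf]
              have h5 : S'.f t0 = z := by
                rw [hS']
                exact face_f0 S hx h0 h1 h2 h01 h12 h20
              rw [hT.1 t0 (by rw [h5]; exact h01.symm), h5]
            rw [h3]
            exact T.f.injective h4
          · exact Or.inr (Or.inl h3)
          · exact Or.inr (Or.inr h3)
        · exact Or.inl h3
      · right
        rw [hB]
        exact Or.inl ⟨hd, hcon.1⟩
    rcases hdx with rfl | rfl
    · exact hxz
    · exact hc_trans (hc_symm (hc_a (Or.inr hx))) hxz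
  | L k a =>
    obtain ⟨y, m, hx, hy, h1⟩ := spd_L h
    exact hc_trans (hc_symm ((spd_cls h1 hT hd).resolve_left hdX)) (hc_hole hx h1.zw)
  | R k a =>
    obtain ⟨y, m, hx, hy, h1⟩ := spd_R h
    exact hc_trans (hc_symm ((spd_cls h1 hT hd).resolve_left hdX)) (hc_hole hx h1.zw)

/-- A region with the same Euler characteristic and at least as many hidden components has the same classes. -/
theorem vv_num [Finite D] {T : Tri D} (hT : T.Conn) {S S' : Part D} (h : S.Sub S') (h' : S'.Le T) (hc : S.Con)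
    (hc' : S'.Con) (hne : S.R.Nonempty)
    (he : 6 * S'.inn + 3 * S'.B.ncard + S.R.ncard = 6 * S.inn + 3 * S.B.ncard + S'.R.ncard)
    (hh : hcomp S T ≤ hcomp S' T) : VV T (rev S') = VV T (rev S) := by
  have h1 := rk_reg hT (sub_le h h') hc hne
  have h2 := rk_reg hT h' hc' (hne.mono h.R_sub)
  refine (vv_eq_of_rk (fun d hd => ?_) (by omega)).symm
  show S'.a d ≠ d
  rw [h.2 d hd]
  exact hd

theorem vv_st [Finite D] {T : Tri D} (hT : T.Conn) {S S' : Part D} {x z : D} {s : Stp} (h : S.St x s S' z)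
    (hS : S.Con) (hT' : S'.Le T) : VV T (rev S') = VV T (rev S) := by
  obtain ⟨h1, hx, -⟩ := st_sub h
  exact vv_num hT h1 hT' hS (UP.st_con h hS) ⟨x, S.B_sub_R hx⟩ (st_num h)
    (hcomp_sub h1 hT' fun d hd => st_cls h hT' hd)

theorem vv_rch [Finite D] {T : Tri D} (hT : T.Conn) {ρ : List Stp → ℕ} {h : List Stp} {S S' : Part D} {x x' : D}
    {w : List Stp} (hr : Rch ρ h S x w S' x') (hS : S.Con) (hT' : S'.Le T) : VV T (rev S') = VV T (rev S) := by
  induction w generalizing h S x with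
  | nil =>
    obtain ⟨rfl, rfl⟩ := hr
    rfl
  | cons s w ih =>
    obtain ⟨S₁, z, hst, hr⟩ := hr
    rw [ih hr (UP.st_con hst hS), vv_st hT hst hS (sub_le (rch_sub hr) hT')]

end SYS.CO
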