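import Pool.Agent.SYS.CO.Flw

/-!
# SYSS-COH-Un: cocycles on a union (Mayer-Vietoris)

`E1`, `E2` sets of edges inside the sets of faces `Y1`, `Y2`; the common faces are linked through common edges.  Then every
cocycle on `E1 u E2` is a sum of a cocycle on `E1` and a cocycle on `E2`.
-/

namespace SYS.CO

open Classical SST GNH Part

variable {D : Type}

private theorem un_le [Finite D] {T : Tri D} {E1 E2 Y1 Y2 : Set D} (h1 : ∀ d, T.a d ∈ E1 ↔ d ∈ E1)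
    (h2 : ∀ d, T.a d ∈ E2 ↔ d ∈ E2) (hf1 : ∀ d, T.f d ∈ Y1 ↔ d ∈ Y1) (hf2 : ∀ d, T.f d ∈ Y2 ↔ d ∈ Y2)
    (hs1 : E1 ⊆ Y1) (hs2 : E2 ⊆ Y2) (hc : ∀ d ∈ Y1 ∩ Y2, ∀ e ∈ Y1 ∩ Y2, Lk T (E1 ∩ E2) d e)
    {c : D → ℝ} (hcm : c ∈ Z T (E1 ∪ E2)) : c ∈ Z T E1 ⊔ Z T E2 := by
  have _ : Fintype D := Fintype.ofFinite D
  obtain ⟨⟨ca, cf⟩, c0⟩ := hcm
  obtain ⟨c1, hc1⟩ : ∃ c1 : D → ℝ, c1 = fun d => if d ∈ E1 then c d else 0 := ⟨_, rfl⟩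
  have c1p : ∀ d ∈ E1, c1 d = c d := by
    intro d hd
    rw [hc1]
    exact if_pos hd
  have c1n : ∀ d, d ∉ E1 → c1 d = 0 := by
    intro d hd
    rw [hc1]
    exact if_neg hd
  have c1e : ∀ d, d ∉ E2 → c1 d = c d := by
    intro d hd
    by_cases h : d ∈ E1
    · exact c1p d h
    · rw [c1n d h, c0 d (fun h' => h'.elim h hd)]
  have c1a : ASy T c1 := by
    intro d
    by_cases h : d ∈ E1
    · rw [c1p d h, c1p _ ((h1 d).2 h), ca]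
    · rw [c1n d h, c1n _ (fun h' => h ((h1 d).1 h')), neg_zero]
  have hm : ∀ d, d ∉ Y1 ∩ Y2 → dvg T c1 d = 0 := by
    intro d hd
    by_cases hy : d ∈ Y1
    · have hy2 : d ∉ Y2 := fun h => hd ⟨hy, h⟩
      have e1 := c1e d fun h => hy2 (hs2 h)
      have e2 := c1e (T.f d) fun h => hy2 ((hf2 d).1 (hs2 h))
      have e3 := c1e (T.f (T.f d)) fun h => hy2 ((hf2 d).1 ((hf2 _).1 (hs2 h)))
      unfold dvg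
      rw [e1, e2, e3]
      exact cf d
    · have e1 := c1n d fun h => hy (hs1 h)
      have e2 := c1n (T.f d) fun h => hy ((hf1 d).1 (hs1 h))
      have e3 := c1n (T.f (T.f d)) fun h => hy ((hf1 d).1 ((hf1 _).1 (hs1 h)))
      unfold dvg
      rw [e1, e2, e3, add_zero, add_zero]
  obtain ⟨w, wa, w0, wd⟩ := set_flow (T := T) (E := E1 ∩ E2) (Y := Y1 ∩ Y2)
    (fun d => and_congr (h1 d) (h2 d)) hc (m := fun d => dvg T c1 d) (fun d => dvg_f T c1 d) hm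
    (sum_dvg c1a)
  refine Submodule.mem_sup.2 ⟨fun d => c1 d - w d, ⟨⟨fun d => ?_, fun d => ?_⟩, fun d hd => ?_⟩,
    fun d => c d - c1 d + w d, ⟨⟨fun d => ?_, fun d => ?_⟩, fun d hd => ?_⟩, ?_⟩
  · show c1 (T.a d) - w (T.a d) = -(c1 d - w d)
    rw [c1a d, wa d]
    ring
  · have e := wd d
    unfold dvg at e
    show c1 d - w d + (c1 (T.f d) - w (T.f d)) + (c1 (T.f (T.f d)) - w (T.f (T.f d))) = 0
    linarith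
  · show c1 d - w d = 0
    rw [c1n d hd, w0 d (fun h => hd h.1), sub_zero]
  · show c (T.a d) - c1 (T.a d) + w (T.a d) = -(c d - c1 d + w d)
    rw [ca d, c1a d, wa d]
    ring
  · have e := wd d
    have e' := cf d
    unfold dvg at e
    show c d - c1 d + w d + (c (T.f d) - c1 (T.f d) + w (T.f d)) +
      (c (T.f (T.f d)) - c1 (T.f (T.f d)) + w (T.f (T.f d))) = 0
    linarith
  · show c d - c1 d + w d = 0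
    rw [c1e d hd, w0 d (fun h => hd h.2), sub_self, add_zero]
  · funext d
    show c1 d - w d + (c d - c1 d + w d) = c d
    ring

theorem Z_union [Finite D] {T : Tri D} {E1 E2 Y1 Y2 : Set D} (h1 : ∀ d, T.a d ∈ E1 ↔ d ∈ E1)
    (h2 : ∀ d, T.a d ∈ E2 ↔ d ∈ E2) (hf1 : ∀ d, T.f d ∈ Y1 ↔ d ∈ Y1) (hf2 : ∀ d, T.f d ∈ Y2 ↔ d ∈ Y2)
    (hs1 : E1 ⊆ Y1) (hs2 : E2 ⊆ Y2) (hc : ∀ d ∈ Y1 ∩ Y2, ∀ e ∈ Y1 ∩ Y2, Lk T (E1 ∩ E2) d e) :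
    Z T (E1 ∪ E2) = Z T E1 ⊔ Z T E2 := by
  apply le_antisymm
  · intro c hcm
    exact un_le h1 h2 hf1 hf2 hs1 hs2 hc hcm
  · exact sup_le (Z_mono Set.subset_union_left) (Z_mono Set.subset_union_right)

theorem VV_union [Finite D] {T : Tri D} {E1 E2 Y1 Y2 : Set D} (h1 : ∀ d, T.a d ∈ E1 ↔ d ∈ E1)
    (h2 : ∀ d, T.a d ∈ E2 ↔ d ∈ E2) (hf1 : ∀ d, T.f d ∈ Y1 ↔ d ∈ Y1) (hf2 : ∀ d, T.f d ∈ Y2 ↔ d ∈ Y2)
    (hs1 : E1 ⊆ Y1) (hs2 : E2 ⊆ Y2) (hc : ∀ d ∈ Y1 ∩ Y2, ∀ e ∈ Y1 ∩ Y2, Lk T (E1 ∩ E2) d e) :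
    VV T (E1 ∪ E2) = VV T E1 ⊔ VV T E2 := by
  unfold VV
  rw [Z_union h1 h2 hf1 hf2 hs1 hs2 hc, Submodule.map_sup]

theorem VV_add [Finite D] {T : Tri D} {E1 E2 Y1 Y2 : Set D} (h1 : ∀ d, T.a d ∈ E1 ↔ d ∈ E1)
    (h2 : ∀ d, T.a d ∈ E2 ↔ d ∈ E2) (hf1 : ∀ d, T.f d ∈ Y1 ↔ d ∈ Y1) (hf2 : ∀ d, T.f d ∈ Y2 ↔ d ∈ Y2)
    (hs1 : E1 ⊆ Y1) (hs2 : E2 ⊆ Y2) (hc : ∀ d ∈ Y1 ∩ Y2, ∀ e ∈ Y1 ∩ Y2, Lk T (E1 ∩ E2) d e)
    (hV : VV T E2 ≤ VV T E1) : VV T (E1 ∪ E2) = VV T E1 := by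
  rw [VV_union h1 h2 hf1 hf2 hs1 hs2 hc, sup_eq_left.2 hV]

end SYS.CO
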