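import Pool.Agent.SYS.CO.Sid

/-!
# SYSS-COH-Dvd: the genus is an integer; regions of rank 0, 1, 2

PLAN.  `gen12_add`: the proof of `gen12_mono` in `Lib/GenB.lean` with the predicate `exists k : N, S'.gen12 = S.gen12 + 12 * k`
instead of `<=` (copy it: the steps are `newTri`: `+ 0`, `glue`: `+ 0` or `+ 12`: `gen12_glue_merge, gen12_glue_handle,
gen12_glue_split`).  `gen12_dvd`: from `emp` (`gen12_emp`).  `euler`: `gen12_inn`, `gen12_dvd`, `rk_gen`.  `typ_exists`: `F`: the
number of darts off `X.R` is divisible by `3` (`XP.fs_three`), `kappa = g + l.length - 1`, `hl_card`; `tc`: `X.Con` and the head of `l`.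
`rk_zero, rk_one, rk_two`: `gen12_rk`, `gen12_dvd`, `hcomp_le`, `hcomp_oneH`, `hl_exists`: `6 (rk + r - b) = 12 k`, `r <= b`.
-/

namespace SYS.CO

open Classical SST GNH Part

variable {D : Type} [Fintype D]

section

variable {D : Type}

private theorem dv_cyc3_0 {t0 t1 t2 : D} (h01 : t0 ≠ t1) (h20 : t2 ≠ t0) :
    cyc3 t0 t1 t2 t0 = t1 := by
  unfold cyc3
  rw [Equiv.Perm.mul_apply, Equiv.swap_apply_of_ne_of_ne h01 h20.symm, Equiv.swap_apply_left]

private theorem dv_cyc3_1 {t0 t1 t2 : D} (h12 : t1 ≠ t2) (h20 : t2 ≠ t0) :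
    cyc3 t0 t1 t2 t1 = t2 := by
  unfold cyc3
  rw [Equiv.Perm.mul_apply, Equiv.swap_apply_left, Equiv.swap_apply_of_ne_of_ne h20 h12.symm]

private theorem dv_cyc3_2 {t0 t1 t2 : D} : cyc3 t0 t1 t2 t2 = t0 := by
  unfold cyc3
  rw [Equiv.Perm.mul_apply, Equiv.swap_apply_right, Equiv.swap_apply_right]

private theorem dv_cyc3_ne {t0 t1 t2 d : D} (h0 : d ≠ t0) (h1 : d ≠ t1) (h2 : d ≠ t2) :
    cyc3 t0 t1 t2 d = d := by
  unfold cyc3
  rw [Equiv.Perm.mul_apply, Equiv.swap_apply_of_ne_of_ne h1 h2, Equiv.swap_apply_of_ne_of_ne h0 h1]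

private theorem dv_f_fix (S : Part D) {t : D} (h : t ∉ S.R) : S.f t = t := by
  by_contra hne
  exact h hne

variable (S : Part D) {t0 t1 t2 : D} (h0 : t0 ∉ S.R) (h1 : t1 ∉ S.R) (h2 : t2 ∉ S.R) (h01 : t0 ≠ t1) (h12 : t1 ≠ t2)
  (h20 : t2 ≠ t0)

private theorem dv_newTri_f_ne {d : D} (hd0 : d ≠ t0) (hd1 : d ≠ t1) (hd2 : d ≠ t2) :
    (S.newTri t0 t1 t2 h0 h1 h2 h01 h12 h20).f d = S.f d := by
  show S.f (cyc3 t0 t1 t2 d) = S.f d
  rw [dv_cyc3_ne hd0 hd1 hd2]

private theorem dv_newTri_f0 : (S.newTri t0 t1 t2 h0 h1 h2 h01 h12 h20).f t0 = t1 := by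
  show S.f (cyc3 t0 t1 t2 t0) = t1
  rw [dv_cyc3_0 h01 h20, dv_f_fix S h1]

private theorem dv_newTri_f1 : (S.newTri t0 t1 t2 h0 h1 h2 h01 h12 h20).f t1 = t2 := by
  show S.f (cyc3 t0 t1 t2 t1) = t2
  rw [dv_cyc3_1 h12 h20, dv_f_fix S h2]

private theorem dv_newTri_f2 : (S.newTri t0 t1 t2 h0 h1 h2 h01 h12 h20).f t2 = t0 := by
  show S.f (cyc3 t0 t1 t2 t2) = t0
  rw [dv_cyc3_2, dv_f_fix S h0]

end

private theorem dv_trans {a b c : ℤ} (h : ∃ k : ℕ, b = a + 12 * k) (h' : ∃ k : ℕ, c = b + 12 * k) :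
    ∃ k : ℕ, c = a + 12 * k := by
  obtain ⟨k, hk⟩ := h
  obtain ⟨k', hk'⟩ := h'
  refine ⟨k + k', ?_⟩
  rw [hk', hk]
  push_cast
  ring

private theorem glue_dv (S : Part D) {x y : D} (hx : x ∈ S.B) (hy : y ∈ S.B)
    (hxy : x ≠ y) : ∃ k : ℕ, (S.glue x y hx hy).gen12 = S.gen12 + 12 * k := by
  by_cases h : S.Cn x y
  · by_cases h' : S.s.SameCycle x y
    · exact ⟨0, by rw [gen12_glue_split S hx hy hxy h']; simp⟩
    · exact ⟨1, by rw [gen12_glue_handle S hx hy h h']; simp⟩
  · exact ⟨0, by rw [gen12_glue_merge S hx hy h]; simp⟩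

theorem gen12_add {S S' : Part D} (h : S.Sub S') : ∃ k : ℕ, S'.gen12 = S.gen12 + 12 * k := by
  have key : ∀ (N : ℕ) (S : Part D), S.Sub S' →
      (S'.R \ S.R).ncard + {d | S'.a d ≠ d ∧ S.a d = d}.ncard ≤ N → ∃ k : ℕ, S'.gen12 = S.gen12 + 12 * k := by
    intro N
    induction N with
    | zero =>
      intro S hS hN
      have e1 : (S'.R \ S.R).ncard = 0 := by omega
      have e2 : {d | S'.a d ≠ d ∧ S.a d = d}.ncard = 0 := by omega
      rw [Set.ncard_eq_zero (Set.toFinite _)] at e1 e2
      have : S = S' := by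
        refine ext' ?_ ?_
        · ext d
          by_cases hd : S.a d = d
          · by_contra hne
            have : d ∈ {d | S'.a d ≠ d ∧ S.a d = d} := ⟨fun hh => hne (by rw [hd, hh]), hd⟩
            rw [e2] at this
            exact this
          · exact (hS.2 d hd).symm
        · ext d
          by_cases hd : S.f d = d
          · by_contra hne
            have : d ∈ S'.R \ S.R := ⟨fun hh => hne (by rw [hd, hh]), fun hh => hh hd⟩
            rw [e1] at this
            exact this
          · exact (hS.1 d hd).symm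
      rw [this]
      exact ⟨0, by simp⟩
    | succ N ih =>
      intro S hS hN
      by_cases hA : ∃ t0, t0 ∈ S'.R ∧ t0 ∉ S.R
      · obtain ⟨t0, ht0, hn0⟩ := hA
        have inj := S'.f.injective
        have g0 : S'.f t0 ≠ t0 := ht0
        have g3 : S'.f (S'.f (S'.f t0)) = t0 := S'.fff t0
        have h01 : t0 ≠ S'.f t0 := g0.symm
        have h12 : S'.f t0 ≠ S'.f (S'.f t0) := fun hh => h01 (inj hh)
        have h20 : S'.f (S'.f t0) ≠ t0 := by
          intro hh
          have := congrArg S'.f hh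
          rw [g3] at this
          exact h01 this
        have hn2 : S'.f (S'.f t0) ∉ S.R := by
          intro hh
          have e1 : S'.f (S'.f (S'.f t0)) = S.f (S'.f (S'.f t0)) := hS.1 _ hh
          rw [g3] at e1
          exact hn0 (by rw [e1]; exact (mem_R_f S _).2 hh)
        have hn1 : S'.f t0 ∉ S.R := by
          intro hh
          have e1 : S'.f (S'.f t0) = S.f (S'.f t0) := hS.1 _ hh
          exact hn2 (by rw [e1]; exact (mem_R_f S _).2 hh)
        rw [← Part.gen12_newTri S hn0 hn1 hn2 h01 h12 h20]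
        refine ih _ ⟨?_, ?_⟩ ?_
        · intro d hd
          by_cases d0 : d = t0
          · rw [d0, dv_newTri_f0 S hn0 hn1 hn2 h01 h12 h20]
          · by_cases d1 : d = S'.f t0
            · rw [d1, dv_newTri_f1 S hn0 hn1 hn2 h01 h12 h20]
            · by_cases d2 : d = S'.f (S'.f t0)
              · rw [d2, dv_newTri_f2 S hn0 hn1 hn2 h01 h12 h20, g3]
              · rw [dv_newTri_f_ne S hn0 hn1 hn2 h01 h12 h20 d0 d1 d2] at hd ⊢
                exact hS.1 d hd
        · intro d hd
          exact hS.2 d hd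
        · rw [newTri_R]
          have hlt : (S'.R \ (S.R ∪ {t0, S'.f t0, S'.f (S'.f t0)})).ncard < (S'.R \ S.R).ncard := by
            refine Set.ncard_lt_ncard ?_ (Set.toFinite _)
            refine ⟨?_, ?_⟩
            · rintro d ⟨hd1, hd2⟩
              exact ⟨hd1, fun hd3 => hd2 (Or.inl hd3)⟩
            · intro hsub
              exact (hsub ⟨ht0, hn0⟩).2 (Or.inr (Or.inl rfl))
          have heq : {d | S'.a d ≠ d ∧ (S.newTri t0 (S'.f t0) (S'.f (S'.f t0)) hn0 hn1 hn2 h01
              h12 h20).a d = d} = {d | S'.a d ≠ d ∧ S.a d = d} := rfl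
          rw [heq]
          omega
      · push Not at hA
        by_cases hB : ∃ x, S'.a x ≠ x ∧ S.a x = x
        · obtain ⟨x, hx1, hx2⟩ := hB
          have hyx : S'.a (S'.a x) = x := S'.aa x
          have hxR : x ∈ S.R := by
            refine hA x ?_
            intro hh
            exact hx1 (S'.af x hh)
          have hy1 : S'.a (S'.a x) ≠ S'.a x := by
            rw [hyx]; exact hx1.symm
          have hy2 : S.a (S'.a x) = S'.a x := by
            by_contra hne
            have e1 := hS.2 _ hne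
            rw [hyx] at e1
            have e2 : S.a x = S'.a x := by
              rw [e1, S.aa]
              rw [← e1]
            exact hx1 (by rw [← e2, hx2])
          have hyR : S'.a x ∈ S.R := by
            refine hA _ ?_
            intro hh
            exact hy1 (S'.af _ hh)
          have hxB : x ∈ S.B := ⟨hxR, hx2⟩
          have hyB : S'.a x ∈ S.B := ⟨hyR, hy2⟩
          refine dv_trans (glue_dv S hxB hyB hx1.symm) ?_
          have ga : ∀ d, (S.glue x (S'.a x) hxB hyB).a d = S.a (Equiv.swap x (S'.a x) d) :=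
            fun d => rfl
          refine ih _ ⟨?_, ?_⟩ ?_
          · intro d hd
            exact hS.1 d hd
          · intro d hd
            by_cases d0 : d = x
            · rw [d0, ga, Equiv.swap_apply_left, hy2]
            · by_cases d1 : d = S'.a x
              · rw [d1, ga, Equiv.swap_apply_right, hx2, hyx]
              · rw [ga, Equiv.swap_apply_of_ne_of_ne d0 d1] at hd ⊢
                exact hS.2 d hd
          · rw [glue_R]
            have hlt : {d | S'.a d ≠ d ∧ (S.glue x (S'.a x) hxB hyB).a d = d}.ncard <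
                {d | S'.a d ≠ d ∧ S.a d = d}.ncard := by
              refine Set.ncard_lt_ncard ?_ (Set.toFinite _)
              refine ⟨?_, ?_⟩
              · rintro d ⟨hd1, hd2⟩
                refine ⟨hd1, ?_⟩
                by_cases d0 : d = x
                · rw [d0, hx2]
                · by_cases d1 : d = S'.a x
                  · rw [d1, hy2]
                  · rw [ga, Equiv.swap_apply_of_ne_of_ne d0 d1] at hd2
                    exact hd2
              · intro hsub
                have := (hsub (show x ∈ {d | S'.a d ≠ d ∧ S.a d = d} from ⟨hx1, hx2⟩)).2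
                rw [ga, Equiv.swap_apply_left, hy2] at this
                exact hx1 this
            omega
        · push Not at hB
          refine ih S hS ?_
          have e1 : S'.R \ S.R = ∅ := by
            ext d
            constructor
            · rintro ⟨hd1, hd2⟩
              exact absurd (hA d hd1) hd2
            · intro hd; exact absurd hd (Set.notMem_empty d)
          have e2 : {d | S'.a d ≠ d ∧ S.a d = d} = ∅ := by
            ext d
            constructor
            · rintro ⟨hd1, hd2⟩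
              exact absurd hd2 (hB d hd1)
            · intro hd; exact absurd hd (Set.notMem_empty d)
          rw [e1, e2, Set.ncard_empty]
          omega
  exact key _ S h le_rfl
theorem gen12_dvd (S : Part D) : ∃ k : ℕ, S.gen12 = 12 * k := by
  have h : (emp : Part D).Sub S := ⟨fun d hd => absurd rfl hd, fun d hd => absurd rfl hd⟩
  obtain ⟨k, hk⟩ := gen12_add h
  rw [gen12_emp, zero_add] at hk
  exact ⟨k, hk⟩

/-- Every connected region has a genus. -/
theorem euler {T : Tri D} (hT : T.Conn) {X : Part D} (h : X.Le T) (hc : X.Con) (hne : X.R.Nonempty) {l : List D}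
    (hl : X.HL l) : ∃ g : ℕ, X.gen12 = 12 * g ∧ 6 * X.inn + 3 * X.B.ncard + 12 * g + 6 * l.length = X.R.ncard + 12 ∧
      rk T (rev X) + hcomp X T = 2 * g + l.length := by
  obtain ⟨g, hg⟩ := gen12_dvd X
  have h1 := gen12_inn hc hne hl
  have h2 : 6 * X.inn + 3 * X.B.ncard + 12 * g + 6 * l.length = X.R.ncard + 12 := by omega
  exact ⟨g, hg, h2, rk_gen hT h hc hne h2⟩

theorem typ_exists {T : Tri D} {X : Part D} (h : X.Le T) (hc : X.Con) (hne : X.R.Nonempty) {l : List D}
    (hl : X.HL l) (hl0 : l ≠ []) : ∃ F κ : ℕ, X.Typ l (l.map X.per) F κ ∧ X.gen12 + 12 * l.length = 12 * (κ + 1) := by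
  obtain ⟨g, hg⟩ := gen12_dvd X
  have h1 := gen12_inn hc hne hl
  have hlen : 0 < l.length := List.length_pos_iff.2 hl0
  have hfs : XP.Fs T X.Rᶜ := by
    intro d
    show T.f d ∉ X.R ↔ d ∉ X.R
    rw [le_f_mem h d]
  obtain ⟨F, hF⟩ := XP.fs_three hfs
  have h2 : X.R.ncard + X.Rᶜ.ncard = Nat.card D := Set.ncard_add_ncard_compl _
  have h3 := hl_card hl
  refine ⟨F, g + l.length - 1, ⟨hl, rfl, by omega, fun d hd => ?_, ?_, Or.inl hl0⟩, ?_⟩
  · obtain ⟨x, l', rfl⟩ := List.exists_cons_of_ne_nil hl0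
    have hx : x ∈ X.B := hl.1 x List.mem_cons_self
    exact ⟨x, hx, hc d hd x hx.1⟩
  · rw [← h3]
    omega
  · rw [hg]
    have : ((g + l.length - 1 : ℕ) : ℤ) = g + l.length - 1 := by
      rw [Nat.cast_sub (by omega)]
      push_cast
      ring
    rw [this]
    ring

theorem rk_zero {T : Tri D} (hT : T.Conn) {X : Part D} (h : X.Le T) (hc : X.Con) (hne : X.R.Nonempty)
    (hr : rk T (rev X) = 0) : OneH X T ∧ X.gen12 = 0 := by
  obtain ⟨l, hl⟩ := hl_exists X
  obtain ⟨g, hg, _, h2⟩ := euler hT h hc hne hl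
  have h3 := hcomp_le hT h hne hl
  refine ⟨(hcomp_oneH hT h hne hl).2 (by omega), ?_⟩
  rw [hg]
  omega

theorem rk_one {T : Tri D} (hT : T.Conn) {X : Part D} (h : X.Le T) (hc : X.Con) (hne : X.R.Nonempty) {l : List D}
    (hl : X.HL l) (hr : rk T (rev X) = 1) : l.length = hcomp X T + 1 ∧ X.gen12 = 0 := by
  obtain ⟨g, hg, _, h2⟩ := euler hT h hc hne hl
  have h3 := hcomp_le hT h hne hl
  refine ⟨by omega, ?_⟩
  rw [hg]
  omega

theorem rk_two {T : Tri D} (hT : T.Conn) {X : Part D} (h : X.Le T) (hc : X.Con) (hne : X.R.Nonempty)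
    (hr : rk T (rev X) ≤ 2) (hg : X.gen12 ≠ 0) : rk T (rev X) = 2 ∧ OneH X T ∧ X.gen12 = 12 := by
  obtain ⟨l, hl⟩ := hl_exists X
  obtain ⟨g, hg', _, h2⟩ := euler hT h hc hne hl
  have h3 := hcomp_le hT h hne hl
  have h4 : g ≠ 0 := by
    rintro rfl
    exact hg (by rw [hg']; simp)
  refine ⟨by omega, (hcomp_oneH hT h hne hl).2 (by omega), ?_⟩
  rw [hg']
  omega

end SYS.CO
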