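import Pool.Agent.SYS.CO.Pla

/-!
# SYSS-COH-Oth: everything except one hidden component is revealed

`oth X T z`: the region with all faces and edges except those of the hidden component of `z`.
-/

namespace SYS.CO

open Classical SST GNH Part

variable {D : Type} [Finite D]

/-- `HC` is closed under `Hc`. -/
private theorem HC_closed {S : Part D} {T : Tri D} (h : S.Le T) {x d e : D} (hd : d ∈ S.HC T x)
    (hde : S.Hc T d e) : e ∈ S.HC T x :=
  ⟨(hc_mem h hde).1 hd.1, hc_trans hd.2 hde⟩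

private theorem HC_iff {S : Part D} {T : Tri D} (h : S.Le T) {x d e : D} (hde : S.Hc T d e) :
    d ∈ S.HC T x ↔ e ∈ S.HC T x :=
  ⟨fun hd => HC_closed h hd hde, fun he => HC_closed h he (hc_symm hde)⟩

theorem oth_hY {X : Part D} {T : Tri D} (h : X.Le T) (z d : D) :
    T.f d ∈ X.R ∪ (X.HC T z)ᶜ ↔ d ∈ X.R ∪ (X.HC T z)ᶜ := by
  by_cases hd : d ∈ X.R
  · exact ⟨fun _ => Or.inl hd, fun _ => Or.inl ((le_f_mem h d).2 hd)⟩
  · have hd' : T.f d ∉ X.R := fun h' => hd ((le_f_mem h d).1 h')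
    have h1 := HC_iff h (x := z) (hc_f (S := X) (T := T) hd)
    constructor
    · rintro (h2 | h2)
      · exact absurd h2 hd'
      · exact Or.inr fun h3 => h2 (h1.1 h3)
    · rintro (h2 | h2)
      · exact absurd h2 hd
      · exact Or.inr fun h3 => h2 (h1.2 h3)

theorem oth_hE {X : Part D} {T : Tri D} (h : X.Le T) (z d : D) :
    T.a d ∈ (X.HC T z)ᶜ ↔ d ∈ (X.HC T z)ᶜ := by
  by_cases hd : d ∈ X.X
  · have h1 := HC_iff h (x := z) (hc_a (S := X) (T := T) hd)
    exact not_congr h1.symm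
  · have hd' : T.a d ∉ X.X := fun h' => hd ((X_a h d).1 h')
    exact ⟨fun _ h2 => hd h2.1, fun _ h2 => hd' h2.1⟩

/-- Everything except the hidden component of `z`. -/
noncomputable def oth (X : Part D) (T : Tri D) (h : X.Le T) (z : D) : Part D :=
  Part.subPart T (X.R ∪ (X.HC T z)ᶜ) (X.HC T z)ᶜ (oth_hY h z) (oth_hE h z) (fun _ hd => Or.inr hd)

section
variable {X : Part D} {T : Tri D} (h : X.Le T) (z : D)

private theorem oth_f_mem {d : D} (hd : d ∈ X.R ∪ (X.HC T z)ᶜ) : (oth X T h z).f d = T.f d :=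
  restr_mem T.f (oth_hY h z) hd

private theorem oth_a_mem {d : D} (hd : d ∈ (X.HC T z)ᶜ) : (oth X T h z).a d = T.a d :=
  restr_mem T.a (oth_hE h z) hd

private theorem oth_a_not {d : D} (hd : d ∉ (X.HC T z)ᶜ) : (oth X T h z).a d = d :=
  restr_not_mem T.a (oth_hE h z) hd

theorem oth_R : (oth X T h z).R = X.R ∪ (X.HC T z)ᶜ := by
  exact subPart_R _ _ _ _ _ _

theorem oth_B : (oth X T h z).B = X.B ∩ X.HC T z := by
  have h1 : (oth X T h z).B = (X.R ∪ (X.HC T z)ᶜ) \ (X.HC T z)ᶜ := subPart_B _ _ _ _ _ _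
  rw [h1]
  ext d
  constructor
  · rintro ⟨h2, h3⟩
    have h4 : d ∈ X.HC T z := not_not.1 h3
    have h5 : d ∈ X.R := h2.resolve_right h3
    exact ⟨h4.1.resolve_left (fun h6 => h6 h5), h4⟩
  · rintro ⟨h2, h3⟩
    exact ⟨Or.inl h2.1, not_not.2 h3⟩

theorem oth_X : (oth X T h z).X = X.HC T z := by
  ext d
  show (d ∉ (oth X T h z).R ∨ d ∈ (oth X T h z).B) ↔ d ∈ X.HC T z
  rw [oth_R, oth_B]
  constructor
  · rintro (h1 | h1)
    · by_contra h2
      exact h1 (Or.inr h2)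
    · exact h1.2
  · intro h1
    rcases h1.1 with h2 | h2
    · exact Or.inl fun h3 => h3.elim h2 fun h4 => h4 h1
    · exact Or.inr ⟨h2, h1⟩

theorem oth_le : (oth X T h z).Le T := by
  exact subPart_le _ _ _ _ _ _

theorem oth_sub : X.Sub (oth X T h z) := by
  refine ⟨fun d hd => ?_, fun d hd => ?_⟩
  · rw [oth_f_mem h z (Or.inl hd)]
    exact h.1 d hd
  · have hX : d ∉ X.X := fun h1 => hd (mem_X_iff.1 h1)
    rw [oth_a_mem h z (fun h1 => hX h1.1)]
    exact h.2 d hd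

theorem oth_con (hT : T.Conn) (hc : X.Con) (hne : X.R.Nonempty) : (oth X T h z).Con := by
  have hsub := oth_sub h z
  have hRR : ∀ d ∈ X.R, ∀ e ∈ X.R, (oth X T h z).Cn d e := fun d hd e he =>
    cn_sub hsub hd (hc d hd e he)
  have key : ∀ d e, X.Hc T d e → X.Hc T d e ∧ (d ∉ X.HC T z → (oth X T h z).Cn d e) := by
    intro d e hde
    refine hc_ind (S := X) (T := T)
      (fun d e => X.Hc T d e ∧ (d ∉ X.HC T z → (oth X T h z).Cn d e)) ?_ ?_ ?_ ?_ ?_ ?_ hde
    · exact fun d => ⟨hc_refl X T d, fun _ => cn_refl _ d⟩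
    · rintro d e ⟨h1, h2⟩
      exact ⟨hc_symm h1, fun he => cn_symm (h2 (fun h3 => he ((HC_iff h h1).1 h3)))⟩
    · rintro d e k ⟨h1, h2⟩ ⟨h3, h4⟩
      exact ⟨hc_trans h1 h3, fun hd => cn_trans (h2 hd) (h4 (fun h5 => hd ((HC_iff h h1).2 h5)))⟩
    · intro d hd
      refine ⟨hc_a hd, fun hd' => ?_⟩
      have h1 := cn_a (oth X T h z) d
      rwa [oth_a_mem h z hd'] at h1
    · intro d hd
      refine ⟨hc_f hd, fun hd' => ?_⟩
      have h1 := cn_f (oth X T h z) d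
      rwa [oth_f_mem h z (Or.inr hd')] at h1
    · intro d hd
      exact ⟨hc_nx hd, fun _ => hRR d hd.1 _ ((X.nx_mem).2 hd).1⟩
  have hR' : ∀ d ∈ (oth X T h z).R, ∃ e ∈ X.R, (oth X T h z).Cn d e := by
    intro d hd
    rw [oth_R] at hd
    by_cases hd1 : d ∈ X.R
    · exact ⟨d, hd1, cn_refl _ d⟩
    · have hd2 : d ∉ X.HC T z := hd.resolve_left hd1
      obtain ⟨e, he, hde⟩ := hc_meets h hT hne (Or.inl hd1)
      exact ⟨e, he.1, (key d e hde).2 hd2⟩
  intro d hd e he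
  obtain ⟨d', hd', h1⟩ := hR' d hd
  obtain ⟨e', he', h2⟩ := hR' e he
  exact cn_trans h1 (cn_trans (hRR d' hd' e' he') (cn_symm h2))

private theorem oth_s {d : D} (hd : d ∈ X.R) (hd' : d ∈ X.B → d ∈ X.HC T z) :
    (oth X T h z).s d = X.s d := by
  rw [s_apply, s_apply]
  by_cases hB : d ∈ X.B
  · rw [oth_a_not h z (not_not.2 (hd' hB)), hB.2, oth_f_mem h z (Or.inl hd), h.1 d hd]
  · have h1 : X.a d ≠ d := fun h' => hB ⟨hd, h'⟩
    have h2 : X.a d ∈ X.R := (mem_R_a X d).2 hd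
    have h3 : d ∉ X.X := fun h4 => h1 (mem_X_iff.1 h4)
    rw [oth_a_mem h z (fun h4 => h3 h4.1), h.2 d h1, oth_f_mem h z (Or.inl h2), h.1 _ h2]

private theorem oth_nx {d : D} (hd : d ∈ X.B) (hd' : d ∈ X.HC T z) :
    (oth X T h z).nx d = X.nx d ∧ X.nx d ∈ X.B ∧ X.nx d ∈ X.HC T z := by
  obtain ⟨j, h1, h2, h3⟩ := ret_spec X.s hd
  have hB' : X.nx d ∈ X.B := h2
  have hH' : X.nx d ∈ X.HC T z := HC_closed h hd' (hc_nx hd)
  have hR : ∀ i : ℕ, (X.s ^ i) d ∈ X.R := by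
    intro i
    induction i with
    | zero => exact hd.1
    | succ i ih =>
      rw [pow_succ', Equiv.Perm.mul_apply]
      exact (mem_R_s X _).2 ih
  have hpow : ∀ i, i ≤ j + 1 → ((oth X T h z).s ^ i) d = (X.s ^ i) d := by
    intro i
    induction i with
    | zero => exact fun _ => rfl
    | succ i ih =>
      intro hi
      rw [pow_succ', Equiv.Perm.mul_apply, ih (by omega), pow_succ', Equiv.Perm.mul_apply]
      refine oth_s h z (hR i) fun hB => ?_
      cases i with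
      | zero => exact hd'
      | succ i => exact absurd hB (h3 i (by omega))
  have h4 : X.nx d = (X.s ^ (j + 1)) d := h1
  have hdB : d ∈ (oth X T h z).B := by
    rw [oth_B]
    exact ⟨hd, hd'⟩
  have h5 : (oth X T h z).nx d = ((oth X T h z).s ^ (j + 1)) d := by
    refine ret_eq (oth X T h z).s hdB ?_ ?_
    · rw [hpow (j + 1) le_rfl, ← h4, oth_B]
      exact ⟨hB', hH'⟩
    · intro i hi hc
      rw [hpow (i + 1) (by omega), oth_B] at hc
      exact h3 i hi hc.1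
  refine ⟨?_, hB', hH'⟩
  rw [h5, hpow (j + 1) le_rfl, h4]

private theorem oth_nx_pow {d : D} (hd : d ∈ X.B) (hd' : d ∈ X.HC T z) (i : ℕ) :
    ((oth X T h z).nx ^ i) d = (X.nx ^ i) d ∧ (X.nx ^ i) d ∈ X.B ∧ (X.nx ^ i) d ∈ X.HC T z := by
  induction i with
  | zero => exact ⟨rfl, hd, hd'⟩
  | succ i ih =>
    obtain ⟨h1, h2, h3⟩ := ih
    rw [pow_succ', Equiv.Perm.mul_apply, h1, pow_succ', Equiv.Perm.mul_apply]
    exact oth_nx h z h2 h3

private theorem hole_pow (S : Part D) {d : D} (hd : d ∈ S.B) :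
    S.hole d = {e | ∃ n : ℕ, (S.nx ^ n) d = e} := by
  have hB : ∀ n : ℕ, (S.nx ^ n) d ∈ S.B := by
    intro n
    induction n with
    | zero => exact hd
    | succ n ih =>
      rw [pow_succ', Equiv.Perm.mul_apply]
      exact (S.nx_mem).2 ih
  ext e
  constructor
  · rintro ⟨h1, h2⟩
    have h3 : S.nx.SameCycle d e := (ret_same S.s hd h1).2 h2
    exact h3.exists_nat_pow_eq
  · rintro ⟨n, rfl⟩
    refine ⟨hB n, (ret_same S.s hd (hB n)).1 ⟨(n : ℤ), ?_⟩⟩
    rw [zpow_natCast]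
    rfl

theorem oth_hw {d : D} (hd : d ∈ X.B) (hd' : d ∈ X.HC T z) : (oth X T h z).hw d = X.hw d := by
  have hdB : d ∈ (oth X T h z).B := by
    rw [oth_B]
    exact ⟨hd, hd'⟩
  have hper : (oth X T h z).per d = X.per d := by
    unfold SYS.Part.per
    rw [hole_pow _ hdB, hole_pow _ hd]
    congr 1
    ext e
    constructor
    · rintro ⟨n, hn⟩
      exact ⟨n, by rw [← (oth_nx_pow h z hd hd' n).1]; exact hn⟩
    · rintro ⟨n, hn⟩
      exact ⟨n, by rw [(oth_nx_pow h z hd hd' n).1]; exact hn⟩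
  unfold hw
  rw [hper]
  exact List.map_congr_left fun i _ => (oth_nx_pow h z hd hd' i).1

theorem oth_hconn : (oth X T h z).HConn T := by
  intro d hd e he
  rw [oth_X] at hd he
  have hde : X.Hc T d e := hc_trans (hc_symm hd.2) he.2
  refine (hc_ind (S := X) (T := T)
    (fun d e => X.Hc T d e ∧ (d ∈ X.HC T z → (oth X T h z).Hc T d e)) ?_ ?_ ?_ ?_ ?_ ?_ hde).2 hd
  · exact fun d => ⟨hc_refl X T d, fun _ => hc_refl _ T d⟩
  · rintro d e ⟨h1, h2⟩
    exact ⟨hc_symm h1, fun he => hc_symm (h2 ((HC_iff h h1).2 he))⟩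
  · rintro d e k ⟨h1, h2⟩ ⟨h3, h4⟩
    exact ⟨hc_trans h1 h3, fun hd => hc_trans (h2 hd) (h4 ((HC_iff h h1).1 hd))⟩
  · intro d hd
    refine ⟨hc_a hd, fun hd' => hc_a ?_⟩
    rw [oth_X]
    exact hd'
  · intro d hd
    refine ⟨hc_f hd, fun hd' => hc_f ?_⟩
    rw [oth_R]
    exact fun h1 => h1.elim hd fun h2 => h2 hd'
  · intro d hd
    refine ⟨hc_nx hd, fun hd' => ?_⟩
    rw [← (oth_nx h z hd hd').1]
    refine hc_nx ?_
    rw [oth_B]
    exact ⟨hd, hd'⟩

end

/-- Inner vertices of the region. -/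
private def vIn (X : Part D) (d : D) : Prop := d ∈ X.R ∧ ∀ e, X.s.SameCycle d e → e ∉ X.B

private theorem v_pow {τ : Equiv.Perm D} (u : D) (n : ℕ) : τ.SameCycle u ((τ ^ n) u) :=
  ⟨n, by rw [zpow_natCast]⟩

private theorem v_powR {X : Part D} {d : D} (hd : d ∈ X.R) (n : ℕ) : (X.s ^ n) d ∈ X.R := by
  induction n with
  | zero => exact hd
  | succ n ih =>
    rw [pow_succ', Equiv.Perm.mul_apply, mem_R_s]
    exact ih

private theorem v_in_pow {T : Tri D} {X : Part D} (h : X.Le T) {d : D} (hd : vIn X d) (n : ℕ) :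
    (T.s ^ n) d = (X.s ^ n) d := by
  induction n with
  | zero => rfl
  | succ n ih =>
    rw [pow_succ', Equiv.Perm.mul_apply, ih, pow_succ' X.s, Equiv.Perm.mul_apply]
    exact le_s h (v_powR hd.1 n) (hd.2 _ (v_pow d n))

private theorem v_in_same {T : Tri D} {X : Part D} (h : X.Le T) {d : D} (hd : vIn X d) (e : D) :
    T.s.SameCycle d e ↔ X.s.SameCycle d e := by
  constructor
  · intro he
    obtain ⟨n, rfl⟩ := he.exists_nat_pow_eq
    rw [v_in_pow h hd]
    exact v_pow d n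
  · intro he
    obtain ⟨n, rfl⟩ := he.exists_nat_pow_eq
    rw [← v_in_pow h hd]
    exact v_pow d n

private theorem v_in_not {T : Tri D} {X : Part D} (h : X.Le T) {d : D} (hd : vIn X d) {e : D}
    (he : T.s.SameCycle d e) : e ∉ X.X := by
  rw [v_in_same h hd] at he
  have h1 := hd.2 e he
  obtain ⟨n, rfl⟩ := he.exists_nat_pow_eq
  rintro (h2 | h2)
  · exact h2 (v_powR hd.1 n)
  · exact h1 h2

private theorem v_in_of {T : Tri D} {X : Part D} (h : X.Le T) {d : D}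
    (hd : ∀ e, T.s.SameCycle d e → e ∉ X.X) : vIn X d := by
  have h1 : ∀ e, T.s.SameCycle d e → e ∈ X.R ∧ e ∉ X.B := by
    intro e he
    refine ⟨?_, fun h2 => hd e he (Or.inr h2)⟩
    by_contra h2
    exact hd e he (Or.inl h2)
  have h2 : ∀ n : ℕ, (X.s ^ n) d = (T.s ^ n) d := by
    intro n
    induction n with
    | zero => rfl
    | succ n ih =>
      rw [pow_succ', Equiv.Perm.mul_apply, ih, pow_succ' T.s, Equiv.Perm.mul_apply]
      exact (le_s h (h1 _ (v_pow d n)).1 (h1 _ (v_pow d n)).2).symm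
  refine ⟨(h1 d (Equiv.Perm.SameCycle.refl _ _)).1, ?_⟩
  intro e he
  obtain ⟨n, rfl⟩ := he.exists_nat_pow_eq
  rw [h2]
  exact (h1 _ (v_pow d n)).2

theorem inn_vtx {X : Part D} {T : Tri D} (h : X.Le T) :
    X.inn + {v : T.V | ∃ d ∈ X.X, T.tl d = v}.ncard = Nat.card T.V := by
  have hfin : Finite T.V := Quotient.finite _
  have h1 := Set.ncard_add_ncard_compl {v : T.V | ∃ d ∈ X.X, T.tl d = v}
  have h2 : X.inn = ({v : T.V | ∃ d ∈ X.X, T.tl d = v}ᶜ).ncard := by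
    let Φ : {q : Quotient (Equiv.Perm.SameCycle.setoid X.s) //
        ∃ d, Quotient.mk _ d = q ∧ d ∈ X.R ∧ ∀ e, X.s.SameCycle d e → e ∉ X.B} →
        ({v : T.V | ∃ d ∈ X.X, T.tl d = v}ᶜ : Set T.V) := fun q =>
      ⟨T.tl q.2.choose, by
        rintro ⟨d, hd, hdq⟩
        exact v_in_not h q.2.choose_spec.2 (Quotient.exact hdq).symm hd⟩
    have hbij : Function.Bijective Φ := by
      constructor
      · intro q q' hq
        have h3 : T.tl q.2.choose = T.tl q'.2.choose := congrArg Subtype.val hq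
        have h4 := (v_in_same h q.2.choose_spec.2 _).1 (Quotient.exact h3)
        apply Subtype.ext
        rw [← q.2.choose_spec.1, ← q'.2.choose_spec.1]
        exact Quotient.sound h4
      · rintro ⟨v, hv⟩
        obtain ⟨d, rfl⟩ : ∃ d, T.tl d = v := Quotient.exists_rep v
        have hd : vIn X d := v_in_of h fun e he heX => hv ⟨e, heX, Quotient.sound he.symm⟩
        refine ⟨⟨Quotient.mk _ d, d, rfl, hd⟩, ?_⟩
        apply Subtype.ext
        have h3 : X.s.SameCycle (⟨Quotient.mk _ d, d, rfl, hd⟩ : {q : Quotient (Equiv.Perm.SameCycle.setoid X.s) //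
            ∃ d, Quotient.mk _ d = q ∧ d ∈ X.R ∧ ∀ e, X.s.SameCycle d e → e ∉ X.B}).2.choose d :=
          Quotient.exact (⟨Quotient.mk _ d, d, rfl, hd⟩ : {q : Quotient (Equiv.Perm.SameCycle.setoid X.s) //
            ∃ d, Quotient.mk _ d = q ∧ d ∈ X.R ∧ ∀ e, X.s.SameCycle d e → e ∉ X.B}).2.choose_spec.1
        have h4 := (v_in_same h (⟨Quotient.mk _ d, d, rfl, hd⟩ : {q : Quotient (Equiv.Perm.SameCycle.setoid X.s) //
            ∃ d, Quotient.mk _ d = q ∧ d ∈ X.R ∧ ∀ e, X.s.SameCycle d e → e ∉ X.B}).2.choose_spec.2 d).2 h3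
        exact Quotient.sound h4
    exact Nat.card_congr (Equiv.ofBijective Φ hbij)
  rw [h2, add_comm]
  exact h1

end SYS.CO
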