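import Pool.Agent.SYS.XP.Defs
import Pool.Agent.SYS.UT.Flow

/-!
# Project SYS (MP_650813_pr), block COH: cocycles carried by parts of the dual graph (definitions).  DO NOT CHANGE.

The faces of `T` are the vertices of a 3-regular graph; its edges are the pairs `{d, T.a d}`.  A set of
edges is a set `E` of darts (usually invariant under `T.a`).  `Z T E`: cocycles which vanish off `E`, i.e.
the cycle space (flows without divergence) of the graph with the edges `E`.  `VV T E`: their classes
modulo the coboundaries `Bd T`.  `rk T E`: dimension of `VV T E`.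
`ins T Y`: edges inside the face set `Y`.  `rev X`: revealed edges of the region `X`.
`Lk T E d e`: the faces of `d` and `e` are joined by edges in `E`.
`hcomp X T`: number of components of the hidden part (its faces: hidden triangles and holes of `X`).
-/

namespace SYS.CO

open Classical SST GNH Part

variable {D : Type}

/-- Coboundaries. -/
def Bd (T : Tri D) : Submodule ℝ (D → ℝ) where
  carrier := {x | ∃ h : T.V → ℝ, ∀ d, x d = h (T.hd d) - h (T.tl d)}
  add_mem' := by
    rintro x y ⟨h, hh⟩ ⟨h', hh'⟩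
    refine ⟨h + h', fun d => ?_⟩
    rw [Pi.add_apply, hh, hh', Pi.add_apply, Pi.add_apply]
    ring
  zero_mem' := ⟨0, fun d => by rw [Pi.zero_apply, Pi.zero_apply, Pi.zero_apply, sub_zero]⟩
  smul_mem' := by
    rintro s x ⟨h, hh⟩
    refine ⟨s • h, fun d => ?_⟩
    rw [Pi.smul_apply, hh, Pi.smul_apply, Pi.smul_apply, smul_eq_mul, smul_eq_mul, smul_eq_mul]
    ring

/-- Cocycles which vanish off `E`. -/
def Z (T : Tri D) (E : Set D) : Submodule ℝ (D → ℝ) where
  carrier := {x | T.IsCoc x ∧ ∀ d, d ∉ E → x d = 0}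
  add_mem' := by
    rintro x y ⟨⟨h1, h2⟩, h3⟩ ⟨⟨h4, h5⟩, h6⟩
    refine ⟨⟨fun d => ?_, fun d => ?_⟩, fun d hd => ?_⟩
    · rw [Pi.add_apply, Pi.add_apply, h1, h4]
      ring
    · rw [Pi.add_apply, Pi.add_apply, Pi.add_apply]
      linear_combination h2 d + h5 d
    · rw [Pi.add_apply, h3 d hd, h6 d hd, add_zero]
  zero_mem' := by
    refine ⟨⟨fun d => ?_, fun d => ?_⟩, fun d _ => rfl⟩
    · rw [Pi.zero_apply, Pi.zero_apply, neg_zero]
    · rw [Pi.zero_apply, Pi.zero_apply, Pi.zero_apply, add_zero, add_zero]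
  smul_mem' := by
    rintro s x ⟨⟨h1, h2⟩, h3⟩
    refine ⟨⟨fun d => ?_, fun d => ?_⟩, fun d hd => ?_⟩
    · rw [Pi.smul_apply, Pi.smul_apply, h1, smul_neg]
    · rw [Pi.smul_apply, Pi.smul_apply, Pi.smul_apply, smul_eq_mul, smul_eq_mul, smul_eq_mul]
      linear_combination s * h2 d
    · rw [Pi.smul_apply, h3 d hd, smul_zero]

theorem mem_Z {T : Tri D} {E : Set D} {x : D → ℝ} :
    x ∈ Z T E ↔ T.IsCoc x ∧ ∀ d, d ∉ E → x d = 0 := Iff.rfl

theorem mem_Bd {T : Tri D} {x : D → ℝ} :
    x ∈ Bd T ↔ ∃ h : T.V → ℝ, ∀ d, x d = h (T.hd d) - h (T.tl d) := Iff.rfl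

/-- Classes of the cocycles which vanish off `E`. -/
def VV (T : Tri D) (E : Set D) : Submodule ℝ ((D → ℝ) ⧸ Bd T) := (Z T E).map (Bd T).mkQ

/-- The rank of `E`. -/
noncomputable def rk (T : Tri D) (E : Set D) : ℕ := Module.finrank ℝ (VV T E)

/-- The edges with both darts in `Y`. -/
def ins (T : Tri D) (Y : Set D) : Set D := {d | d ∈ Y ∧ T.a d ∈ Y}

/-- The revealed edges of a region. -/
def rev (X : Part D) : Set D := {d | X.a d ≠ d}

/-- The faces of `d` and `e` are connected through edges in `E`. -/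
def Lk (T : Tri D) (E : Set D) (d e : D) : Prop :=
  Relation.EqvGen (fun d e => e = T.f d ∨ (d ∈ E ∧ e = T.a d)) d e

/-- The components of the hidden part. -/
def hset [Finite D] (X : Part D) (T : Tri D) : Setoid X.X where
  r d e := X.Hc T d e
  iseqv := ⟨fun d => hc_refl X T d, fun h => hc_symm h, fun h h' => hc_trans h h'⟩

/-- Number of components of the hidden part (with the holes as faces). -/
noncomputable def hcomp [Finite D] (X : Part D) (T : Tri D) : ℕ := Nat.card (Quotient (hset X T))

/-- Two darts leaving the same vertex of the surface in which the edges of `T` off `E` are contracted. -/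
def Cl (T : Tri D) (E : Set D) (d e : D) : Prop :=
  Relation.EqvGen (fun d e => e = T.s d ∨ (d ∉ E ∧ e = T.a d)) d e

/-- Number of classes of `Cl`. -/
noncomputable def ncl (T : Tri D) (E : Set D) : ℕ :=
  Nat.card (Quotient (Relation.EqvGen.setoid (fun d e : D => e = T.s d ∨ (d ∉ E ∧ e = T.a d))))

end SYS.CO
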