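import Pool.Agent.SYS.CO.Ndg
import Pool.Agent.SYS.UT.GrdA

/-!
# SYSS-COH-Aar: the intersection form on a region all of whose hidden components have one hole

PLAN.
* `per_hole`: `H = X.HC T z` is invariant under `T.a` (`X_a`, `hc_a`), its darts off `X.R` under `T.f`.  `sum over H of u = 0`
  (antisymmetry), `sum over H \ X.B of u = 0` (the darts of `H` off `X.R`, `3 *` this sum is the sum of `u d + u (f d) + u (f (f d))`),
  so `sum over H n X.B = 0`; `H n X.B` = the darts of `X.hw z` (`mem_hw`, `hc_hole`, `hu`), `hw_nodup`.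
* `null_hole`: `k d = 0` if `d in H` and `d` not in `X.R`, `k d = 1` otherwise; `T.chain c d = [d in c] - [T.a d in c]` for
  `c = X.hw z` (no repetitions).  Closed: `hw_walk`.
* `area_grad`: `y` in `Z T (rev X)`, `w` a cocycle with `w d = q (X.f d) - q d` on `X.R`, `VInv X q`: `Area y w = 0`.  With sums over
  `d in X.R` (`y = 0` off `X.R`; reindex by `T.f`, which is `X.f` there): `A = sum y d * q (f (f d)) = sum y (f d) * q d`,
  `B = sum y d * q (f d)`, `C = sum y d * q d`: `Area y w = 2 A - B - C` and `A + B + C = 0` (reindex, `y` is a cocycle) and `B + C = 0`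
  (only `d` in `rev X` counts; `q (f d) = q (X.s (X.a d)) = q (X.a d)`, `y (X.a d) = - y d`, reindex by `X.a`).
* `proj`: `z d = u d` on `X.B`, `0` off `X.B`; its sum over every cycle of `X.s` is `0` (a cycle which meets `X.B` is a hole, `per_hole`),
  `SST.Tri.orbit_potential` for `X.s` gives `q`, `q (X.s d) - q d = z d`; so `VInv X q` and `q (X.f d) - q d = u d` on `X.B`.
  `w d = q (X.f d) - q d` on `X.R`, `u d` off `X.R`, a cocycle (edge revealed: `q (X.f (X.a d)) = q (X.s d) = q d`; edge with `d` in `X.B`: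
  `w d = u d`; faces of `X`: telescoping); `u' = u - w`.
* `area_ne`: `Z T (rev X)` contains `y` not in `Bd T` (rank > 0); `nondeg`: a cocycle `u` with `Area y u /= 0`; `proj`.
-/

namespace SYS.CO

open Classical SST GNH Part

variable {D : Type} [Fintype D]

/-- Every hidden component has one hole. -/
def OneH (X : Part D) (T : Tri D) : Prop := ∀ z ∈ X.B, ∀ d ∈ X.B, X.Hc T z d → X.s.SameCycle z d

private theorem aar_mem {T : Tri D} {X : Part D} {z : D} (hz : z ∈ X.B)
    (hu : ∀ d ∈ X.B, X.Hc T z d → X.s.SameCycle z d) (d : D) :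
    d ∈ X.hw z ↔ d ∈ X.B ∧ X.Hc T z d := by
  rw [mem_hw X hz]
  constructor
  · rintro ⟨h1, h2⟩
    exact ⟨h1, hc_hole hz ((mem_hw X hz).2 ⟨h1, h2⟩)⟩
  · rintro ⟨h1, h2⟩
    exact ⟨h1, hu d h1 h2⟩

private theorem aar_a {T : Tri D} {X : Part D} (h : X.Le T) (z d : D) :
    T.a d ∈ X.HC T z ↔ d ∈ X.HC T z := by
  have key : ∀ d, d ∈ X.HC T z → T.a d ∈ X.HC T z := fun d hd =>
    ⟨(X_a h d).2 hd.1, hc_trans hd.2 (hc_a hd.1)⟩
  refine ⟨fun hd => ?_, key d⟩
  have h1 := key _ hd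
  rwa [T.aa] at h1

private theorem aar_f {T : Tri D} {X : Part D} (h : X.Le T) (z d : D) :
    (T.f d ∈ X.HC T z ∧ T.f d ∉ X.R) ↔ (d ∈ X.HC T z ∧ d ∉ X.R) := by
  have key : ∀ d, (d ∈ X.HC T z ∧ d ∉ X.R) → (T.f d ∈ X.HC T z ∧ T.f d ∉ X.R) := by
    rintro d ⟨h1, h2⟩
    have h3 : T.f d ∉ X.R := fun h4 => h2 ((le_f_mem h d).1 h4)
    exact ⟨⟨Or.inl h3, hc_trans h1.2 (hc_f h2)⟩, h3⟩
  refine ⟨fun hd => ?_, key d⟩
  have h1 := key _ (key _ hd)
  rwa [T.fff] at h1

private theorem aar_fR {T : Tri D} {X : Part D} (h : X.Le T) {d : D} (hd : d ∈ X.R) :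
    X.f d = T.f d ∧ T.f d ∈ X.R := ⟨(h.1 d hd).symm, (le_f_mem h d).2 hd⟩

theorem per_hole {T : Tri D} {X : Part D} (h : X.Le T) {z : D} (hz : z ∈ X.B)
    (hu : ∀ d ∈ X.B, X.Hc T z d → X.s.SameCycle z d) {u : D → ℝ} (hu' : T.IsCoc u) : per u (X.hw z) = 0 := by
  have hall : ∑ d, (if d ∈ X.HC T z then u d else 0) = 0 := by
    have h1 : ∑ d, (if T.a d ∈ X.HC T z then u (T.a d) else 0) =
        ∑ d, (if d ∈ X.HC T z then u d else 0) :=
      Equiv.sum_comp T.a fun d => if d ∈ X.HC T z then u d else 0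
    have h2 : ∑ d, (if T.a d ∈ X.HC T z then u (T.a d) else 0) =
        -∑ d, (if d ∈ X.HC T z then u d else 0) := by
      rw [← Finset.sum_neg_distrib]
      refine Finset.sum_congr rfl fun d _ => ?_
      by_cases hd : d ∈ X.HC T z
      · rw [if_pos hd, if_pos ((aar_a h z d).2 hd), hu'.1 d]
      · rw [if_neg hd, if_neg fun h' => hd ((aar_a h z d).1 h'), neg_zero]
    linarith
  have hhid : ∑ d, (if d ∈ X.HC T z ∧ d ∉ X.R then u d else 0) = 0 := by
    have h1 : ∑ d, (if T.f d ∈ X.HC T z ∧ T.f d ∉ X.R then u (T.f d) else 0) =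
        ∑ d, (if d ∈ X.HC T z ∧ d ∉ X.R then u d else 0) :=
      Equiv.sum_comp T.f fun d => if d ∈ X.HC T z ∧ d ∉ X.R then u d else 0
    have h2 : ∑ d, (if T.f (T.f d) ∈ X.HC T z ∧ T.f (T.f d) ∉ X.R then u (T.f (T.f d)) else 0) =
        ∑ d, (if T.f d ∈ X.HC T z ∧ T.f d ∉ X.R then u (T.f d) else 0) :=
      Equiv.sum_comp T.f fun d => if T.f d ∈ X.HC T z ∧ T.f d ∉ X.R then u (T.f d) else 0
    have h3 : ∑ d, ((if d ∈ X.HC T z ∧ d ∉ X.R then u d else 0) +
        (if T.f d ∈ X.HC T z ∧ T.f d ∉ X.R then u (T.f d) else 0) +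
        (if T.f (T.f d) ∈ X.HC T z ∧ T.f (T.f d) ∉ X.R then u (T.f (T.f d)) else 0)) = 0 := by
      refine Finset.sum_eq_zero fun d _ => ?_
      by_cases hd : d ∈ X.HC T z ∧ d ∉ X.R
      · have hd1 := (aar_f h z d).2 hd
        have hd2 := (aar_f h z (T.f d)).2 hd1
        rw [if_pos hd, if_pos hd1, if_pos hd2]
        exact hu'.2 d
      · have hd1 : ¬ (T.f d ∈ X.HC T z ∧ T.f d ∉ X.R) := fun h' => hd ((aar_f h z d).1 h')
        have hd2 : ¬ (T.f (T.f d) ∈ X.HC T z ∧ T.f (T.f d) ∉ X.R) :=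
          fun h' => hd1 ((aar_f h z (T.f d)).1 h')
        rw [if_neg hd, if_neg hd1, if_neg hd2]
        ring
    rw [Finset.sum_add_distrib, Finset.sum_add_distrib] at h3
    linarith
  have hper : GNH.per u (X.hw z) = ∑ d, (if d ∈ X.B ∧ X.Hc T z d then u d else 0) := by
    have h1 : (X.hw z).toFinset = Finset.univ.filter fun d => d ∈ X.B ∧ X.Hc T z d := by
      ext d
      rw [List.mem_toFinset, aar_mem hz hu d, Finset.mem_filter]
      exact ⟨fun h2 => ⟨Finset.mem_univ _, h2⟩, fun h2 => h2.2⟩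
    unfold GNH.per
    rw [← List.sum_toFinset u (hw_nodup X hz), h1, Finset.sum_filter]
  have hsum : ∑ d, (if d ∈ X.HC T z then u d else 0) =
      ∑ d, (if d ∈ X.HC T z ∧ d ∉ X.R then u d else 0) +
        ∑ d, (if d ∈ X.B ∧ X.Hc T z d then u d else 0) := by
    rw [← Finset.sum_add_distrib]
    refine Finset.sum_congr rfl fun d _ => ?_
    by_cases hd : d ∈ X.HC T z
    · by_cases hR : d ∈ X.R
      · have hB : d ∈ X.B := by
          rcases hd.1 with h1 | h1
          · exact absurd hR h1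
          · exact h1
        rw [if_pos hd, if_neg fun h' => h'.2 hR, if_pos ⟨hB, hd.2⟩, zero_add]
      · rw [if_pos hd, if_pos ⟨hd, hR⟩, if_neg fun h' => hR h'.1.1, add_zero]
    · rw [if_neg hd, if_neg fun h' => hd h'.1, if_neg fun h' => hd ⟨Or.inr h'.1, h'.2⟩, add_zero]
  rw [hper]
  linarith

private theorem aar_ind {c : List D} (hc : c.Nodup) (d : D) :
    (c.map fun e => Tri.ind e d).sum = if d ∈ c then 1 else 0 := by
  induction c with
  | nil => simp
  | cons x c ih =>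
    rw [List.nodup_cons] at hc
    rw [List.map_cons, List.sum_cons, ih hc.2]
    unfold Tri.ind
    by_cases h1 : x = d
    · subst h1
      rw [if_pos rfl, if_neg hc.1, if_pos List.mem_cons_self, add_zero]
    · rw [if_neg h1, zero_add]
      by_cases h2 : d ∈ c
      · rw [if_pos h2, if_pos (List.mem_cons_of_mem _ h2)]
      · rw [if_neg h2, if_neg]
        intro h3
        rcases List.mem_cons.1 h3 with h4 | h4
        · exact h1 h4.symm
        · exact h2 h4

private theorem aar_chain (T : Tri D) {c : List D} (hc : c.Nodup) (d : D) :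
    T.chain c d = (if d ∈ c then 1 else 0) - (if T.a d ∈ c then 1 else 0) := by
  have h1 : T.chain c d = (c.map fun e => Tri.ind e d).sum - (c.map fun e => Tri.ind e (T.a d)).sum := by
    unfold Tri.chain
    clear hc
    induction c with
    | nil => simp
    | cons x c ih =>
      rw [List.map_cons, List.sum_cons, ih, List.map_cons, List.sum_cons, List.map_cons,
        List.sum_cons]
      ring
  rw [h1, aar_ind hc, aar_ind hc]

theorem null_hole {T : Tri D} {X : Part D} (h : X.Le T) {z : D} (hz : z ∈ X.B)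
    (hu : ∀ d ∈ X.B, X.Hc T z d → X.s.SameCycle z d) : T.Closed (X.hw z) ∧ T.NullHom (X.hw z) := by
  refine ⟨⟨T.tl z, hw_walk h hz⟩, fun d => if d ∈ X.HC T z ∧ d ∉ X.R then 0 else 1, ?_, ?_⟩
  · intro d
    show (if T.f d ∈ X.HC T z ∧ T.f d ∉ X.R then (0 : ℤ) else 1) =
      if d ∈ X.HC T z ∧ d ∉ X.R then 0 else 1
    exact if_congr (aar_f h z d) rfl rfl
  · intro d
    show T.chain (X.hw z) d = (if d ∈ X.HC T z ∧ d ∉ X.R then (0 : ℤ) else 1) -
      if T.a d ∈ X.HC T z ∧ T.a d ∉ X.R then 0 else 1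
    rw [aar_chain T (hw_nodup X hz)]
    have key : ∀ d, (if d ∈ X.HC T z ∧ d ∉ X.R then (0 : ℤ) else 1) =
        (if d ∈ X.hw z then 1 else 0) + (if d ∈ X.HC T z then 0 else 1) := by
      intro d
      by_cases hd : d ∈ X.HC T z
      · by_cases hR : d ∈ X.R
        · have hB : d ∈ X.B := by
            rcases hd.1 with h1 | h1
            · exact absurd hR h1
            · exact h1
          rw [if_neg fun h' => h'.2 hR, if_pos ((aar_mem hz hu d).2 ⟨hB, hd.2⟩), if_pos hd, add_zero]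
        · rw [if_pos ⟨hd, hR⟩, if_neg fun h' => hR ((aar_mem hz hu d).1 h').1.1, if_pos hd, add_zero]
      · rw [if_neg fun h' => hd h'.1, if_neg fun h' => hd ⟨Or.inr ((aar_mem hz hu d).1 h').1,
          ((aar_mem hz hu d).1 h').2⟩, if_neg hd, zero_add]
    rw [key d, key (T.a d), if_congr (aar_a h z d) rfl rfl]
    ring

theorem area_grad {T : Tri D} {X : Part D} (h : X.Le T) {y w q : D → ℝ} (hy : y ∈ Z T (rev X)) (hw : T.IsCoc w)
    (hq : VInv X q) (hg : ∀ d ∈ X.R, w d = q (X.f d) - q d) : T.Area y w = 0 := by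
  obtain ⟨hyc, hy0⟩ := mem_Z.1 hy
  have hyR : ∀ d, d ∉ X.R → y d = 0 := fun d hd => hy0 d (not_mem_rev.2 (Or.inl hd))
  have e1 : ∀ d, y d * w (T.f d) = y d * q (T.f (T.f d)) - y d * q (T.f d) := by
    intro d
    by_cases hd : d ∈ X.R
    · obtain ⟨-, h2⟩ := aar_fR h hd
      rw [hg _ h2, (aar_fR h h2).1]
      ring
    · rw [hyR d hd]
      ring
  have e2 : ∀ d, y (T.f d) * w d = y (T.f d) * q (T.f d) - y (T.f d) * q d := by
    intro d
    by_cases hd : d ∈ X.R
    · rw [hg d hd, (aar_fR h hd).1]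
      ring
    · rw [hyR (T.f d) fun h' => hd ((le_f_mem h d).1 h')]
      ring
  have s1 : ∑ d, y (T.f d) * q (T.f d) = ∑ d, y d * q d := Equiv.sum_comp T.f fun d => y d * q d
  have s2 : ∑ d, y (T.f d) * q d = ∑ d, y d * q (T.f (T.f d)) := by
    have h1 := Equiv.sum_comp T.f fun d => y d * q (T.f (T.f d))
    rw [← h1]
    refine Finset.sum_congr rfl fun d _ => ?_
    rw [T.fff]
  have s3 : ∑ d, y (T.f (T.f d)) * q d = ∑ d, y d * q (T.f d) := by
    have h1 : ∑ d, y (T.f d) * q (T.f (T.f d)) = ∑ d, y d * q (T.f d) :=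
      Equiv.sum_comp T.f fun d => y d * q (T.f d)
    have h2 : ∑ d, y (T.f (T.f d)) * q (T.f (T.f (T.f d))) = ∑ d, y (T.f d) * q (T.f (T.f d)) :=
      Equiv.sum_comp T.f fun d => y (T.f d) * q (T.f (T.f d))
    rw [← h1, ← h2]
    refine Finset.sum_congr rfl fun d _ => ?_
    rw [T.fff]
  have s4 : ∑ d, y d * q d + ∑ d, y d * q (T.f d) + ∑ d, y d * q (T.f (T.f d)) = 0 := by
    rw [← s2, ← s3, ← Finset.sum_add_distrib, ← Finset.sum_add_distrib]
    refine Finset.sum_eq_zero fun d _ => ?_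
    have h1 := hyc.2 d
    linear_combination q d * h1
  have s5 : ∑ d, y d * q (T.f d) = -∑ d, y d * q d := by
    have h1 : ∑ d, y (T.a d) * q (T.a (T.a d)) = ∑ d, y d * q (T.a d) :=
      Equiv.sum_comp T.a fun d => y d * q (T.a d)
    have h2 : ∑ d, y d * q (T.f d) = ∑ d, y d * q (T.a d) := by
      refine Finset.sum_congr rfl fun d _ => ?_
      by_cases hd : d ∈ rev X
      · have h3 : T.a d = X.a d := h.2 d hd
        have h4 : X.a d ∈ rev X := by
          rw [← h3]
          exact (rev_a h d).2 hd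
        obtain ⟨h5, h6⟩ := mem_rev.1 h4
        have h7 := hq _ h5 h6
        rw [Part.s_apply, X.aa, (aar_fR h (mem_rev.1 hd).1).1] at h7
        rw [h7, h3]
      · rw [hy0 d hd]
        ring
    rw [h2, ← h1, ← Finset.sum_neg_distrib]
    refine Finset.sum_congr rfl fun d _ => ?_
    rw [T.aa, hyc.1 d]
    ring
  unfold Tri.Area
  rw [Finset.sum_sub_distrib, Finset.sum_congr rfl fun d _ => e1 d, Finset.sum_congr rfl fun d _ => e2 d,
    Finset.sum_sub_distrib, Finset.sum_sub_distrib, s1, s2]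
  linarith

theorem proj {T : Tri D} {X : Part D} (h : X.Le T) (h1 : OneH X T) {u : D → ℝ} (hu : T.IsCoc u) :
    ∃ u' ∈ Z T (rev X), ∀ y ∈ Z T (rev X), T.Area y u' = T.Area y u := by
  obtain ⟨q, hq, -⟩ := Tri.orbit_potential X.s (fun d => if d ∈ X.B then u d else 0) (fun d => by
    by_cases hex : ∃ z ∈ X.B, X.s.SameCycle d z
    · obtain ⟨z, hz, hdz⟩ := hex
      have h2 := per_hole h hz (fun e he he' => h1 z hz e he he') hu
      have h3 : (X.hw z).toFinset = (Finset.univ.filter fun e => X.s.SameCycle d e).filter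
          fun e => e ∈ X.B := by
        ext e
        rw [List.mem_toFinset, mem_hw X hz, Finset.mem_filter, Finset.mem_filter]
        constructor
        · rintro ⟨h4, h5⟩
          exact ⟨⟨Finset.mem_univ _, hdz.trans h5⟩, h4⟩
        · rintro ⟨⟨_, h4⟩, h5⟩
          exact ⟨h5, hdz.symm.trans h4⟩
      rw [← Finset.sum_filter, ← h3, List.sum_toFinset u (hw_nodup X hz)]
      exact h2
    · refine Finset.sum_eq_zero fun e he => ?_
      rw [if_neg fun h4 => hex ⟨e, h4, (Finset.mem_filter.1 he).2⟩])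
  have hV : VInv X q := by
    intro d _ hB
    have h2 := hq d
    rw [if_neg hB] at h2
    linarith
  have hB : ∀ d ∈ X.B, q (X.f d) - q d = u d := by
    intro d hd
    have h2 := hq d
    rw [if_pos hd, Part.s_apply, hd.2] at h2
    exact h2
  obtain ⟨w, hw⟩ : ∃ w : D → ℝ, w = fun d => if d ∈ X.R then q (X.f d) - q d else u d := ⟨_, rfl⟩
  have hwR : ∀ d ∈ X.R, w d = q (X.f d) - q d := by
    intro d hd
    rw [hw]
    exact if_pos hd
  have hwN : ∀ d, d ∉ X.R → w d = u d := by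
    intro d hd
    rw [hw]
    exact if_neg hd
  have hwX : ∀ d ∈ X.X, w d = u d := by
    intro d hd
    rcases hd with hd | hd
    · exact hwN d hd
    · rw [hwR d hd.1]
      exact hB d hd
  have hwa : ∀ d, w (T.a d) = - w d := by
    intro d
    by_cases hd : d ∈ rev X
    · have h3 : T.a d = X.a d := h.2 d hd
      have h4 : X.a d ∈ rev X := by
        rw [← h3]
        exact (rev_a h d).2 hd
      obtain ⟨h5, h6⟩ := mem_rev.1 h4
      obtain ⟨h5', h6'⟩ := mem_rev.1 hd
      have h7 := hV _ h5 h6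
      rw [Part.s_apply, X.aa] at h7
      have h8 := hV _ h5' h6'
      rw [Part.s_apply] at h8
      rw [h3, hwR _ h5, hwR _ h5', h7, h8]
      ring
    · have h3 := not_mem_rev.1 hd
      rw [hwX d h3, hwX _ ((X_a h d).2 h3), hu.1 d]
  have hwf : ∀ d, w d + w (T.f d) + w (T.f (T.f d)) = 0 := by
    intro d
    by_cases hd : d ∈ X.R
    · obtain ⟨a1, a2⟩ := aar_fR h hd
      obtain ⟨b1, b2⟩ := aar_fR h a2
      obtain ⟨c1, _⟩ := aar_fR h b2
      rw [hwR _ hd, hwR _ a2, hwR _ b2, a1, b1, c1, T.fff]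
      ring
    · have a2 : T.f d ∉ X.R := fun h' => hd ((le_f_mem h d).1 h')
      have b2 : T.f (T.f d) ∉ X.R := fun h' => a2 ((le_f_mem h _).1 h')
      rw [hwN _ hd, hwN _ a2, hwN _ b2]
      exact hu.2 d
  have hwc : T.IsCoc w := ⟨hwa, hwf⟩
  refine ⟨fun d => u d - w d, mem_Z.2 ⟨⟨fun d => ?_, fun d => ?_⟩, fun d hd => ?_⟩, fun y hy => ?_⟩
  · show u (T.a d) - w (T.a d) = -(u d - w d)
    rw [hu.1 d, hwa d]
    ring
  · show (u d - w d) + (u (T.f d) - w (T.f d)) + (u (T.f (T.f d)) - w (T.f (T.f d))) = 0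
    have h3 := hu.2 d
    have h4 := hwf d
    linarith
  · show u d - w d = 0
    rw [hwX d (not_mem_rev.1 hd), sub_self]
  · have h3 := area_grad h hy hwc hV hwR
    have h4 : T.Area y (fun d => u d - w d) = T.Area y u - T.Area y w := by
      unfold Tri.Area
      rw [← Finset.sum_sub_distrib]
      refine Finset.sum_congr rfl fun d _ => ?_
      ring
    rw [h4, h3, sub_zero]

theorem area_ne {T : Tri D} (hT : T.Conn) {X : Part D} (h : X.Le T) (h1 : OneH X T) (hr : 0 < rk T (rev X)) :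
    ∃ y1 ∈ Z T (rev X), ∃ y2 ∈ Z T (rev X), T.Area y1 y2 ≠ 0 := by
  obtain ⟨y, hy, hyB⟩ : ∃ y ∈ Z T (rev X), y ∉ Bd T := by
    by_contra hcon
    push Not at hcon
    have h2 : VV T (rev X) = ⊥ := by
      unfold VV
      rw [eq_bot_iff]
      rintro x ⟨y, hy, rfl⟩
      rw [Submodule.mem_bot, Submodule.mkQ_apply, Submodule.Quotient.mk_eq_zero]
      exact hcon y hy
    unfold rk at hr
    rw [h2, finrank_bot] at hr
    exact lt_irrefl _ hr
  obtain ⟨u, hu, hyu⟩ : ∃ u, T.IsCoc u ∧ T.Area y u ≠ 0 := by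
    by_contra hcon
    push Not at hcon
    exact hyB (nondeg hT (mem_Z.1 hy).1 hcon)
  obtain ⟨u', hu', h2⟩ := proj h h1 hu
  exact ⟨y, hy, u', hu', by rw [h2 y hy]; exact hyu⟩

end SYS.CO
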