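import Pool.Agent.SYS.CO.Defs
import Pool.Agent.SYS.XP.Cut
import Pool.Agent.GNH.Defs

/-!
# SYSS-COH-Bas: elementary facts on `Z`, `VV`, `rk`, `Lk`
-/

namespace SYS.CO

open Classical SST GNH Part

variable {D : Type}

theorem lk_refl (T : Tri D) (E : Set D) (d : D) : Lk T E d d := Relation.EqvGen.refl _

theorem lk_symm {T : Tri D} {E : Set D} {d e : D} (h : Lk T E d e) : Lk T E e d := Relation.EqvGen.symm _ _ h

theorem lk_trans {T : Tri D} {E : Set D} {d e k : D} (h : Lk T E d e) (h' : Lk T E e k) : Lk T E d k :=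
  Relation.EqvGen.trans _ _ _ h h'

theorem lk_f (T : Tri D) (E : Set D) (d : D) : Lk T E d (T.f d) := Relation.EqvGen.rel _ _ (Or.inl rfl)

theorem lk_a (T : Tri D) {E : Set D} {d : D} (hd : d ∈ E) : Lk T E d (T.a d) :=
  Relation.EqvGen.rel _ _ (Or.inr ⟨hd, rfl⟩)

theorem lk_mono {T : Tri D} {E E' : Set D} (h : E ⊆ E') {d e : D} (h' : Lk T E d e) : Lk T E' d e := by
  induction h' with
  | rel x y h1 =>
    rcases h1 with h1 | ⟨h1, h2⟩
    · exact Relation.EqvGen.rel _ _ (Or.inl h1)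
    · exact Relation.EqvGen.rel _ _ (Or.inr ⟨h h1, h2⟩)
  | refl x => exact Relation.EqvGen.refl _
  | symm x y _ ih => exact Relation.EqvGen.symm _ _ ih
  | trans x y z _ _ ih1 ih2 => exact Relation.EqvGen.trans _ _ _ ih1 ih2

theorem lk_ind {T : Tri D} {E : Set D} (P : D → D → Prop) (hr : ∀ d, P d d) (hs : ∀ d e, P d e → P e d)
    (ht : ∀ d e k, P d e → P e k → P d k) (hf : ∀ d, P d (T.f d)) (ha : ∀ d ∈ E, P d (T.a d)) {d e : D}
    (h : Lk T E d e) : P d e := by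
  induction h with
  | rel x y h1 =>
    rcases h1 with h1 | ⟨h1, h2⟩
    · rw [h1]
      exact hf x
    · rw [h2]
      exact ha x h1
  | refl x => exact hr x
  | symm x y _ ih => exact hs _ _ ih
  | trans x y z _ _ ih1 ih2 => exact ht _ _ _ ih1 ih2

/-- A set of faces which is closed under the edges in `E`. -/
theorem lk_mem {T : Tri D} {E Y : Set D} (hf : ∀ d ∈ Y, T.f d ∈ Y) (ha : ∀ d ∈ E, T.a d ∈ E)
    (hY : ∀ d ∈ Y, d ∈ E → T.a d ∈ Y) {d e : D} (h : Lk T E d e) : d ∈ Y ↔ e ∈ Y := by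
  refine lk_ind (fun d e => d ∈ Y ↔ e ∈ Y) (fun _ => Iff.rfl) (fun _ _ h => h.symm)
    (fun _ _ _ h1 h2 => h1.trans h2) (fun d => ⟨hf d, fun h1 => ?_⟩) (fun d hd => ⟨fun h1 => hY d h1 hd, fun h1 => ?_⟩) h
  · have h2 := hf _ (hf _ h1)
    rw [T.fff] at h2
    exact h2
  · have h2 := hY _ h1 (ha d hd)
    rw [T.aa] at h2
    exact h2

theorem Z_mono {T : Tri D} {E E' : Set D} (h : E ⊆ E') : Z T E ≤ Z T E' :=
  fun _ hx => ⟨hx.1, fun d hd => hx.2 d fun h1 => hd (h h1)⟩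

theorem Z_univ (T : Tri D) : Z T Set.univ = Co T := by
  ext x
  constructor
  · intro hx
    exact hx.1
  · intro hx
    exact ⟨hx, fun d hd => absurd (Set.mem_univ d) hd⟩

theorem Z_inter (T : Tri D) (E E' : Set D) : Z T (E ∩ E') = Z T E ⊓ Z T E' := by
  ext x
  rw [Submodule.mem_inf, mem_Z, mem_Z, mem_Z]
  constructor
  · rintro ⟨h1, h2⟩
    exact ⟨⟨h1, fun d hd => h2 d fun h3 => hd h3.1⟩, h1, fun d hd => h2 d fun h3 => hd h3.2⟩
  · rintro ⟨⟨h1, h2⟩, -, h3⟩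
    refine ⟨h1, fun d hd => ?_⟩
    by_cases h4 : d ∈ E
    · exact h3 d fun h5 => hd ⟨h4, h5⟩
    · exact h2 d h4

theorem Bd_le (T : Tri D) : Bd T ≤ Co T := by
  rintro x ⟨h, hh⟩
  refine ⟨fun d => ?_, fun d => ?_⟩
  · rw [hh, hh, Tri.hd_a]
    show h (T.tl d) - h (T.hd d) = -(h (T.hd d) - h (T.tl d))
    ring
  · rw [hh, hh, hh, Tri.hd_ff, Tri.tl_f, Tri.tl_f]
    ring

theorem VV_mono {T : Tri D} {E E' : Set D} (h : E ⊆ E') : VV T E ≤ VV T E' := by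
  exact Submodule.map_mono (Z_mono h)

theorem rk_mono [Finite D] {T : Tri D} {E E' : Set D} (h : E ⊆ E') : rk T E ≤ rk T E' := by
  exact Submodule.finrank_mono (VV_mono h)

theorem vv_eq_of_rk [Finite D] {T : Tri D} {E E' : Set D} (h : E ⊆ E') (h' : rk T E' ≤ rk T E) :
    VV T E = VV T E' := by
  exact Submodule.eq_of_le_of_finrank_le (VV_mono h) h'

theorem vv_le_iff {T : Tri D} {E E' : Set D} : VV T E ≤ VV T E' ↔ Z T E ≤ Z T E' ⊔ Bd T := by
  unfold VV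
  rw [Submodule.map_le_iff_le_comap, Submodule.comap_map_mkQ, sup_comm]

theorem VV_sup_le {T : Tri D} {E E1 E2 : Set D} (h : Z T E ≤ Z T E1 ⊔ Z T E2) : VV T E ≤ VV T E1 ⊔ VV T E2 := by
  unfold VV
  rw [← Submodule.map_sup]
  exact Submodule.map_mono h

theorem mem_X_iff {X : Part D} {d : D} : d ∈ X.X ↔ X.a d = d := by
  constructor
  · rintro (h | h)
    · exact X.af d (not_not.1 h)
    · exact h.2
  · intro h
    by_cases h1 : d ∈ X.R
    · exact Or.inr ⟨h1, h⟩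
    · exact Or.inl h1

theorem mem_rev {X : Part D} {d : D} : d ∈ rev X ↔ d ∈ X.R ∧ d ∉ X.B := by
  constructor
  · intro h
    exact ⟨fun h1 => h (X.af d h1), fun h1 => h h1.2⟩
  · rintro ⟨h1, h2⟩ h3
    exact h2 ⟨h1, h3⟩

theorem not_mem_rev {X : Part D} {d : D} : d ∉ rev X ↔ d ∈ X.X := by
  rw [mem_X_iff]
  exact not_not

theorem rev_a {X : Part D} {T : Tri D} (h : X.Le T) (d : D) : T.a d ∈ rev X ↔ d ∈ rev X := by
  have h0 : ∀ d, d ∈ rev X → T.a d ∈ rev X := by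
    intro d hd
    rw [h.2 d hd]
    show X.a (X.a d) ≠ X.a d
    rw [X.aa]
    exact fun h1 => hd h1.symm
  refine ⟨fun h1 => ?_, h0 d⟩
  have h2 := h0 _ h1
  rw [T.aa] at h2
  exact h2

theorem rev_mono {S S' : Part D} (h : S.Sub S') : rev S ⊆ rev S' := by
  intro d hd
  show S'.a d ≠ d
  rw [h.2 d hd]
  exact hd

theorem ins_a (T : Tri D) (Y : Set D) (d : D) : T.a d ∈ ins T Y ↔ d ∈ ins T Y := by
  show (T.a d ∈ Y ∧ T.a (T.a d) ∈ Y) ↔ (d ∈ Y ∧ T.a d ∈ Y)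
  rw [T.aa]
  exact and_comm

theorem ins_mono (T : Tri D) {Y Y' : Set D} (h : Y ⊆ Y') : ins T Y ⊆ ins T Y' := by
  exact fun d hd => ⟨h hd.1, h hd.2⟩

theorem rev_sub_ins {X : Part D} {T : Tri D} (h : X.Le T) : rev X ⊆ ins T X.R := by
  intro d hd
  have h1 := (mem_rev.1 hd).1
  refine ⟨h1, ?_⟩
  rw [h.2 d hd]
  exact (mem_R_a X d).2 h1

theorem rev_sub (T : Tri D) (Y E : Set D) (hY : ∀ d, T.f d ∈ Y ↔ d ∈ Y) (hE : ∀ d, T.a d ∈ E ↔ d ∈ E)
    (hEY : E ⊆ Y) : rev (Part.subPart T Y E hY hE hEY) = E := by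
  ext d
  show restr T.a E hE d ≠ d ↔ d ∈ E
  by_cases hd : d ∈ E
  · rw [restr_mem T.a hE hd]
    exact ⟨fun _ => hd, fun _ => T.ane d⟩
  · rw [restr_not_mem T.a hE hd]
    exact ⟨fun h => absurd rfl h, fun h => absurd h hd⟩

theorem rev_cut (T : Tri D) (Y : Set D) (h : XP.Fs T Y) : rev (XP.cut T Y h) = ins T Y := by
  exact rev_sub T Y _ _ _ _

theorem con_lk {X : Part D} {T : Tri D} (h : X.Le T) :
    X.Con ↔ ∀ d ∈ X.R, ∀ e ∈ X.R, Lk T (rev X) d e := by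
  have hf : ∀ d, T.f d ∈ X.R ↔ d ∈ X.R := by
    have h0 : ∀ d ∈ X.R, T.f d ∈ X.R := by
      intro d hd
      rw [h.1 d hd]
      exact (mem_R_f X d).2 hd
    intro d
    refine ⟨fun h1 => ?_, h0 d⟩
    have h2 := h0 _ (h0 _ h1)
    rw [T.fff] at h2
    exact h2
  constructor
  · intro hc d hd e he
    have key : ∀ d e, X.Cn d e → (d ∈ X.R ↔ e ∈ X.R) ∧ (d ∈ X.R → Lk T (rev X) d e) := by
      intro d e hde
      induction hde with
      | rel x y h1 =>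
        rcases h1 with h1 | h1
        · rw [h1]
          refine ⟨(mem_R_a X x).symm, fun _ => ?_⟩
          by_cases h2 : X.a x = x
          · rw [h2]
            exact lk_refl _ _ _
          · rw [← h.2 x h2]
            exact lk_a T h2
        · rw [h1]
          refine ⟨(mem_R_f X x).symm, fun h2 => ?_⟩
          rw [← h.1 x h2]
          exact lk_f T _ x
      | refl x => exact ⟨Iff.rfl, fun _ => lk_refl _ _ _⟩
      | symm x y _ ih => exact ⟨ih.1.symm, fun h2 => lk_symm (ih.2 (ih.1.2 h2))⟩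
      | trans x y z _ _ ih1 ih2 =>
        exact ⟨ih1.1.trans ih2.1, fun h2 => lk_trans (ih1.2 h2) (ih2.2 (ih1.1.1 h2))⟩
    exact (key d e (hc d hd e he)).2 hd
  · intro hc d hd e he
    have key : ∀ d e, Lk T (rev X) d e → (d ∈ X.R ↔ e ∈ X.R) ∧ (d ∈ X.R → X.Cn d e) := by
      intro d e hde
      refine lk_ind (fun d e => (d ∈ X.R ↔ e ∈ X.R) ∧ (d ∈ X.R → X.Cn d e)) (fun d => ⟨Iff.rfl, fun _ => cn_refl X d⟩)
        (fun d e ih => ⟨ih.1.symm, fun h2 => cn_symm (ih.2 (ih.1.2 h2))⟩)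
        (fun d e k ih1 ih2 => ⟨ih1.1.trans ih2.1, fun h2 => cn_trans (ih1.2 h2) (ih2.2 (ih1.1.1 h2))⟩)
        (fun d => ⟨(hf d).symm, fun h2 => ?_⟩) (fun d h2 => ⟨?_, fun _ => ?_⟩) hde
      · rw [h.1 d h2]
        exact cn_f X d
      · rw [h.2 d h2]
        exact (mem_R_a X d).symm
      · rw [h.2 d h2]
        exact cn_a X d
    exact (key d e (hc d hd e he)).2 hd

theorem dc_lk {T : Tri D} {Y : Set D} (h : XP.Fs T Y) :
    XP.DC T Y ↔ ∀ d ∈ Y, ∀ e ∈ Y, Lk T (ins T Y) d e := by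
  constructor
  · intro hdc d hd e he
    have h1 := hdc {e | e ∈ Y ∧ Lk T (ins T Y) d e} (fun _ h2 => h2.1) ⟨d, hd, lk_refl _ _ _⟩
      (fun e h2 => ⟨(h e).2 h2.1, lk_trans h2.2 (lk_f T _ e)⟩)
      (fun e h2 h3 => ⟨h3, lk_trans h2.2 (lk_a T ⟨h2.1, h3⟩)⟩)
    rw [← h1] at he
    exact he.2
  · intro hl A hA hne h1 h2
    obtain ⟨z, hz⟩ := hne
    apply Set.Subset.antisymm hA
    intro e he
    have h3 := lk_mem (E := ins T Y) (Y := A) h1 (fun d hd => (ins_a T Y d).2 hd)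
      (fun d hd hd' => h2 d hd hd'.2) (hl z (hA hz) e he)
    exact h3.1 hz

theorem con_cut {T : Tri D} {Y : Set D} (h : XP.Fs T Y) (h' : XP.DC T Y) : (XP.cut T Y h).Con := by
  rw [con_lk (XP.cut_le T Y h), rev_cut, XP.cut_R]
  exact (dc_lk h).1 h'

end SYS.CO
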