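import Pool.Agent.SYS.CO.Bas

/-!
# SYSS-COH-Cls: the classes of `Cl T (rev X)` are the inner vertices and the hidden components

PLAN.  Darts off `rev X` = `X.X` (`not_mem_rev`).
(A) `ret_hc`: two darts of `X.X` with the same tail are `Hc`-related.  For `d` in `X.X` and the first `j >= 1` with
`T.s^j d` in `X.X`: `T.a d` in `X.X`, `Hc d (T.a d)`.  If `T.a d` is not in `X.R` then `T.s d = T.f (T.a d)` is not in `X.R`, so
it is in `X.X`, `j = 1` and `Hc (T.a d) (T.f (T.a d))` by `hc_f`.  If `T.a d` is in `X.B`: `X.s (T.a d) = X.f (T.a d) = T.f (T.a d)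
= T.s d`, the darts `T.s^i d`, `1 <= i < j`, are in `X.R \ X.B`, where `X.s = T.s` (`le_s`), so `X.nx (T.a d) = T.s^j d`
(`ret_eq`, `nx = ret X.s X.B`) and `hc_nx`.  Then iterate (strong induction on `k` with `T.s^k d` in `X.X`).
(B) `cl_hc`: for `d, e` in `X.X`: `Cl T (rev X) d e <-> X.Hc T d e`.  (=>) `EqvGen` induction with
`Q d e = SameCycle T.s d e or exists d' e' in X.X, SameCycle T.s d d', SameCycle T.s e e', Hc d' e'` (an equivalence by (A)).
(<=) `hc_ind`: `d` and `T.a d`: off `rev X`; `d` not in `X.R`: `T.f d = T.s (T.a d)`; `d` in `X.B`: `X.nx d` is in the `T.s`-orbit of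
`T.f d` (as in (A)), `T.f d = T.s (T.a d)`.
(C) a `T.s`-orbit without darts of `X.X` is a class of `Cl` and a cycle of `X.s` in `X.R` without darts of `X.B`, and conversely
(`le_s`: `X.s = T.s` on `X.R \ X.B`): these are the `X.inn` inner vertices.
Bijection `inner vertices + Quotient (hset X T) -> Quotient Cl`.
-/

namespace SYS.CO

open Classical SST GNH Part

variable {D : Type}

private theorem cls_closed [Finite D] {τ : Equiv.Perm D} (R : D → D → Prop) (hr : ∀ u, R u u)
    (ht : ∀ u v w, R u v → R v w → R u w) (hs : ∀ u, R u (τ u)) {u v : D}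
    (h : τ.SameCycle u v) : R u v := by
  obtain ⟨n, hn⟩ := h.exists_nat_pow_eq
  have key : ∀ n : ℕ, R u ((τ ^ n) u) := by
    intro n
    induction n with
    | zero => exact hr u
    | succ n ih =>
      have e : (τ ^ (n + 1)) u = τ ((τ ^ n) u) := by
        rw [pow_succ', Equiv.Perm.mul_apply]
      rw [e]
      exact ht _ _ _ ih (hs _)
  rw [← hn]
  exact key n

private theorem cls_pow {τ : Equiv.Perm D} (u : D) (n : ℕ) : τ.SameCycle u ((τ ^ n) u) :=
  ⟨n, by rw [zpow_natCast]⟩

/-- The return map of `T.s` to the hidden darts. -/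
private theorem cls_step [Finite D] {T : Tri D} {X : Part D} (h : X.Le T) {d : D} (hd : d ∈ X.X) :
    (T.a d ∉ X.R ∧ ret T.s X.X d = T.f (T.a d)) ∨ (T.a d ∈ X.B ∧ ret T.s X.X d = X.nx (T.a d)) := by
  have hda : T.a d ∈ X.X := (X_a h d).2 hd
  by_cases hR : T.a d ∈ X.R
  · right
    have hB : T.a d ∈ X.B := hda.resolve_left (fun h' => h' hR)
    refine ⟨hB, ?_⟩
    have h0 : X.s (T.a d) = T.s d := by
      have e1 : X.s (T.a d) = X.f (T.a d) := by
        rw [s_apply, hB.2]
      rw [e1, ← h.1 _ hB.1]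
      rfl
    obtain ⟨j, h1, h2, h3⟩ := ret_spec T.s hd
    have hmid : ∀ i < j, (T.s ^ (i + 1)) d ∈ X.R ∧ (T.s ^ (i + 1)) d ∉ X.B := by
      intro i hi
      have h4 := h3 i hi
      refine ⟨?_, fun h5 => h4 (Or.inr h5)⟩
      by_contra h5
      exact h4 (Or.inl h5)
    have hpow : ∀ i ≤ j, (X.s ^ (i + 1)) (T.a d) = (T.s ^ (i + 1)) d := by
      intro i
      induction i with
      | zero =>
        intro _
        rw [zero_add, pow_one, pow_one]
        exact h0
      | succ i ih =>
        intro hi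
        have h4 := ih (by omega)
        have e : (T.s ^ (i + 1 + 1)) d = T.s ((T.s ^ (i + 1)) d) := by
          rw [pow_succ' T.s (i + 1), Equiv.Perm.mul_apply]
        rw [pow_succ', Equiv.Perm.mul_apply, h4, e]
        exact (le_s h (hmid i (by omega)).1 (hmid i (by omega)).2).symm
    have hRs : ∀ i : ℕ, (X.s ^ i) (T.a d) ∈ X.R := by
      intro i
      induction i with
      | zero => exact hR
      | succ i ih =>
        rw [pow_succ', Equiv.Perm.mul_apply, mem_R_s]
        exact ih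
    have h5 : (T.s ^ (j + 1)) d ∈ X.B := by
      rw [h1] at h2
      refine h2.resolve_left fun h6 => h6 ?_
      rw [← hpow j le_rfl]
      exact hRs _
    rw [h1, ← hpow j le_rfl]
    refine (ret_eq X.s hB ?_ ?_).symm
    · rw [hpow j le_rfl]
      exact h5
    · intro i hi
      rw [hpow i hi.le]
      exact (hmid i hi).2
  · left
    refine ⟨hR, ?_⟩
    have h1 : (T.s ^ (0 + 1)) d = T.f (T.a d) := by
      rw [zero_add, pow_one]
      rfl
    have h2 : T.f (T.a d) ∉ X.R := fun h' => hR ((le_f_mem h _).1 h')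
    have h3 := ret_eq T.s hd (j := 0) (by rw [h1]; exact Or.inl h2) (fun i hi => absurd hi (Nat.not_lt_zero i))
    rw [h3, h1]

private theorem cls_same_hc [Finite D] {T : Tri D} {X : Part D} (h : X.Le T) {d e : D} (hd : d ∈ X.X) (he : e ∈ X.X)
    (hde : T.s.SameCycle d e) : X.Hc T d e := by
  rw [← ret_same T.s hd he] at hde
  refine cls_closed (fun u v => X.Hc T u v) (fun u => hc_refl X T u) (fun _ _ _ h1 h2 => hc_trans h1 h2) ?_ hde
  intro u
  by_cases hu : u ∈ X.X
  · rcases cls_step h hu with ⟨h1, h2⟩ | ⟨h1, h2⟩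
    · show X.Hc T u (ret T.s X.X u)
      rw [h2]
      exact hc_trans (hc_a hu) (hc_f h1)
    · show X.Hc T u (ret T.s X.X u)
      rw [h2]
      exact hc_trans (hc_a hu) (hc_nx h1)
  · show X.Hc T u (ret T.s X.X u)
    rw [ret_not_mem T.s hu]
    exact hc_refl X T u

theorem ret_hc [Finite D] {T : Tri D} {X : Part D} (h : X.Le T) {d e : D} (hd : d ∈ X.X) (he : e ∈ X.X)
    (hde : T.tl d = T.tl e) : X.Hc T d e :=
  cls_same_hc h hd he (Quotient.exact hde)

private theorem cls_cl_refl (T : Tri D) (E : Set D) (d : D) : Cl T E d d := Relation.EqvGen.refl _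

private theorem cls_cl_symm {T : Tri D} {E : Set D} {d e : D} (h : Cl T E d e) : Cl T E e d :=
  Relation.EqvGen.symm _ _ h

private theorem cls_cl_trans {T : Tri D} {E : Set D} {d e k : D} (h : Cl T E d e) (h' : Cl T E e k) : Cl T E d k :=
  Relation.EqvGen.trans _ _ _ h h'

private theorem cls_cl_same [Finite D] {T : Tri D} {E : Set D} {d e : D} (h : T.s.SameCycle d e) : Cl T E d e :=
  cls_closed (fun u v => Cl T E u v) (fun u => cls_cl_refl T E u) (fun _ _ _ h1 h2 => cls_cl_trans h1 h2)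
    (fun _ => Relation.EqvGen.rel _ _ (Or.inl rfl)) h

private theorem cls_cl_a [Finite D] {T : Tri D} {X : Part D} {d : D} (hd : d ∈ X.X) : Cl T (rev X) d (T.a d) :=
  Relation.EqvGen.rel _ _ (Or.inr ⟨not_mem_rev.2 hd, rfl⟩)

private theorem cls_Q [Finite D] {T : Tri D} {X : Part D} (h : X.Le T) {d e : D} (hde : Cl T (rev X) d e) :
    T.s.SameCycle d e ∨ ∃ d' ∈ X.X, ∃ e' ∈ X.X, T.s.SameCycle d d' ∧ T.s.SameCycle e e' ∧ X.Hc T d' e' := by
  induction hde with
  | rel x y hh =>
    rcases hh with rfl | ⟨h1, rfl⟩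
    · exact Or.inl (cls_pow x 1)
    · have hx : x ∈ X.X := not_mem_rev.1 h1
      exact Or.inr ⟨x, hx, T.a x, (X_a h x).2 hx, Equiv.Perm.SameCycle.refl _ _, Equiv.Perm.SameCycle.refl _ _, hc_a hx⟩
  | refl x => exact Or.inl (Equiv.Perm.SameCycle.refl _ _)
  | symm x y _ ih =>
    rcases ih with ih | ⟨d', hd', e', he', h1, h2, h3⟩
    · exact Or.inl ih.symm
    · exact Or.inr ⟨e', he', d', hd', h2, h1, hc_symm h3⟩
  | trans x y z _ _ ih1 ih2 =>
    rcases ih1 with ih1 | ⟨d', hd', e', he', h1, h2, h3⟩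
    · rcases ih2 with ih2 | ⟨d'', hd'', e'', he'', h4, h5, h6⟩
      · exact Or.inl (ih1.trans ih2)
      · exact Or.inr ⟨d'', hd'', e'', he'', ih1.trans h4, h5, h6⟩
    · rcases ih2 with ih2 | ⟨d'', hd'', e'', he'', h4, h5, h6⟩
      · exact Or.inr ⟨d', hd', e', he', h1, ih2.symm.trans h2, h3⟩
      · exact Or.inr ⟨d', hd', e'', he'', h1, h5,
          hc_trans h3 (hc_trans (cls_same_hc h he' hd'' (h2.symm.trans h4)) h6)⟩

theorem cl_hc [Finite D] {T : Tri D} {X : Part D} (h : X.Le T) {d e : D} (hd : d ∈ X.X) (he : e ∈ X.X) :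
    Cl T (rev X) d e ↔ X.Hc T d e := by
  constructor
  · intro hde
    rcases cls_Q h hde with h1 | ⟨d', hd', e', he', h1, h2, h3⟩
    · exact cls_same_hc h hd he h1
    · exact hc_trans (cls_same_hc h hd hd' h1) (hc_trans h3 (cls_same_hc h he' he h2.symm))
  · refine hc_ind (fun u v => Cl T (rev X) u v) (fun u => cls_cl_refl _ _ u) (fun _ _ h => cls_cl_symm h)
      (fun _ _ _ h1 h2 => cls_cl_trans h1 h2) (fun u hu => cls_cl_a hu) ?_ ?_
    · intro u hu
      have h1 : T.s.SameCycle (T.a u) (T.f u) := by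
        have h2 := cls_pow (τ := T.s) (T.a u) 1
        rw [pow_one] at h2
        have h3 : T.s (T.a u) = T.f u := by
          show T.f (T.a (T.a u)) = T.f u
          rw [T.aa]
        rwa [h3] at h2
      exact cls_cl_trans (cls_cl_a (Or.inl hu)) (cls_cl_same h1)
    · intro u hu
      have hu' : u ∈ X.X := Or.inr hu
      have ha : T.a u ∈ X.X := (X_a h u).2 hu'
      rcases cls_step h ha with ⟨h1, _⟩ | ⟨_, h2⟩
      · rw [T.aa] at h1
        exact absurd hu.1 h1
      · rw [T.aa] at h2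
        obtain ⟨j, h3, _, _⟩ := ret_spec T.s ha
        have h4 : T.s.SameCycle (T.a u) (X.nx u) := by
          rw [← h2, h3]
          exact cls_pow _ _
        exact cls_cl_trans (cls_cl_a hu') (cls_cl_same h4)

/-- Inner vertices of the region. -/
private def cIn [Finite D] (X : Part D) (d : D) : Prop := d ∈ X.R ∧ ∀ e, X.s.SameCycle d e → e ∉ X.B

private theorem cls_powR [Finite D] {X : Part D} {d : D} (hd : d ∈ X.R) (n : ℕ) : (X.s ^ n) d ∈ X.R := by
  induction n with
  | zero => exact hd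
  | succ n ih =>
    rw [pow_succ', Equiv.Perm.mul_apply, mem_R_s]
    exact ih

private theorem cls_in_pow [Finite D] {T : Tri D} {X : Part D} (h : X.Le T) {d : D} (hd : cIn X d) (n : ℕ) :
    (T.s ^ n) d = (X.s ^ n) d := by
  induction n with
  | zero => rfl
  | succ n ih =>
    rw [pow_succ', Equiv.Perm.mul_apply, ih, pow_succ' X.s, Equiv.Perm.mul_apply]
    exact le_s h (cls_powR hd.1 n) (hd.2 _ (cls_pow d n))

private theorem cls_in_same [Finite D] {T : Tri D} {X : Part D} (h : X.Le T) {d : D} (hd : cIn X d) (e : D) :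
    T.s.SameCycle d e ↔ X.s.SameCycle d e := by
  constructor
  · intro he
    obtain ⟨n, rfl⟩ := he.exists_nat_pow_eq
    rw [cls_in_pow h hd]
    exact cls_pow d n
  · intro he
    obtain ⟨n, rfl⟩ := he.exists_nat_pow_eq
    rw [← cls_in_pow h hd]
    exact cls_pow d n

private theorem cls_in_not [Finite D] {T : Tri D} {X : Part D} (h : X.Le T) {d : D} (hd : cIn X d) {e : D}
    (he : T.s.SameCycle d e) : e ∉ X.X := by
  rw [cls_in_same h hd] at he
  have h1 := hd.2 e he
  obtain ⟨n, rfl⟩ := he.exists_nat_pow_eq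
  rintro (h2 | h2)
  · exact h2 (cls_powR hd.1 n)
  · exact h1 h2

private theorem cls_in_of [Finite D] {T : Tri D} {X : Part D} (h : X.Le T) {d : D}
    (hd : ∀ e, T.s.SameCycle d e → e ∉ X.X) : cIn X d := by
  have h1 : ∀ e, T.s.SameCycle d e → e ∈ X.R ∧ e ∉ X.B := by
    intro e he
    refine ⟨?_, fun h2 => hd e he (Or.inr h2)⟩
    by_contra h2
    exact hd e he (Or.inl h2)
  have h2 : ∀ n : ℕ, (X.s ^ n) d = (T.s ^ n) d := by
    intro n
    induction n with
    | zero => rfl
    | succ n ih =>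
      rw [pow_succ', Equiv.Perm.mul_apply, ih, pow_succ' T.s, Equiv.Perm.mul_apply]
      exact (le_s h (h1 _ (cls_pow d n)).1 (h1 _ (cls_pow d n)).2).symm
  refine ⟨(h1 d (Equiv.Perm.SameCycle.refl _ _)).1, ?_⟩
  intro e he
  obtain ⟨n, rfl⟩ := he.exists_nat_pow_eq
  rw [h2]
  exact (h1 _ (cls_pow d n)).2

theorem ncl_rev [Finite D] {T : Tri D} {X : Part D} (h : X.Le T) : ncl T (rev X) = X.inn + hcomp X T := by
  have hex : ∀ d e : D, (Quotient.mk (Relation.EqvGen.setoid (fun d e : D => e = T.s d ∨ (d ∉ rev X ∧ e = T.a d))) d =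
      Quotient.mk (Relation.EqvGen.setoid (fun d e : D => e = T.s d ∨ (d ∉ rev X ∧ e = T.a d))) e) ↔ Cl T (rev X) d e :=
    fun d e => ⟨fun h' => Quotient.exact h', fun h' => Quotient.sound h'⟩
  let Φ : {q : Quotient (Equiv.Perm.SameCycle.setoid X.s) //
      ∃ d, Quotient.mk _ d = q ∧ d ∈ X.R ∧ ∀ e, X.s.SameCycle d e → e ∉ X.B} ⊕ Quotient (hset X T) →
      Quotient (Relation.EqvGen.setoid (fun d e : D => e = T.s d ∨ (d ∉ rev X ∧ e = T.a d))) :=
    Sum.elim (fun q => Quotient.mk _ q.2.choose)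
      (Quotient.lift (fun x : X.X => Quotient.mk _ (x : D)) (fun a b hab => (hex _ _).2 ((cl_hc h a.2 b.2).2 hab)))
  have hin : ∀ q : {q : Quotient (Equiv.Perm.SameCycle.setoid X.s) //
      ∃ d, Quotient.mk _ d = q ∧ d ∈ X.R ∧ ∀ e, X.s.SameCycle d e → e ∉ X.B}, cIn X q.2.choose :=
    fun q => q.2.choose_spec.2
  have hcl1 : ∀ d e, cIn X d → Cl T (rev X) d e → T.s.SameCycle d e := by
    intro d e hd hde
    rcases cls_Q h hde with h1 | ⟨d', hd', _, _, h1, _, _⟩
    · exact h1
    · exact absurd hd' (cls_in_not h hd h1)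
  have hbij : Function.Bijective Φ := by
    constructor
    · rintro (q | q) (q' | q') hq
      · have h1 : Cl T (rev X) q.2.choose q'.2.choose := (hex _ _).1 hq
        have h2 := (cls_in_same h (hin q) _).1 (hcl1 _ _ (hin q) h1)
        congr 1
        apply Subtype.ext
        rw [← q.2.choose_spec.1, ← q'.2.choose_spec.1]
        exact Quotient.sound h2
      · exfalso
        induction q' using Quotient.inductionOn with
        | h x =>
          have h1 : Cl T (rev X) q.2.choose x := (hex _ _).1 hq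
          exact cls_in_not h (hin q) (hcl1 _ _ (hin q) h1) x.2
      · exfalso
        induction q using Quotient.inductionOn with
        | h x =>
          have h1 : Cl T (rev X) x q'.2.choose := (hex _ _).1 hq
          exact cls_in_not h (hin q') (hcl1 _ _ (hin q') (cls_cl_symm h1)) x.2
      · induction q using Quotient.inductionOn with
        | h x =>
          induction q' using Quotient.inductionOn with
          | h y =>
            have h1 : Cl T (rev X) x y := (hex _ _).1 hq
            congr 1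
            exact Quotient.sound ((cl_hc h x.2 y.2).1 h1)
    · intro q
      induction q using Quotient.inductionOn with
      | h d =>
        by_cases hd : ∃ e, T.s.SameCycle d e ∧ e ∈ X.X
        · obtain ⟨e, he, heX⟩ := hd
          exact ⟨Sum.inr (Quotient.mk _ ⟨e, heX⟩), (hex _ _).2 (cls_cl_same he.symm)⟩
        · have hd' : cIn X d := cls_in_of h fun e he heX => hd ⟨e, he, heX⟩
          refine ⟨Sum.inl ⟨Quotient.mk _ d, d, rfl, hd'⟩, ?_⟩
          refine (hex _ _).2 ?_
          have h1 := (hin ⟨Quotient.mk _ d, d, rfl, hd'⟩)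
          have h2 : X.s.SameCycle (⟨Quotient.mk _ d, d, rfl, hd'⟩ : {q : Quotient (Equiv.Perm.SameCycle.setoid X.s) //
              ∃ d, Quotient.mk _ d = q ∧ d ∈ X.R ∧ ∀ e, X.s.SameCycle d e → e ∉ X.B}).2.choose d :=
            Quotient.exact (⟨Quotient.mk _ d, d, rfl, hd'⟩ : {q : Quotient (Equiv.Perm.SameCycle.setoid X.s) //
              ∃ d, Quotient.mk _ d = q ∧ d ∈ X.R ∧ ∀ e, X.s.SameCycle d e → e ∉ X.B}).2.choose_spec.1
          exact cls_cl_same ((cls_in_same h h1 _).2 h2)
  have h1 := Nat.card_congr (Equiv.ofBijective Φ hbij)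
  rw [Nat.card_sum] at h1
  unfold ncl hcomp Part.inn
  exact h1.symm

end SYS.CO
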