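import Pool.Agent.SYS.CO.Flw

/-!
# SYSS-COH-Dim: dimension of the cycle space of a connected graph: `#edges - #faces + 1`

`E` = set of edges (`|E|` darts, so `|E| / 2` edges), `Y` = set of faces (`|Y| / 3` faces), connected through `E`.
The dimensions of the space of flows in `E` and of the space of face functions on `Y` are traces of
projections; the divergence maps the first onto the functions with total `0` in the second, with
kernel `Z T E`.
-/

namespace SYS.CO

open Classical SST GNH Part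

variable {D : Type}

private theorem dim_proj [Fintype D] (p : Submodule ℝ (D → ℝ)) (f : (D → ℝ) →ₗ[ℝ] (D → ℝ))
    (h : LinearMap.IsProj p f) : (Module.finrank ℝ p : ℝ) = ∑ d, f (Pi.single d 1) d := by
  rw [← h.trace, LinearMap.trace_eq_matrix_trace ℝ (Pi.basisFun ℝ D), Matrix.trace]
  refine Finset.sum_congr rfl fun d _ => ?_
  rw [Matrix.diag_apply, LinearMap.toMatrix_apply, Pi.basisFun_apply, Pi.basisFun_repr]

/-- antisymmetric functions which vanish off `E` -/
private def dimA (T : Tri D) (E : Set D) : Submodule ℝ (D → ℝ) where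
  carrier := {x | ASy T x ∧ ∀ d, d ∉ E → x d = 0}
  add_mem' := by
    rintro x y ⟨h1, h3⟩ ⟨h4, h6⟩
    refine ⟨h1.add h4, fun d hd => ?_⟩
    rw [Pi.add_apply, h3 d hd, h6 d hd, add_zero]
  zero_mem' := ⟨fun d => by rw [Pi.zero_apply, Pi.zero_apply, neg_zero], fun d _ => rfl⟩
  smul_mem' := by
    rintro s x ⟨h1, h3⟩
    refine ⟨fun d => ?_, fun d hd => ?_⟩
    · rw [Pi.smul_apply, Pi.smul_apply, h1 d, smul_neg]
    · rw [Pi.smul_apply, h3 d hd, smul_zero]

/-- face functions which vanish off `Y` -/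
private def dimM (T : Tri D) (Y : Set D) : Submodule ℝ (D → ℝ) where
  carrier := {x | (∀ d, x (T.f d) = x d) ∧ ∀ d, d ∉ Y → x d = 0}
  add_mem' := by
    rintro x y ⟨h1, h3⟩ ⟨h4, h6⟩
    refine ⟨fun d => ?_, fun d hd => ?_⟩
    · rw [Pi.add_apply, Pi.add_apply, h1 d, h4 d]
    · rw [Pi.add_apply, h3 d hd, h6 d hd, add_zero]
  zero_mem' := ⟨fun d => rfl, fun d _ => rfl⟩
  smul_mem' := by
    rintro s x ⟨h1, h3⟩
    refine ⟨fun d => ?_, fun d hd => ?_⟩
    · rw [Pi.smul_apply, Pi.smul_apply, h1 d]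
    · rw [Pi.smul_apply, h3 d hd, smul_zero]

private noncomputable def prA (T : Tri D) (E : Set D) : (D → ℝ) →ₗ[ℝ] (D → ℝ) where
  toFun x d := if d ∈ E then (x d - x (T.a d)) / 2 else 0
  map_add' x y := by
    funext d
    show (if d ∈ E then (x d + y d - (x (T.a d) + y (T.a d))) / 2 else 0) =
      (if d ∈ E then (x d - x (T.a d)) / 2 else 0) + (if d ∈ E then (y d - y (T.a d)) / 2 else 0)
    split_ifs <;> ring
  map_smul' s x := by
    funext d
    show (if d ∈ E then (s * x d - s * x (T.a d)) / 2 else 0) =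
      s * (if d ∈ E then (x d - x (T.a d)) / 2 else 0)
    split_ifs <;> ring

private noncomputable def prM (T : Tri D) (Y : Set D) : (D → ℝ) →ₗ[ℝ] (D → ℝ) where
  toFun x d := if d ∈ Y then (x d + x (T.f d) + x (T.f (T.f d))) / 3 else 0
  map_add' x y := by
    funext d
    show (if d ∈ Y then (x d + y d + (x (T.f d) + y (T.f d)) +
        (x (T.f (T.f d)) + y (T.f (T.f d)))) / 3 else 0) =
      (if d ∈ Y then (x d + x (T.f d) + x (T.f (T.f d))) / 3 else 0) +
      (if d ∈ Y then (y d + y (T.f d) + y (T.f (T.f d))) / 3 else 0)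
    split_ifs <;> ring
  map_smul' s x := by
    funext d
    show (if d ∈ Y then (s * x d + s * x (T.f d) + s * x (T.f (T.f d))) / 3 else 0) =
      s * (if d ∈ Y then (x d + x (T.f d) + x (T.f (T.f d))) / 3 else 0)
    split_ifs <;> ring

private theorem prA_apply (T : Tri D) (E : Set D) (x : D → ℝ) (d : D) :
    prA T E x d = if d ∈ E then (x d - x (T.a d)) / 2 else 0 := rfl

private theorem prM_apply (T : Tri D) (Y : Set D) (x : D → ℝ) (d : D) :
    prM T Y x d = if d ∈ Y then (x d + x (T.f d) + x (T.f (T.f d))) / 3 else 0 := rfl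

private theorem prA_proj {T : Tri D} {E : Set D} (hE : ∀ d, T.a d ∈ E ↔ d ∈ E) :
    LinearMap.IsProj (dimA T E) (prA T E) := by
  constructor
  · intro x
    refine ⟨fun d => ?_, fun d hd => ?_⟩
    · rw [prA_apply, prA_apply, T.aa]
      by_cases hd : d ∈ E
      · rw [if_pos hd, if_pos ((hE d).2 hd)]
        ring
      · rw [if_neg hd, if_neg fun h => hd ((hE d).1 h), neg_zero]
    · rw [prA_apply, if_neg hd]
  · rintro x ⟨h1, h2⟩
    funext d
    rw [prA_apply]
    by_cases hd : d ∈ E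
    · rw [if_pos hd, h1 d]
      ring
    · rw [if_neg hd, h2 d hd]

private theorem prM_proj {T : Tri D} {Y : Set D} (hY : ∀ d, T.f d ∈ Y ↔ d ∈ Y) :
    LinearMap.IsProj (dimM T Y) (prM T Y) := by
  constructor
  · intro x
    refine ⟨fun d => ?_, fun d hd => ?_⟩
    · rw [prM_apply, prM_apply, T.fff]
      by_cases hd : d ∈ Y
      · rw [if_pos hd, if_pos ((hY d).2 hd)]
        ring
      · rw [if_neg hd, if_neg fun h => hd ((hY d).1 h)]
    · rw [prM_apply, if_neg hd]
  · rintro x ⟨h1, h2⟩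
    funext d
    rw [prM_apply]
    by_cases hd : d ∈ Y
    · rw [if_pos hd, h1 (T.f d), h1 d]
      ring
    · rw [if_neg hd, h2 d hd]

private theorem dim_sum [Fintype D] (E : Set D) (r : ℝ) :
    ∑ d, (if d ∈ E then r else 0) = E.ncard * r := by
  rw [← Finset.sum_filter, Finset.sum_const, nsmul_eq_mul]
  congr 2
  rw [Set.ncard_eq_toFinset_card']
  congr 1
  ext d
  simp

private theorem finrank_A [Fintype D] {T : Tri D} {E : Set D} (hE : ∀ d, T.a d ∈ E ↔ d ∈ E) :
    2 * Module.finrank ℝ (dimA T E) = E.ncard := by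
  have h1 := dim_proj _ _ (prA_proj hE)
  have h2 : ∑ d, prA T E (Pi.single d 1) d = ∑ d, (if d ∈ E then (1 / 2 : ℝ) else 0) := by
    refine Finset.sum_congr rfl fun d _ => ?_
    rw [prA_apply, Pi.single_eq_same, Pi.single_eq_of_ne (T.ane d), sub_zero]
  rw [h2, dim_sum] at h1
  have h3 : (2 * Module.finrank ℝ (dimA T E) : ℝ) = E.ncard := by linarith
  exact_mod_cast h3

private theorem finrank_M [Fintype D] {T : Tri D} {Y : Set D} (hY : ∀ d, T.f d ∈ Y ↔ d ∈ Y) :
    3 * Module.finrank ℝ (dimM T Y) = Y.ncard := by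
  have h1 := dim_proj _ _ (prM_proj hY)
  have h2 : ∑ d, prM T Y (Pi.single d 1) d = ∑ d, (if d ∈ Y then (1 / 3 : ℝ) else 0) := by
    refine Finset.sum_congr rfl fun d _ => ?_
    have h3 : T.f (T.f d) ≠ d := by
      intro h
      have h4 := congrArg T.f h
      rw [T.fff] at h4
      exact T.fne d h4.symm
    rw [prM_apply, Pi.single_eq_same, Pi.single_eq_of_ne (T.fne d), Pi.single_eq_of_ne h3,
      add_zero, add_zero]
  rw [h2, dim_sum] at h1
  have h3 : (3 * Module.finrank ℝ (dimM T Y) : ℝ) = Y.ncard := by linarith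
  exact_mod_cast h3

/-- the divergence as a linear map -/
private def dvL (T : Tri D) : (D → ℝ) →ₗ[ℝ] (D → ℝ) where
  toFun x := dvg T x
  map_add' x y := by
    funext d
    show (x d + y d) + (x (T.f d) + y (T.f d)) + (x (T.f (T.f d)) + y (T.f (T.f d))) =
      (x d + x (T.f d) + x (T.f (T.f d))) + (y d + y (T.f d) + y (T.f (T.f d)))
    ring
  map_smul' s x := by
    funext d
    show s * x d + s * x (T.f d) + s * x (T.f (T.f d)) = s * (x d + x (T.f d) + x (T.f (T.f d)))
    ring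

/-- the total as a linear map -/
private def toL (D : Type) [Fintype D] : (D → ℝ) →ₗ[ℝ] ℝ where
  toFun x := ∑ d, x d
  map_add' x y := by
    simp only [Pi.add_apply, Finset.sum_add_distrib]
  map_smul' s x := by
    simp only [Pi.smul_apply, smul_eq_mul, RingHom.id_apply, Finset.mul_sum]

private theorem ker_part [Fintype D] {V : Type} [AddCommGroup V] [Module ℝ V] [FiniteDimensional ℝ V]
    (f : (D → ℝ) →ₗ[ℝ] V) (p : Submodule ℝ (D → ℝ)) :
    Module.finrank ℝ (Submodule.map f p) + Module.finrank ℝ (p ⊓ LinearMap.ker f : Submodule ℝ (D → ℝ)) =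
      Module.finrank ℝ p := by
  have h1 := LinearMap.finrank_range_add_finrank_ker (f.domRestrict p)
  have h2 : LinearMap.range (f.domRestrict p) = Submodule.map f p := by
    rw [LinearMap.domRestrict, LinearMap.range_comp, Submodule.range_subtype]
  have h3 : (LinearMap.ker (f.domRestrict p)).map p.subtype = p ⊓ LinearMap.ker f := by
    rw [LinearMap.domRestrict, LinearMap.ker_comp, Submodule.map_comap_subtype]
  rw [h2, ← Submodule.finrank_map_subtype_eq p (LinearMap.ker (f.domRestrict p)), h3] at h1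
  exact h1

theorem dim_Z [Finite D] {T : Tri D} {E Y : Set D} (hE : ∀ d, T.a d ∈ E ↔ d ∈ E) (hY : ∀ d, T.f d ∈ Y ↔ d ∈ Y)
    (hs : E ⊆ Y) (hne : Y.Nonempty) (hc : ∀ d ∈ Y, ∀ e ∈ Y, Lk T E d e) :
    6 * Module.finrank ℝ (Z T E) + 2 * Y.ncard = 3 * E.ncard + 6 := by
  have : Fintype D := Fintype.ofFinite D
  have hA := finrank_A hE
  have hM := finrank_M hY
  have h1 := ker_part (dvL T) (dimA T E)
  have h2 := ker_part (toL D) (dimM T Y)
  have h3 : dimA T E ⊓ LinearMap.ker (dvL T) = Z T E := by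
    ext x
    rw [Submodule.mem_inf, LinearMap.mem_ker, mem_Z, isCoc_iff]
    constructor
    · rintro ⟨⟨h3, h4⟩, h5⟩
      exact ⟨⟨h3, fun d => congrFun h5 d⟩, h4⟩
    · rintro ⟨⟨h3, h4⟩, h5⟩
      exact ⟨⟨h3, h5⟩, funext h4⟩
  have h4 : Submodule.map (dvL T) (dimA T E) = dimM T Y ⊓ LinearMap.ker (toL D) := by
    ext m
    rw [Submodule.mem_map, Submodule.mem_inf, LinearMap.mem_ker]
    constructor
    · rintro ⟨x, ⟨h5, h6⟩, rfl⟩
      refine ⟨⟨fun d => dvg_f T x d, fun d hd => ?_⟩, sum_dvg h5⟩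
      have h7 : ∀ c, c ∉ Y → x c = 0 := fun c hc' => h6 c fun h => hc' (hs h)
      have h8 : T.f d ∉ Y := fun h => hd ((hY d).1 h)
      have h9 : T.f (T.f d) ∉ Y := fun h => h8 ((hY _).1 h)
      show x d + x (T.f d) + x (T.f (T.f d)) = 0
      rw [h7 _ hd, h7 _ h8, h7 _ h9, add_zero, add_zero]
    · rintro ⟨⟨h5, h6⟩, h7⟩
      obtain ⟨w, hw1, hw2, hw3⟩ := set_flow hE hc h5 h6 h7
      exact ⟨w, ⟨hw1, hw2⟩, funext hw3⟩
  have h5 : Submodule.map (toL D) (dimM T Y) = ⊤ := by
    rw [eq_top_iff]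
    rintro r -
    have h6 : (Y.ncard : ℝ) ≠ 0 := by
      rw [Nat.cast_ne_zero]
      exact (Set.ncard_pos (Set.toFinite Y)).2 hne |>.ne'
    refine ⟨fun d => if d ∈ Y then r / Y.ncard else 0, ⟨fun d => ?_, fun d hd => if_neg hd⟩, ?_⟩
    · show (if T.f d ∈ Y then r / (Y.ncard : ℝ) else 0) = if d ∈ Y then r / (Y.ncard : ℝ) else 0
      exact if_congr (hY d) rfl rfl
    · show ∑ d, (if d ∈ Y then r / (Y.ncard : ℝ) else 0) = r
      rw [dim_sum]
      field_simp
  rw [h3, h4] at h1
  rw [h5, finrank_top, Module.finrank_self] at h2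
  omega

theorem dim_reg [Finite D] {T : Tri D} {X : Part D} (h : X.Le T) (hc : X.Con) (hne : X.R.Nonempty) :
    6 * Module.finrank ℝ (Z T (rev X)) + 3 * X.B.ncard = X.R.ncard + 6 := by
  have hf : ∀ d, T.f d ∈ X.R ↔ d ∈ X.R := by
    have h0 : ∀ d ∈ X.R, T.f d ∈ X.R := by
      intro d hd
      rw [h.1 d hd]
      exact (mem_R_f X d).2 hd
    intro d
    refine ⟨fun h1 => ?_, h0 d⟩
    have h2 := h0 _ (h0 _ h1)
    rw [T.fff] at h2
    exact h2
  have h1 := dim_Z (rev_a h) hf (fun d hd => (mem_rev.1 hd).1) hne ((con_lk h).1 hc)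
  have h2 : rev X ∪ X.B = X.R := by
    ext d
    rw [Set.mem_union, mem_rev]
    constructor
    · rintro (h3 | h3)
      · exact h3.1
      · exact h3.1
    · intro h3
      by_cases h4 : d ∈ X.B
      · exact Or.inr h4
      · exact Or.inl ⟨h3, h4⟩
  have h3 : Disjoint (rev X) X.B := by
    rw [Set.disjoint_left]
    intro d hd
    exact (mem_rev.1 hd).2
  have h4 := Set.ncard_union_eq h3 (Set.toFinite _) (Set.toFinite _)
  rw [h2] at h4
  omega

end SYS.CO
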