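import Pool.Agent.SYS.CO.Bas

/-!
# SYSS-COH-DimB: dimension of the space of coboundaries which vanish off `E`
-/

namespace SYS.CO

open Classical SST GNH Part

variable {D : Type}

private abbrev QQ (T : Tri D) (E : Set D) : Type :=
  Quotient (Relation.EqvGen.setoid (fun d e : D => e = T.s d ∨ (d ∉ E ∧ e = T.a d)))

private def cls (T : Tri D) (E : Set D) (d : D) : QQ T E := Quotient.mk _ d

private theorem cls_s (T : Tri D) (E : Set D) (d : D) : cls T E (T.s d) = cls T E d := by
  have h : Relation.EqvGen (fun d e : D => e = T.s d ∨ (d ∉ E ∧ e = T.a d)) d (T.s d) :=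
    Relation.EqvGen.rel _ _ (Or.inl rfl)
  exact (Quotient.sound h).symm

private theorem cls_a (T : Tri D) {E : Set D} {d : D} (h : d ∉ E) : cls T E (T.a d) = cls T E d := by
  have h' : Relation.EqvGen (fun d e : D => e = T.s d ∨ (d ∉ E ∧ e = T.a d)) d (T.a d) :=
    Relation.EqvGen.rel _ _ (Or.inr ⟨h, rfl⟩)
  exact (Quotient.sound h').symm

private theorem cls_f (T : Tri D) (E : Set D) (d : D) : cls T E (T.f d) = cls T E (T.a d) := by
  rw [← T.s_a, cls_s]

private theorem cls_zpow (T : Tri D) (E : Set D) (k : ℤ) : ∀ d : D, cls T E ((T.s ^ k) d) = cls T E d := by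
  induction k using Int.induction_on with
  | zero =>
    intro d
    rw [zpow_zero, Equiv.Perm.one_apply]
  | succ i ih =>
    intro d
    rw [zpow_add_one, Equiv.Perm.mul_apply, ih, cls_s]
  | pred i ih =>
    intro d
    rw [zpow_sub_one, Equiv.Perm.mul_apply, ih, ← cls_s T E (T.s⁻¹ d), ← Equiv.Perm.mul_apply,
      mul_inv_cancel, Equiv.Perm.one_apply]

private theorem cls_tl (T : Tri D) (E : Set D) {d e : D} (h : T.tl d = T.tl e) : cls T E d = cls T E e := by
  obtain ⟨k, hk⟩ := (T.tl_eq_iff d e).1 h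
  rw [← hk, cls_zpow]

private def Phi (T : Tri D) (E : Set D) : (QQ T E → ℝ) →ₗ[ℝ] (D → ℝ) where
  toFun g d := g (cls T E (T.a d)) - g (cls T E d)
  map_add' g g' := by
    ext d
    simp only [Pi.add_apply]
    ring
  map_smul' s g := by
    ext d
    simp only [Pi.smul_apply, smul_eq_mul, RingHom.id_apply]
    ring

private theorem Phi_apply (T : Tri D) (E : Set D) (g : QQ T E → ℝ) (d : D) :
    Phi T E g d = g (cls T E (T.a d)) - g (cls T E d) := rfl

private theorem range_Phi (T : Tri D) (E : Set D) : LinearMap.range (Phi T E) = Z T E ⊓ Bd T := by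
  apply le_antisymm
  · rintro x ⟨g, rfl⟩
    refine ⟨⟨⟨fun d => ?_, fun d => ?_⟩, fun d hd => ?_⟩, ?_⟩
    · rw [Phi_apply, Phi_apply, T.aa]
      ring
    · rw [Phi_apply, Phi_apply, Phi_apply, ← cls_f, ← cls_f, ← cls_f, T.fff]
      ring
    · rw [Phi_apply, cls_a T hd, sub_self]
    · refine ⟨Quotient.lift (s := Equiv.Perm.SameCycle.setoid T.s) (fun d => g (cls T E d))
        (fun d e hde => congrArg g (cls_tl T E (Quotient.sound hde))), fun d => ?_⟩
      rfl
  · rintro x ⟨⟨_, h2⟩, ⟨h, hh⟩⟩
    have key : ∀ d e : D, Relation.EqvGen (fun d e : D => e = T.s d ∨ (d ∉ E ∧ e = T.a d)) d e →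
        h (T.tl d) = h (T.tl e) := by
      intro d e hde
      induction hde with
      | rel d e hde =>
        rcases hde with h3 | ⟨h3, h4⟩
        · rw [h3, T.tl_s]
        · have h5 := h2 d h3
          rw [hh d] at h5
          rw [h4]
          exact (sub_eq_zero.1 h5).symm
      | refl d => rfl
      | symm d e _ ih => exact ih.symm
      | trans d e k _ _ ih ih' => exact ih.trans ih'
    refine ⟨Quotient.lift (fun d => h (T.tl d)) key, ?_⟩
    ext d
    rw [Phi_apply, hh d]
    rfl

private theorem ker_Phi {T : Tri D} (hT : T.Conn) (E : Set D) (d0 : D) :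
    LinearMap.ker (Phi T E) = Submodule.span ℝ {fun _ => (1 : ℝ)} := by
  apply le_antisymm
  · intro g hg
    rw [LinearMap.mem_ker] at hg
    have h1 : ∀ d, g (cls T E (T.a d)) = g (cls T E d) := by
      intro d
      have h2 := congrFun hg d
      rw [Phi_apply, Pi.zero_apply] at h2
      exact sub_eq_zero.1 h2
    have h3 := hT {d | g (cls T E d) = g (cls T E d0)} ⟨d0, rfl⟩ (by
      intro d hd
      have hd' : g (cls T E d) = g (cls T E d0) := hd
      refine ⟨?_, ?_⟩
      · show g (cls T E (T.a d)) = g (cls T E d0)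
        rw [h1, hd']
      · show g (cls T E (T.f d)) = g (cls T E d0)
        rw [cls_f, h1, hd'])
    rw [Submodule.mem_span_singleton]
    refine ⟨g (cls T E d0), ?_⟩
    ext q
    obtain ⟨d, rfl⟩ := Quotient.exists_rep q
    have h4 : d ∈ {d | g (cls T E d) = g (cls T E d0)} := by
      rw [h3]
      exact Set.mem_univ d
    have h5 : g (cls T E d) = g (cls T E d0) := h4
    rw [Pi.smul_apply, smul_eq_mul, mul_one]
    exact h5.symm
  · rw [Submodule.span_singleton_le_iff_mem, LinearMap.mem_ker]
    ext d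
    rw [Phi_apply, Pi.zero_apply, sub_self]

theorem dim_B [Finite D] {T : Tri D} (hT : T.Conn) [Nonempty D] (E : Set D) :
    Module.finrank ℝ (Z T E ⊓ Bd T : Submodule ℝ (D → ℝ)) + 1 = ncl T E := by
  obtain ⟨d0⟩ := (inferInstance : Nonempty D)
  have : Finite (QQ T E) := Quotient.finite _
  have : Fintype (QQ T E) := Fintype.ofFinite _
  have h1 := LinearMap.finrank_range_add_finrank_ker (Phi T E)
  have h2 : Module.finrank ℝ (LinearMap.ker (Phi T E)) = 1 := by
    rw [ker_Phi hT E d0]
    apply finrank_span_singleton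
    intro h3
    have h4 := congrFun h3 (cls T E d0)
    exact one_ne_zero h4
  rw [range_Phi, h2, Module.finrank_pi] at h1
  rw [h1]
  unfold ncl
  rw [Nat.card_eq_fintype_card]

theorem rk_add [Finite D] (T : Tri D) (E : Set D) :
    rk T E + Module.finrank ℝ (Z T E ⊓ Bd T : Submodule ℝ (D → ℝ)) = Module.finrank ℝ (Z T E) := by
  have h1 := LinearMap.finrank_range_add_finrank_ker ((Bd T).mkQ.domRestrict (Z T E))
  rw [LinearMap.range_domRestrict] at h1
  have h2 : LinearMap.ker ((Bd T).mkQ.domRestrict (Z T E)) = (Bd T).comap (Z T E).subtype := by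
    ext x
    rw [LinearMap.mem_ker, LinearMap.domRestrict_apply, Submodule.mkQ_apply,
      Submodule.Quotient.mk_eq_zero, Submodule.mem_comap]
    rfl
  have h3 : Module.finrank ℝ ((Bd T).comap (Z T E).subtype) =
      Module.finrank ℝ (Z T E ⊓ Bd T : Submodule ℝ (D → ℝ)) := by
    rw [← Submodule.map_comap_subtype]
    exact (Submodule.finrank_map_subtype_eq _ _).symm
  rw [h2, h3] at h1
  exact h1

end SYS.CO
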