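import Pool.Agent.SYS.CO.Sid
import Pool.Agent.SYS.UT.HandC
import Pool.Agent.SYS.UT.SepH

/-!
# SYSS-COH-Ess: the boundary walk of a region with one hole and genus on both sides is essential

PLAN.  `ess_one`: `S.HConn T` (`hconn_one`), `OneH`; `gen12_oneH`: `rk > 0`, `area_ne` gives `y1, y2`; `S.fill T h z = ofTri T`
(`fill_R`: everything, as `S.X = S.HC T z`; `fill_B` empty; `fill_le`; `Part.ext'`), so `handle_coc` gives `w1, w2, q1, q2`.
`sep_hol` with `z'` in `rev S` (nonempty as `y1 /= 0`): `S.HC T z'` is empty and `Hc T z z'` is false by `hc_mem` (`z'` is not in `S.X`).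
`ess_reg`: `exists_side`, `ess_one` for `oth X T h z` (`gen12` is monotone: `gen12_mono, gen12_nonneg, oth_sub`), `oth_hw`, `null_hole` for `X`,
`Flat.nullHtp`; the length of `X.hw z` is at most `|X.B|` (`hw_length`, `per`).
`ess_face`: `ess_reg` for `cut T Y h` (`cut_B, cut_R, con_cut, cut_le`).
-/

namespace SYS.CO

open Classical SST GNH Part

variable {D : Type} [Fintype D]

private theorem fill_all {T : Tri D} {S : Part D} (h : S.Le T) {z : D} (hX : ∀ d ∈ S.X, S.Hc T z d) :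
    S.fill T h z = ofTri T := by
  have hR : (S.fill T h z).R = Set.univ := by
    rw [fill_R]
    ext d
    refine ⟨fun _ => Set.mem_univ _, fun _ => ?_⟩
    by_cases hd : d ∈ S.R
    · exact Or.inl hd
    · exact Or.inr ⟨Or.inl hd, hX d (Or.inl hd)⟩
  have hB : (S.fill T h z).B = ∅ := by
    rw [fill_B]
    ext d
    refine ⟨fun hd => absurd ⟨Or.inr hd.1, hX d (Or.inr hd.1)⟩ hd.2, fun hd => absurd hd (Set.notMem_empty d)⟩
  have hle := fill_le h z
  have hd : ∀ d, d ∈ (S.fill T h z).R := fun d => by rw [hR]; exact Set.mem_univ d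
  have hd' : ∀ d, (S.fill T h z).a d ≠ d := fun d h1 => by
    have h2 : d ∈ (S.fill T h z).B := ⟨hd d, h1⟩
    rw [hB] at h2
    exact h2
  refine ext' (Equiv.ext fun d => ?_) (Equiv.ext fun d => ?_)
  · exact (hle.2 d (hd' d)).symm
  · exact (hle.1 d (hd d)).symm

theorem ess_one {T : Tri D} (hT : T.Conn) {S : Part D} (h : S.Le T) (hS : S.Con) {z : D} (hz : z ∈ S.B)
    (h1 : ∀ d ∈ S.B, d ∈ S.hw z) (hg0 : S.gen12 ≠ 0) (hg : S.gen12 ≠ (ofTri T).gen12) :
    ∃ l : D → Hs, Flat T l ∧ hol l (S.hw z) ≠ 1 := by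
  have hne : S.R.Nonempty := ⟨z, hz.1⟩
  have hcyc : ∀ d ∈ S.B, S.s.SameCycle z d := fun d hd => ((mem_hw S hz).1 (h1 d hd)).2
  have hone : OneH S T := fun x hx d hd _ => (hcyc x hx).symm.trans (hcyc d hd)
  have hrk := gen12_oneH hT h hS hne hone
  have hr : 0 < rk T (rev S) := by
    rcases Nat.eq_zero_or_pos (rk T (rev S)) with h2 | h2
    · rw [h2] at hrk
      exact absurd (by simpa using hrk) hg0
    · exact h2
  obtain ⟨y1, hy1, y2, hy2, hyA⟩ := area_ne hT h hone hr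
  have hhc : S.HConn T := hconn_one h hT hz h1
  have hzX : z ∈ S.X := Or.inr hz
  have hf : S.fill T h z = ofTri T := fill_all h fun d hd => hhc z hzX d hd
  obtain ⟨w1, w2, q1, q2, hw1, hw2, hq1, hq2, hg1, hg2, h01, h02, hzz, hwA⟩ :=
    handle_coc hT h hS hz (fun d hd _ => h1 d hd) (by rw [hf]; exact hg.symm)
  obtain ⟨z', hz'⟩ : ∃ z', y1 z' ≠ 0 := by
    by_contra hcon
    have h2 : ∀ d, y1 d = 0 := fun d => by
      by_contra h3
      exact hcon ⟨d, h3⟩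
    apply hyA
    unfold SST.Tri.Area
    refine Finset.sum_eq_zero fun d _ => ?_
    rw [h2, h2, zero_mul, zero_mul, sub_zero]
  have hz'r : z' ∈ rev S := by
    by_contra h2
    exact hz' (hy1.2 z' h2)
  have hz'X : z' ∉ S.X := by
    rw [mem_rev] at hz'r
    rintro (h2 | h2)
    · exact h2 hz'r.1
    · exact hz'r.2 h2
  have hHC : ∀ d, d ∉ S.HC T z' := fun d hd => hz'X ((hc_mem h hd.2).2 hd.1)
  refine sep_hol hT h hz (z' := z') (fun h2 => hz'X ((hc_mem h h2).1 hzX))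
    (fun d hd => Or.inl (hc_hole hz (h1 d hd))) (fun d hd _ => h1 d hd) hy1.1 hy2.1 ?_ ?_ hyA hw1 hw2
    hq1 hq2 hg1 hg2 h01 h02 (fun d hd => absurd hd (hHC d)) (fun d hd => absurd hd (hHC d)) hwA
  · intro d hd
    left
    rw [← mem_rev]
    by_contra h2
    exact hd (hy1.2 d h2)
  · intro d hd
    left
    rw [← mem_rev]
    by_contra h2
    exact hd (hy2.2 d h2)

theorem ess_reg {T : Tri D} (hT : T.Conn) {X : Part D} (h : X.Le T) (hc : X.Con) (hne : X.R.Nonempty)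
    (h1 : OneH X T) (hg0 : X.gen12 ≠ 0) (hg : X.gen12 ≠ (ofTri T).gen12) :
    ∃ z ∈ X.B, T.Closed (X.hw z) ∧ T.NullHom (X.hw z) ∧ ¬ T.NullHtp (X.hw z) ∧
      (X.hw z).length ≤ X.B.ncard ∧ (oth X T h z).gen12 ≠ (ofTri T).gen12 := by
  obtain ⟨z, hz, hoth⟩ := exists_side hT h hc hne h1 hg
  have hzHC : z ∈ X.HC T z := ⟨Or.inr hz, hc_refl X T z⟩
  have hzB : z ∈ (oth X T h z).B := by
    rw [oth_B]
    exact ⟨hz, hzHC⟩
  have hhw := oth_hw h z hz hzHC
  have hall : ∀ d ∈ (oth X T h z).B, d ∈ (oth X T h z).hw z := by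
    intro d hd
    rw [oth_B] at hd
    rw [hhw, mem_hw X hz]
    exact ⟨hd.1, h1 z hz d hd.1 hd.2.2⟩
  have hg1 : (oth X T h z).gen12 ≠ 0 := by
    have h2 := gen12_mono (oth_sub h z)
    have h3 := gen12_nonneg X
    intro h4
    rw [h4] at h2
    exact hg0 (le_antisymm h2 h3)
  obtain ⟨l, hl, hl'⟩ := ess_one hT (oth_le h z) (oth_con h z hT hc hne) hzB hall hg1 hoth
  rw [hhw] at hl'
  obtain ⟨hcl, hnh⟩ := null_hole h hz (fun d hd => h1 z hz d hd)
  refine ⟨z, hz, hcl, hnh, fun hcon => hl' (hl.nullHtp hcon), ?_, hoth⟩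
  rw [hw_length X hz]
  exact Set.ncard_le_ncard (fun d hd => hd.1) (Set.toFinite _)

theorem ess_face {T : Tri D} (hT : T.Conn) {Y : Set D} (h : XP.Fs T Y) (hc : XP.DC T Y) (hne : Y.Nonempty)
    (h1 : OneH (XP.cut T Y h) T) (hg0 : (XP.cut T Y h).gen12 ≠ 0)
    (hg : (XP.cut T Y h).gen12 ≠ (ofTri T).gen12) :
    ∃ c : List D, T.Closed c ∧ T.NullHom c ∧ ¬ T.NullHtp c ∧ c.length ≤ (XP.bdy T Y).ncard := by
  obtain ⟨z, _, h2, h3, h4, h5, _⟩ := ess_reg hT (XP.cut_le T Y h) (con_cut h hc)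
    (by rw [XP.cut_R]; exact hne) h1 hg0 hg
  rw [XP.cut_B] at h5
  exact ⟨_, h2, h3, h4, h5⟩

end SYS.CO
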