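import Pool.Agent.SYS.CO.Bas

/-!
# SYSS-COH-Flw: flows along linked faces

The flow along one edge, induction along links, then the combination as in `SYS/UT/Flow.lean`.
-/

namespace SYS.CO

open Classical SST GNH Part

variable {D : Type}

private theorem fw_f2_ne (T : Tri D) (d : D) : T.f (T.f d) ≠ d := by
  intro h
  have h1 := congrArg T.f h
  rw [T.fff] at h1
  exact T.fne d h1.symm

private theorem fw_f_iff (T : Tri D) (c d : D) : T.f c = d ↔ c = T.f (T.f d) := by
  constructor
  · rintro rfl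
    rw [T.fff]
  · rintro rfl
    rw [T.fff]

private theorem fw_ff_iff (T : Tri D) (c d : D) : T.f (T.f c) = d ↔ c = T.f d := by
  constructor
  · rintro rfl
    rw [T.fff]
  · rintro rfl
    rw [T.fff]

private theorem fw_fci_sum (T : Tri D) (d c : D) : fci T d c =
    (if c = d then 1 else 0) + (if c = T.f d then 1 else 0) + (if c = T.f (T.f d) then 1 else 0) := by
  unfold fci
  by_cases h1 : c = d
  · subst h1
    rw [if_pos (Or.inl rfl), if_pos rfl, if_neg (T.fne c).symm, if_neg (fw_f2_ne T c).symm]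
    ring
  · by_cases h2 : c = T.f d
    · subst h2
      rw [if_pos (Or.inr (Or.inl rfl)), if_neg h1, if_pos rfl, if_neg (T.fne _).symm]
      ring
    · by_cases h3 : c = T.f (T.f d)
      · rw [if_pos (Or.inr (Or.inr h3)), if_neg h1, if_neg h2, if_pos h3]
        ring
      · rw [if_neg (by rintro (h | h | h) <;> contradiction), if_neg h1, if_neg h2, if_neg h3]
        ring

private theorem fw_fci_symm (T : Tri D) (d c : D) : fci T d c = fci T c d := by
  unfold fci
  refine if_congr ?_ rfl rfl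
  constructor
  · rintro (h | h | h)
    · exact Or.inl h.symm
    · exact Or.inr (Or.inr ((fw_f_iff T d c).1 h.symm))
    · exact Or.inr (Or.inl ((fw_ff_iff T d c).1 h.symm))
  · rintro (h | h | h)
    · exact Or.inl h.symm
    · exact Or.inr (Or.inr ((fw_f_iff T c d).1 h.symm))
    · exact Or.inr (Or.inl ((fw_ff_iff T c d).1 h.symm))

private theorem fw_fci_f (T : Tri D) (d c : D) : fci T (T.f d) c = fci T d c := by
  rw [fw_fci_sum, fw_fci_sum, T.fff]
  ring

/-- the flow through one edge -/
private noncomputable def fw_ev (x y : D) (c : D) : ℝ :=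
  (if c = x then 1 else 0) - (if c = y then 1 else 0)

private theorem fw_dvg_ev (T : Tri D) (x y c : D) :
    dvg T (fw_ev x y) c = fci T x c - fci T y c := by
  have h : ∀ z : D, (if c = z then (1 : ℝ) else 0) + (if T.f c = z then 1 else 0) +
      (if T.f (T.f c) = z then 1 else 0) = fci T z c := by
    intro z
    rw [fw_fci_sum]
    simp only [fw_f_iff T c z, fw_ff_iff T c z]
    ring
  rw [← h x, ← h y]
  unfold dvg fw_ev
  ring

private theorem fw_dvg_zero (T : Tri D) (c : D) : dvg T (fun _ => 0) c = 0 := by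
  unfold dvg
  ring

theorem lk_flow {T : Tri D} {E : Set D} (hE : ∀ d, T.a d ∈ E ↔ d ∈ E) {d e : D} (h : Lk T E d e) :
    ∃ w : D → ℝ, ASy T w ∧ (∀ c, c ∉ E → w c = 0) ∧ ∀ c, dvg T w c = fci T d c - fci T e c := by
  refine lk_ind (T := T) (E := E) (fun d e => ∃ w : D → ℝ, ASy T w ∧ (∀ c, c ∉ E → w c = 0) ∧
    ∀ c, dvg T w c = fci T d c - fci T e c) ?_ ?_ ?_ ?_ ?_ h
  · intro d
    exact ⟨fun _ => 0, fun _ => neg_zero.symm, fun _ _ => rfl, fun c => by rw [fw_dvg_zero, sub_self]⟩
  · rintro d e ⟨w, h1, h2, h3⟩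
    refine ⟨fun c => -w c, fun c => ?_, fun c hc => ?_, fun c => ?_⟩
    · show -w (T.a c) = - -w c
      rw [h1 c]
    · show -w c = 0
      rw [h2 c hc, neg_zero]
    · have h4 : dvg T (fun c => -w c) c = -dvg T w c := by
        unfold dvg
        ring
      rw [h4, h3 c]
      ring
  · rintro d e k ⟨w, h1, h2, h3⟩ ⟨w', h1', h2', h3'⟩
    refine ⟨fun c => w c + w' c, h1.add h1', fun c hc => ?_, fun c => ?_⟩
    · show w c + w' c = 0
      rw [h2 c hc, h2' c hc, add_zero]
    · rw [dvg_add, h3, h3']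
      ring
  · intro d
    exact ⟨fun _ => 0, fun _ => neg_zero.symm, fun _ _ => rfl,
      fun c => by rw [fw_dvg_zero, fw_fci_f, sub_self]⟩
  · intro d hd
    refine ⟨fw_ev d (T.a d), fun c => ?_, fun c hc => ?_, fun c => fw_dvg_ev T d (T.a d) c⟩
    · have e1 : T.a c = d ↔ c = T.a d := by
        constructor
        · rintro rfl
          rw [T.aa]
        · rintro rfl
          rw [T.aa]
      have e2 : T.a c = T.a d ↔ c = d := T.a.injective.eq_iff
      unfold fw_ev
      simp only [e1, e2]
      ring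
    · have h1 : c ≠ d := by
        rintro rfl
        exact hc hd
      have h2 : c ≠ T.a d := by
        rintro rfl
        exact hc ((hE d).2 hd)
      unfold fw_ev
      rw [if_neg h1, if_neg h2, sub_zero]

/-- Every divergence with total `0` on a set of linked faces is the divergence of a flow in `E`. -/
theorem set_flow [Fintype D] {T : Tri D} {E Y : Set D} (hE : ∀ d, T.a d ∈ E ↔ d ∈ E)
    (hY : ∀ d ∈ Y, ∀ e ∈ Y, Lk T E d e) {m : D → ℝ} (hm : ∀ d, m (T.f d) = m d) (h1 : ∀ d, d ∉ Y → m d = 0)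
    (h0 : ∑ d, m d = 0) :
    ∃ w : D → ℝ, ASy T w ∧ (∀ c, c ∉ E → w c = 0) ∧ ∀ d, dvg T w d = m d := by
  by_cases hne : ∃ d₀, d₀ ∈ Y
  · obtain ⟨d₀, hd₀⟩ := hne
    have hex : ∀ d, ∃ w : D → ℝ, ASy T w ∧ (∀ c, c ∉ E → w c = 0) ∧
        (d ∈ Y → ∀ c, dvg T w c = fci T d c - fci T d₀ c) := by
      intro d
      by_cases hd : d ∈ Y
      · obtain ⟨w, hw1, hw2, hw3⟩ := lk_flow hE (hY d hd d₀ hd₀)
        exact ⟨w, hw1, hw2, fun _ => hw3⟩
      · exact ⟨fun _ => 0, fun _ => neg_zero.symm, fun _ _ => rfl, fun h' => absurd h' hd⟩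
    choose W hW1 hW2 hW3 using hex
    refine ⟨fun c => 1 / 3 * ∑ d, m d * W d c, ?_, ?_, ?_⟩
    · intro c
      show 1 / 3 * ∑ d, m d * W d (T.a c) = -(1 / 3 * ∑ d, m d * W d c)
      have h2 : ∑ d, m d * W d (T.a c) = -∑ d, m d * W d c := by
        rw [← Finset.sum_neg_distrib]
        refine Finset.sum_congr rfl fun d _ => ?_
        rw [hW1 d c]
        ring
      rw [h2]
      ring
    · intro c hc
      show 1 / 3 * ∑ d, m d * W d c = 0
      rw [Finset.sum_eq_zero fun d _ => by rw [hW2 d c hc, mul_zero], mul_zero]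
    · intro c
      have h2 : dvg T (fun c => 1 / 3 * ∑ d, m d * W d c) c = 1 / 3 * ∑ d, m d * dvg T (W d) c := by
        unfold dvg
        simp only [mul_add, Finset.sum_add_distrib]
      have h3 : ∑ d, m d * dvg T (W d) c = ∑ d, m d * fci T c d := by
        have h4 : ∀ d, m d * dvg T (W d) c = m d * fci T c d - m d * fci T d₀ c := by
          intro d
          by_cases hd : d ∈ Y
          · rw [hW3 d hd c, fw_fci_symm T d c]
            ring
          · rw [h1 d hd]
            ring
        rw [Finset.sum_congr rfl fun d _ => h4 d, Finset.sum_sub_distrib, ← Finset.sum_mul, h0,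
          zero_mul, sub_zero]
      have h5 : ∑ d, m d * fci T c d = m c + m (T.f c) + m (T.f (T.f c)) := by
        have h6 : ∀ d, m d * fci T c d = (if d = c then m d else 0) +
            (if d = T.f c then m d else 0) + (if d = T.f (T.f c) then m d else 0) := by
          intro d
          rw [fw_fci_sum]
          simp only [mul_add, mul_ite, mul_one, mul_zero]
        rw [Finset.sum_congr rfl fun d _ => h6 d, Finset.sum_add_distrib, Finset.sum_add_distrib,
          Finset.sum_ite_eq', Finset.sum_ite_eq', Finset.sum_ite_eq', if_pos (Finset.mem_univ _),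
          if_pos (Finset.mem_univ _), if_pos (Finset.mem_univ _)]
      rw [h2, h3, h5, hm (T.f c), hm c]
      ring
  · push Not at hne
    refine ⟨fun _ => 0, fun _ => neg_zero.symm, fun _ _ => rfl, fun d => ?_⟩
    rw [h1 d (hne d), fw_dvg_zero]

/-- The total divergence is `0`. -/
theorem sum_dvg [Fintype D] {T : Tri D} {w : D → ℝ} (h : ASy T w) : ∑ d, dvg T w d = 0 := by
  have h1 : ∑ d, w (T.f d) = ∑ d, w d := Equiv.sum_comp T.f w
  have h2 : ∑ d, w (T.f (T.f d)) = ∑ d, w d :=
    (Equiv.sum_comp T.f (fun d => w (T.f d))).trans h1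
  have h3 : ∑ d, w (T.a d) = ∑ d, w d := Equiv.sum_comp T.a w
  have h4 : ∑ d, w (T.a d) = -∑ d, w d := by
    rw [← Finset.sum_neg_distrib]
    exact Finset.sum_congr rfl fun d _ => h d
  unfold dvg
  rw [Finset.sum_add_distrib, Finset.sum_add_distrib, h1, h2]
  linarith

end SYS.CO
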