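import Pool.Agent.SYS.CO.Bas
import Pool.Agent.SST.D.Om
import Pool.Agent.SST.D.Lift

/-!
# SYSS-COH-Ndg: the intersection form `T.Area` is nondegenerate modulo coboundaries
-/

namespace SYS.CO

open Classical SST GNH Part

variable {D : Type} [Fintype D]

theorem om_pair {T : Tri D} {h h' : D → ℝ} (hh : T.InH h) (hh' : T.InH h') :
    T.Om h h' = ∑ d, T.xx h d * T.zz h' d := by
  rw [T.Om_z hh hh']
  have h1 : ∑ d, h (T.a d) * T.zz h' d = -∑ d, h d * T.zz h' d := by
    rw [← Equiv.sum_comp T.a (fun d => h d * T.zz h' d), ← Finset.sum_neg_distrib]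
    refine Finset.sum_congr rfl fun d _ => ?_
    rw [T.zz_anti hh' d]
    ring
  have h2 : ∀ d, (h d + h (T.s d)) * T.zz h' d =
      h d * T.zz h' d + h (T.a d) * T.zz h' d - T.xx h d * T.zz h' d := by
    intro d
    have h3 : T.xx h d = h (T.f d) - h d := rfl
    have h4 := hh d
    have h5 : h (T.s d) = h (T.a d) - T.xx h d := by
      rw [h3]
      linarith
    rw [h5]
    ring
  rw [Finset.sum_congr rfl fun d _ => h2 d, Finset.sum_sub_distrib, Finset.sum_add_distrib, h1]
  ring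

private theorem ind_sum (T : Tri D) (e : D) (p : T.V) :
    ∑ d with T.tl d = p, ((Tri.ind e d : ℤ) : ℝ) = if T.tl e = p then 1 else 0 := by
  rw [Finset.sum_filter]
  have h1 : ∀ d, (if T.tl d = p then ((Tri.ind e d : ℤ) : ℝ) else 0) =
      if d = e then (if T.tl e = p then 1 else 0) else 0 := by
    intro d
    by_cases hd : d = e
    · subst hd
      rw [if_pos rfl, Tri.ind_self, Int.cast_one]
    · rw [if_neg hd, Tri.ind_ne (Ne.symm hd), Int.cast_zero, ite_self]
  rw [Finset.sum_congr rfl fun d _ => h1 d, Finset.sum_ite_eq' Finset.univ e,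
    if_pos (Finset.mem_univ e)]

private theorem walk_sum (T : Tri D) (p : T.V) : ∀ (c : List D) (u v : T.V), T.IsWalk u c v →
    ∑ d with T.tl d = p, ((T.chain c d : ℤ) : ℝ) =
      (if u = p then 1 else 0) - if v = p then 1 else 0 := by
  intro c
  induction c with
  | nil =>
    intro u v h
    have h1 : u = v := h
    subst h1
    rw [sub_self]
    exact Finset.sum_eq_zero fun d _ => by rw [Tri.chain_nil, Int.cast_zero]
  | cons e c ih =>
    intro u v h
    have h1 : T.tl e = u := h.1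
    have h2 := ih _ _ h.2
    have h3 : ∀ d, ((T.chain (e :: c) d : ℤ) : ℝ) =
        ((Tri.ind e d : ℤ) : ℝ) - ((Tri.ind (T.a e) d : ℤ) : ℝ) + ((T.chain c d : ℤ) : ℝ) := by
      intro d
      rw [Tri.chain_cons, Tri.ind_a]
      push_cast
      ring
    rw [Finset.sum_congr rfl fun d _ => h3 d, Finset.sum_add_distrib, Finset.sum_sub_distrib,
      ind_sum, ind_sum, h2, h1]
    have h4 : T.tl (T.a e) = T.hd e := rfl
    rw [h4]
    ring

theorem chain_cyc {T : Tri D} {c : List D} (hc : T.Closed c) : T.IsCyc (fun d => (T.chain c d : ℝ)) := by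
  obtain ⟨v, hv⟩ := hc
  refine ⟨fun d => ?_, fun d => ?_⟩
  · show ((T.chain c (T.a d) : ℤ) : ℝ) = -((T.chain c d : ℤ) : ℝ)
    rw [Tri.chain_anti, Int.cast_neg]
  · have h1 := walk_sum T (T.tl d) c v v hv
    rw [sub_self] at h1
    exact h1

private theorem chain_per (T : Tri D) {y : D → ℝ} (hy : ∀ d, y (T.a d) = - y d) (c : List D) :
    ∑ d, y d * ((T.chain c d : ℤ) : ℝ) = 2 * GNH.per y c := by
  induction c with
  | nil =>
    rw [GNH.per_nil, mul_zero]
    exact Finset.sum_eq_zero fun d _ => by rw [Tri.chain_nil, Int.cast_zero, mul_zero]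
  | cons e c ih =>
    have h0 : ∀ e, ∑ d, y d * ((Tri.ind e d : ℤ) : ℝ) = y e := by
      intro e
      rw [Finset.sum_eq_single e]
      · rw [Tri.ind_self, Int.cast_one, mul_one]
      · intro d _ hd
        rw [Tri.ind_ne (Ne.symm hd), Int.cast_zero, mul_zero]
      · intro h
        exact absurd (Finset.mem_univ e) h
    have h3 : ∀ d, y d * ((T.chain (e :: c) d : ℤ) : ℝ) =
        y d * ((Tri.ind e d : ℤ) : ℝ) - y d * ((Tri.ind (T.a e) d : ℤ) : ℝ) +
          y d * ((T.chain c d : ℤ) : ℝ) := by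
      intro d
      rw [Tri.chain_cons, Tri.ind_a]
      push_cast
      ring
    rw [Finset.sum_congr rfl fun d _ => h3 d, Finset.sum_add_distrib, Finset.sum_sub_distrib,
      h0, h0, ih, hy, GNH.per_cons]
    ring

theorem dual_walk {T : Tri D} {c : List D} (hc : T.Closed c) :
    ∃ u, T.IsCoc u ∧ ∀ y, T.IsCoc y → T.Area y u = 6 * per y c := by
  obtain ⟨h', hh', hz, _⟩ := T.lift (chain_cyc hc)
  refine ⟨T.xx h', T.xx_coc hh', fun y hy => ?_⟩
  obtain ⟨h, hh, hx⟩ := T.liftx hy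
  have h1 := T.Area_xx h h'
  rw [om_pair hh hh', hx, hz] at h1
  rw [h1, chain_per T hy.1 c]
  ring

theorem exact_of_per {T : Tri D} (hT : T.Conn) {y : D → ℝ} (hy : T.IsCoc y) (h : ∀ c, T.Closed c → per y c = 0) :
    y ∈ Bd T := by
  rw [mem_Bd]
  by_cases hD : Nonempty D
  · obtain ⟨d0⟩ := hD
    have hS : {d | ∃ l, T.IsWalk (T.tl d0) l (T.tl d)} = Set.univ := by
      refine hT _ ⟨d0, [], rfl⟩ ?_
      rintro d ⟨l, hl⟩
      have h1 : T.IsWalk (T.tl d0) (l ++ [d]) (T.hd d) := T.walk_append hl (T.walk_single d)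
      refine ⟨⟨l ++ [d], h1⟩, ⟨l ++ [d], ?_⟩⟩
      rw [T.tl_f]
      exact h1
    have hv : ∀ v : T.V, ∃ l, T.IsWalk (T.tl d0) l v := by
      intro v
      obtain ⟨d, rfl⟩ := Quotient.exists_rep v
      have h1 : d ∈ {d | ∃ l, T.IsWalk (T.tl d0) l (T.tl d)} := by
        rw [hS]
        exact Set.mem_univ d
      exact h1
    choose l hl using hv
    refine ⟨fun v => GNH.per y (l v), fun d => ?_⟩
    have h1 : T.IsWalk (T.tl d0) (l (T.tl d) ++ ([d] ++ ((l (T.hd d)).map T.a).reverse)) (T.tl d0) :=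
      T.walk_append (hl _) (T.walk_append (T.walk_single d) (T.walk_rev (hl _)))
    have h2 := h _ ⟨_, h1⟩
    rw [GNH.per_append, GNH.per_append, GNH.per_rev T hy.1, GNH.per_cons, GNH.per_nil] at h2
    show y d = GNH.per y (l (T.hd d)) - GNH.per y (l (T.tl d))
    linarith
  · exact ⟨fun _ => 0, fun d => absurd ⟨d⟩ hD⟩

theorem nondeg {T : Tri D} (hT : T.Conn) {y : D → ℝ} (hy : T.IsCoc y) (h : ∀ u, T.IsCoc u → T.Area y u = 0) :
    y ∈ Bd T := by
  refine exact_of_per hT hy fun c hc => ?_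
  obtain ⟨u, hu, hA⟩ := dual_walk hc
  have h1 := hA y hy
  rw [h u hu] at h1
  linarith

end SYS.CO
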