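import Pool.Agent.SYS.CO.Dim
import Pool.Agent.SYS.CO.DimB
import Pool.Agent.SYS.CO.Cls

/-!
# SYSS-COH-RkE: the rank of a region

`rk + r = 2 g + b`: `r` hidden components, genus `g`, `b` holes (Euler's relation `2 V + 4 g + 2 b = 4 + F + |B|`,
`V = inn + |B|`, `3 F = |R|`).
-/

namespace SYS.CO

open Classical SST GNH Part

variable {D : Type}

theorem rk_reg [Finite D] {T : Tri D} (hT : T.Conn) {X : Part D} (h : X.Le T) (hc : X.Con) (hne : X.R.Nonempty) :
    6 * (rk T (rev X) + hcomp X T + X.inn) + 3 * X.B.ncard = X.R.ncard + 12 := by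
  obtain ⟨d, hd⟩ := hne
  have : Nonempty D := ⟨d⟩
  have h1 := rk_add T (rev X)
  have h2 := dim_B hT (rev X)
  have h3 := ncl_rev h
  have h4 := dim_reg h hc ⟨d, hd⟩
  omega

theorem rk_gen [Finite D] {T : Tri D} (hT : T.Conn) {X : Part D} (h : X.Le T) (hc : X.Con) (hne : X.R.Nonempty)
    {g b : ℕ} (he : 6 * X.inn + 3 * X.B.ncard + 12 * g + 6 * b = X.R.ncard + 12) :
    rk T (rev X) + hcomp X T = 2 * g + b := by
  have h1 := rk_reg hT h hc hne
  omega

theorem rk_typ [Finite D] {T : Tri D} (hT : T.Conn) {X : Part D} (h : X.Le T) (hc : X.Con) (hne : X.R.Nonempty)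
    {l : List D} {P : List ℕ} {F κ : ℕ} (ht : X.Typ l P F κ) :
    rk T (rev X) + hcomp X T + l.length = 2 * κ + 2 := by
  have h1 := rk_reg hT h hc hne
  have h2 := ht.eul
  have h3 := hl_card ht.hl
  rw [ht.per] at h3
  omega

theorem hcomp_one [Finite D] {T : Tri D} {X : Part D} (hh : X.HConn T) (hne : X.X.Nonempty) : hcomp X T = 1 := by
  obtain ⟨d, hd⟩ := hne
  unfold hcomp
  rw [Nat.card_eq_one_iff_unique]
  refine ⟨⟨fun p q => ?_⟩, ⟨Quotient.mk _ ⟨d, hd⟩⟩⟩
  induction p using Quotient.inductionOn with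
  | h a =>
    induction q using Quotient.inductionOn with
    | h b => exact Quotient.sound (hh a.1 a.2 b.1 b.2)

/-- The hidden component of an element of `l`. -/
private noncomputable def re_map [Finite D] {T : Tri D} {X : Part D} {l : List D} (hl : X.HL l)
    (i : Fin l.length) : Quotient (hset X T) :=
  Quotient.mk _ ⟨l.get i, Or.inr (hl.1 _ (List.get_mem l i))⟩

private theorem re_same [Finite D] {T : Tri D} {X : Part D} {d e : D} (hd : d ∈ X.B) (he : e ∈ X.B)
    (h : X.s.SameCycle d e) : X.Hc T d e := hc_hole hd ((mem_hw X hd).2 ⟨he, h⟩)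

private theorem re_surj [Finite D] {T : Tri D} (hT : T.Conn) {X : Part D} (h : X.Le T) (hne : X.R.Nonempty)
    {l : List D} (hl : X.HL l) : Function.Surjective (re_map (T := T) hl) := by
  intro p
  induction p using Quotient.inductionOn with
  | h a =>
    obtain ⟨e, he, hae⟩ := hc_meets h hT hne a.2
    obtain ⟨e', he', hee⟩ := hl.2.2 e he
    obtain ⟨i, hi⟩ := List.get_of_mem he'
    refine ⟨i, Quotient.sound ?_⟩
    show X.Hc T (l.get i) a.1
    rw [hi]
    exact hc_trans (re_same (hl.1 e' he') he hee) (hc_symm hae)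

theorem hcomp_le [Finite D] {T : Tri D} (hT : T.Conn) {X : Part D} (h : X.Le T) (hne : X.R.Nonempty) {l : List D}
    (hl : X.HL l) : hcomp X T ≤ l.length := by
  have h1 := Nat.card_le_card_of_surjective _ (re_surj (T := T) hT h hne hl)
  rw [Nat.card_eq_fintype_card (α := Fin l.length), Fintype.card_fin] at h1
  exact h1

theorem hcomp_eq [Finite D] {T : Tri D} (hT : T.Conn) {X : Part D} (h : X.Le T) (hne : X.R.Nonempty) {l : List D}
    (hl : X.HL l) (he : hcomp X T = l.length) {x y : D} (hx : x ∈ X.B) (hy : y ∈ X.B) (hxy : X.Hc T x y) :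
    X.s.SameCycle x y := by
  have hcard : Nat.card (Fin l.length) = Nat.card (Quotient (hset X T)) := by
    rw [Nat.card_eq_fintype_card (α := Fin l.length), Fintype.card_fin]
    exact he.symm
  have hinj : Function.Injective (re_map (T := T) hl) :=
    ((Nat.bijective_iff_surjective_and_card _).2 ⟨re_surj hT h hne hl, hcard⟩).1
  obtain ⟨a, ha, hax⟩ := hl.2.2 x hx
  obtain ⟨b, hb, hby⟩ := hl.2.2 y hy
  obtain ⟨i, hi⟩ := List.get_of_mem ha
  obtain ⟨j, hj⟩ := List.get_of_mem hb
  have hij : re_map (T := T) hl i = re_map hl j := by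
    refine Quotient.sound ?_
    show X.Hc T (l.get i) (l.get j)
    rw [hi, hj]
    exact hc_trans (re_same (hl.1 a ha) hx hax)
      (hc_trans hxy (hc_symm (re_same (hl.1 b hb) hy hby)))
  have h1 := hinj hij
  have hab : a = b := by
    rw [← hi, ← hj, h1]
  rw [hab] at hax
  exact hax.symm.trans hby

/-- The rank of a region with connected complement is `2 g + k - 1`, `κ = g + k - 1`. -/
theorem rk_typ_one [Finite D] {T : Tri D} (hT : T.Conn) {X : Part D} (h : X.Le T) (hc : X.Con) (hne : X.R.Nonempty)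
    (hh : X.HConn T) {x : D} {l : List D} {P : List ℕ} {F κ : ℕ} (ht : X.Typ (x :: l) P F κ) :
    rk T (rev X) + l.length = 2 * κ := by
  have h1 := rk_typ hT h hc hne ht
  have h2 := hcomp_one hh ⟨x, Or.inr (ht.hl.1 x List.mem_cons_self)⟩
  rw [List.length_cons] at h1
  omega

/-- Nothing is hidden: the rank is `2 g`. -/
theorem rk_all {n g : ℕ} (hn : 1 ≤ n) {T : Tri (Fin (6 * n))} (hT : T ∈ Trn n g) : rk T Set.univ = 2 * g := by
  obtain ⟨hc, hg⟩ := hT
  have hc' : T.Conn := hc
  have hg' : Nat.card T.V + 2 * g = n + 2 := hg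
  let d0 : Fin (6 * n) := ⟨0, by omega⟩
  have hR : (ofTri T).R = Set.univ := by
    ext d
    exact ⟨fun _ => Set.mem_univ _, fun _ => T.fne d⟩
  have hB : (ofTri T).B = ∅ := by
    ext d
    exact ⟨fun h => absurd h.2 (T.ane d), fun h => absurd h (Set.notMem_empty d)⟩
  have hX : (ofTri T).X = ∅ := by
    ext d
    refine ⟨fun h => ?_, fun h => absurd h (Set.notMem_empty d)⟩
    rcases h with h | h
    · exact absurd (T.fne d) h
    · rw [hB] at h
      exact h
  have hrev : rev (ofTri T) = Set.univ := by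
    ext d
    exact ⟨fun _ => Set.mem_univ _, fun _ => T.ane d⟩
  have hall : ∀ e, (ofTri T).Cn d0 e := by
    have h1 := hc' {e | (ofTri T).Cn d0 e} ⟨d0, cn_refl _ _⟩ (by
      intro d hd
      exact ⟨cn_trans hd (cn_a (ofTri T) d), cn_trans hd (cn_f (ofTri T) d)⟩)
    intro e
    have he : e ∈ (Set.univ : Set (Fin (6 * n))) := Set.mem_univ e
    rw [← h1] at he
    exact he
  have hcon : (ofTri T).Con := fun d _ e _ => cn_trans (cn_symm (hall d)) (hall e)
  have hle : (ofTri T).Le T := (le_iff_sub _ T).2 (sub_refl _)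
  have hz : hcomp (ofTri T) T = 0 := by
    unfold hcomp
    have : IsEmpty (Quotient (hset (ofTri T) T)) := by
      refine ⟨fun p => ?_⟩
      induction p using Quotient.inductionOn with
      | h a =>
        exact absurd (hX ▸ a.2 : a.1 ∈ (∅ : Set (Fin (6 * n)))) (Set.notMem_empty _)
    exact Nat.card_of_isEmpty
  have h1 := rk_reg hc' hle hcon (by rw [hR]; exact ⟨d0, Set.mem_univ _⟩)
  rw [hrev, hz, hB, hR, Set.ncard_empty, Set.ncard_univ, inn_tri, Nat.card_eq_fintype_card (α := Fin (6 * n)),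
    Fintype.card_fin] at h1
  omega

end SYS.CO
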