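import Pool.Agent.SYS.CO.Spn

/-!
# SYSS-COH-Rse: at most `N` cycles raise the rank to `N`

Linear algebra: `k` of the spaces `U i` suffice for the dimension `k`; then the span of the cycles through a core.
-/

namespace SYS.CO

open Classical SST GNH Part

variable {D : Type}

theorem exists_small {K M : Type} [AddCommGroup M] [Module ℝ M] [FiniteDimensional ℝ M] {I : Set K}
    {U0 V : Submodule ℝ M} {U : K → Submodule ℝ M} (hV : V ≤ U0 ⊔ ⨆ i ∈ I, U i) {N : ℕ}
    (hN : N ≤ Module.finrank ℝ V) :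
    ∃ J : Finset K, (↑J : Set K) ⊆ I ∧ J.card ≤ N ∧ N ≤ Module.finrank ℝ (U0 ⊔ ⨆ i ∈ J, U i : Submodule ℝ M) := by
  have key : ∀ k : ℕ, k ≤ N → ∃ J : Finset K, (↑J : Set K) ⊆ I ∧ J.card ≤ k ∧
      k ≤ Module.finrank ℝ (U0 ⊔ ⨆ i ∈ J, U i : Submodule ℝ M) := by
    intro k
    induction k with
    | zero =>
      intro _
      exact ⟨∅, by rw [Finset.coe_empty]; exact Set.empty_subset _, le_rfl, Nat.zero_le _⟩
    | succ k ih =>
      intro hk
      obtain ⟨J, h1, h2, h3⟩ := ih (by omega)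
      by_cases h4 : k + 1 ≤ Module.finrank ℝ (U0 ⊔ ⨆ i ∈ J, U i : Submodule ℝ M)
      · exact ⟨J, h1, by omega, h4⟩
      · have h5 : ∃ i ∈ I, ¬ U i ≤ U0 ⊔ ⨆ i ∈ J, U i := by
          by_contra hcon
          push Not at hcon
          have h6 : V ≤ U0 ⊔ ⨆ i ∈ J, U i :=
            hV.trans (sup_le le_sup_left (iSup_le fun i => iSup_le fun hi => hcon i hi))
          have h7 := Submodule.finrank_mono h6
          omega
        obtain ⟨i, hi, hni⟩ := h5
        refine ⟨insert i J, ?_, (Finset.card_insert_le i J).trans (by omega), ?_⟩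
        · rw [Finset.coe_insert]
          exact Set.insert_subset hi h1
        · have h6 : (U0 ⊔ ⨆ i ∈ J, U i : Submodule ℝ M) < U0 ⊔ ⨆ j ∈ insert i J, U j := by
            refine lt_of_le_of_ne ?_ ?_
            · refine sup_le_sup le_rfl (iSup_le fun j => iSup_le fun hj => ?_)
              exact le_iSup_of_le j (le_iSup_of_le (Finset.mem_insert_of_mem hj) le_rfl)
            · intro he
              apply hni
              rw [he]
              exact le_sup_of_le_right (le_iSup_of_le i (le_iSup_of_le (Finset.mem_insert_self i J) le_rfl))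
          have h7 := Submodule.finrank_lt_finrank_of_lt h6
          omega
  exact key N le_rfl

private theorem rs_mono (T : Tri D) {E E' : Set D} (h : E ⊆ E') : VV T E ≤ VV T E' := by
  refine Submodule.map_mono ?_
  rintro x ⟨h1, h2⟩
  exact ⟨h1, fun d hd => h2 d fun hd' => hd (h hd')⟩

theorem raise [Finite D] {T : Tri D} {E0 E : Set D} {P : D → Set D} {b : D} (h0 : ∀ d, T.a d ∈ E0 ↔ d ∈ E0)
    (hP : ∀ d e, T.a e ∈ P d ↔ e ∈ P d) (hPf : ∀ d, P (T.f d) = P d) (hlk : ∀ d ∈ E, Lk T (E0 ∪ P d) d b)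
    (hC : ∀ d ∈ E0, Lk T E0 d b) {N : ℕ} (hN : N ≤ rk T E) :
    ∃ J : Finset D, (↑J : Set D) ⊆ E \ E0 ∧ J.card ≤ N ∧
      N ≤ rk T (E0 ∪ ⋃ e ∈ J, (P e ∪ P (T.a e) ∪ {e, T.a e})) := by
  have h1 : VV T E ≤ VV T E0 ⊔ ⨆ e ∈ E \ E0, VV T (E0 ∪ P e ∪ P (T.a e) ∪ {e, T.a e}) := by
    have h2 := Submodule.map_mono (f := (Bd T).mkQ) (span_le h0 hP hPf hlk hC)
    rw [Submodule.map_sup, Submodule.map_iSup] at h2
    refine h2.trans (sup_le_sup le_rfl (iSup_mono fun e => ?_))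
    rw [Submodule.map_iSup]
    exact le_rfl
  obtain ⟨J, hJ1, hJ2, hJ3⟩ := exists_small h1 hN
  refine ⟨J, hJ1, hJ2, hJ3.trans (Submodule.finrank_mono ?_)⟩
  refine sup_le (rs_mono T Set.subset_union_left) (iSup_le fun e => iSup_le fun he => rs_mono T ?_)
  have h3 : P e ∪ P (T.a e) ∪ {e, T.a e} ⊆ ⋃ e ∈ J, (P e ∪ P (T.a e) ∪ {e, T.a e}) :=
    Set.subset_biUnion_of_mem (u := fun e => P e ∪ P (T.a e) ∪ {e, T.a e}) he
  rintro d (((hd | hd) | hd) | hd)
  · exact Or.inl hd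
  · exact Or.inr (h3 (Or.inl (Or.inl hd)))
  · exact Or.inr (h3 (Or.inl (Or.inr hd)))
  · exact Or.inr (h3 (Or.inr hd))

end SYS.CO
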