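import Pool.Agent.SYS.CO.Oth
import Pool.Agent.SYS.CO.Aar

/-!
# SYSS-COH-Sid: if the genus is not in the region, it is in one of the hidden components

PLAN.  `gen12_inn`: `X.ncomp = 1 + |X.R^c|` (`X.Con`; the darts off `X.R` are components of their own, `cn_mem_R`), `ncycOn_R`,
`inn_eq`, `hl_ncyc`.  `gen12_rk`: `rk_reg`.
`exists_side` (`X` has one hole in every hidden component): for every class `q` of `hset X T` let `z` be a representative and
`S = oth X T h z`: `S` is a region with one hole, so `gen12 T - gen12 S = |D| - |S.R| - 6 v + 6 + 3 |S.B|`, with `v` the number of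
vertices with a dart in `X.HC T z` (`inn_vtx` for `S`, `oth_X`; `gen12_inn` for `S` and for `ofTri T`, which has no holes, `inn_tri`).
Sum over the classes: `|D| - |S.R|` is the number of darts of the class off `X.R` (`oth_R`), total `|D| - |X.R|`; `|S.B|` total `|X.B|`; `v`
total `card T.V - X.inn` (`inn_vtx` for `X`; two darts of `X.X` with the same tail are in one class: `ret_hc`), number of classes
`hcomp = #holes` (`hcomp_le` and `OneH`).  So the sum of `gen12 T - gen12 S` is `gen12 T - gen12 X /= 0`: one term is not `0`; take `z` in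
`X.B` in this class (`hc_meets`).
-/

namespace SYS.CO

open Classical SST GNH Part

variable {D : Type} [Fintype D]

omit [Fintype D] in
private theorem sid_cn {X : Part D} {d e : D} (h : X.Cn d e) :
    (d ∉ X.R → e = d) ∧ (e ∉ X.R → e = d) := by
  unfold Part.Cn at h
  induction h with
  | rel u v huv =>
    have key : u ∉ X.R → v = u := by
      intro hu
      have hf : X.f u = u := by
        by_contra h'
        exact hu h'
      rcases huv with huv | huv
      · rw [huv]
        exact X.af u hf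
      · rw [huv]
        exact hf
    refine ⟨key, fun hv => key fun hu => hv ?_⟩
    rcases huv with huv | huv
    · rw [huv]
      exact (X.mem_R_a u).2 hu
    · rw [huv]
      exact (X.mem_R_f u).2 hu
  | refl u => exact ⟨fun _ => rfl, fun _ => rfl⟩
  | symm u v _ ih => exact ⟨fun h => (ih.2 h).symm, fun h => (ih.1 h).symm⟩
  | trans u v w _ _ ih1 ih2 =>
    refine ⟨fun h => ?_, fun h => ?_⟩
    · have h1 := ih1.1 h
      have h2 := ih2.1 (by rw [h1]; exact h)
      rw [h2, h1]
    · have h2 := ih2.2 h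
      have h1 := ih1.2 (by rw [← h2]; exact h)
      rw [h2, h1]

private theorem sid_ncomp {X : Part D} (hc : X.Con) (hne : X.R.Nonempty) :
    X.ncomp = 1 + X.Rᶜ.ncard := by
  obtain ⟨d0, hd0⟩ := hne
  let g : Option ↥(X.Rᶜ) → Quotient X.cnSetoid := fun o => match o with
    | none => Quotient.mk _ d0
    | some d => Quotient.mk _ d.1
  have hb : Function.Bijective g := by
    constructor
    · intro o o' h
      cases o with
      | none =>
        cases o' with
        | none => rfl
        | some e =>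
          have h1 : X.Cn d0 e.1 := Quotient.exact h
          have h2 := (sid_cn h1).2 e.2
          exact absurd (h2 ▸ hd0) e.2
      | some d =>
        cases o' with
        | none =>
          have h1 : X.Cn d.1 d0 := Quotient.exact h
          have h2 := (sid_cn h1).1 d.2
          exact absurd (h2 ▸ hd0) d.2
        | some e =>
          have h1 : X.Cn d.1 e.1 := Quotient.exact h
          have h2 := (sid_cn h1).1 d.2
          rw [Subtype.ext h2.symm]
    · intro q
      induction q using Quotient.inductionOn with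
      | h d =>
        by_cases hd : d ∈ X.R
        · exact ⟨none, Quotient.sound (hc d0 hd0 d hd)⟩
        · exact ⟨some ⟨d, hd⟩, rfl⟩
  have h1 := Nat.card_congr (Equiv.ofBijective g hb)
  unfold Part.ncomp
  rw [← h1, Nat.card_eq_fintype_card, Fintype.card_option, ← Nat.card_eq_fintype_card,
    Nat.card_coe_set_eq]
  omega

theorem gen12_inn {X : Part D} (hc : X.Con) (hne : X.R.Nonempty) {l : List D}
    (hl : X.HL l) : X.gen12 = 12 + X.R.ncard - 6 * X.inn - 6 * l.length - 3 * X.B.ncard := by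
  have h1 := sid_ncomp hc hne
  have h2 := ncycOn_R X
  have h3 := inn_eq X
  have h4 := hl_ncyc hl
  have h5 : X.R.ncard + X.Rᶜ.ncard = Nat.card D := Set.ncard_add_ncard_compl X.R
  unfold Part.gen12
  rw [h1, ← h2, ← h3, h4, ← h5]
  push_cast
  ring

theorem gen12_rk {T : Tri D} (hT : T.Conn) {X : Part D} (h : X.Le T) (hc : X.Con) (hne : X.R.Nonempty) {l : List D}
    (hl : X.HL l) : X.gen12 = 6 * (rk T (rev X) : ℤ) + 6 * hcomp X T - 6 * l.length := by
  have h1 := gen12_inn hc hne hl
  have h2 := rk_reg hT h hc hne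
  have h3 : (6 : ℤ) * (rk T (rev X) + hcomp X T + X.inn) + 3 * X.B.ncard = X.R.ncard + 12 := by
    exact_mod_cast h2
  rw [h1]
  linear_combination -h3

/-- One hole in every hidden component. -/
theorem hcomp_oneH {T : Tri D} (hT : T.Conn) {X : Part D} (h : X.Le T) (hne : X.R.Nonempty) {l : List D}
    (hl : X.HL l) : OneH X T ↔ hcomp X T = l.length := by
  constructor
  · intro h1
    refine le_antisymm (hcomp_le hT h hne hl) ?_
    let g : Fin l.length → Quotient (hset X T) := fun i =>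
      Quotient.mk _ ⟨l.get i, Or.inr (hl.1 _ (List.get_mem l i))⟩
    have hinj : Function.Injective g := by
      intro i j hij
      have h2 : X.Hc T (l.get i) (l.get j) := Quotient.exact hij
      have h3 := h1 _ (hl.1 _ (List.get_mem l i)) _ (hl.1 _ (List.get_mem l j)) h2
      by_contra hne'
      rcases lt_or_gt_of_ne hne' with h4 | h4
      · exact (List.pairwise_iff_get.1 hl.2.1 i j h4) h3
      · exact (List.pairwise_iff_get.1 hl.2.1 j i h4) h3.symm
    have h5 := Nat.card_le_card_of_injective g hinj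
    rw [Nat.card_eq_fintype_card (α := Fin l.length), Fintype.card_fin] at h5
    exact h5
  · intro he z hz d hd hzd
    exact hcomp_eq hT h hne hl he hz hd hzd

theorem gen12_oneH {T : Tri D} (hT : T.Conn) {X : Part D} (h : X.Le T) (hc : X.Con) (hne : X.R.Nonempty)
    (h1 : OneH X T) : X.gen12 = 6 * (rk T (rev X) : ℤ) := by
  obtain ⟨l, hl⟩ := hl_exists X
  have h2 := gen12_rk hT h hc hne hl
  rw [(hcomp_oneH hT h hne hl).1 h1] at h2
  rw [h2]
  ring

private theorem sid_sum {Q V : Type} [Fintype Q] [Finite V] (C : Q → Set V) (A : Set V)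
    (h1 : ∀ v, v ∈ A ↔ ∃ q, v ∈ C q) (h2 : ∀ q q' v, v ∈ C q → v ∈ C q' → q = q') :
    ∑ q, (C q).ncard = A.ncard := by
  have e1 : ∀ q, (C q).ncard = Nat.card ↥(C q) := fun q => (Nat.card_coe_set_eq _).symm
  rw [← Nat.card_coe_set_eq, Finset.sum_congr rfl fun q _ => e1 q, ← Nat.card_sigma]
  let g : (Σ q, ↥(C q)) → ↥A := fun p => ⟨p.2.1, (h1 _).2 ⟨p.1, p.2.2⟩⟩
  refine Nat.card_congr (Equiv.ofBijective g ⟨?_, ?_⟩)
  · rintro ⟨q, v, hv⟩ ⟨q', v', hv'⟩ h
    have h3 : v = v' := congrArg Subtype.val h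
    subst h3
    have h4 := h2 q q' v hv hv'
    subst h4
    rfl
  · rintro ⟨v, hv⟩
    obtain ⟨q, hq⟩ := (h1 v).1 hv
    exact ⟨⟨q, v, hq⟩, rfl⟩

private theorem sid_tri {T : Tri D} (hT : T.Conn) (hne : Nonempty D) :
    (ofTri T).gen12 = 12 + Nat.card D - 6 * Nat.card T.V := by
  obtain ⟨d0⟩ := hne
  have hR : (ofTri T).R = Set.univ := by
    ext d
    exact ⟨fun _ => Set.mem_univ _, fun _ => T.fne d⟩
  have hB : (ofTri T).B = ∅ := by
    ext d
    exact ⟨fun h => absurd h.2 (T.ane d), fun h => absurd h (Set.notMem_empty d)⟩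
  have hall : ∀ e, (ofTri T).Cn d0 e := by
    have h1 := hT {e | (ofTri T).Cn d0 e} ⟨d0, cn_refl _ _⟩ (by
      intro d hd
      exact ⟨cn_trans hd (cn_a (ofTri T) d), cn_trans hd (cn_f (ofTri T) d)⟩)
    intro e
    have he : e ∈ (Set.univ : Set D) := Set.mem_univ e
    rw [← h1] at he
    exact he
  have hcon : (ofTri T).Con := fun d _ e _ => cn_trans (cn_symm (hall d)) (hall e)
  have hl : (ofTri T).HL [] := by
    refine ⟨fun d hd => absurd hd List.not_mem_nil, List.Pairwise.nil, ?_⟩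
    intro d hd
    rw [hB] at hd
    exact absurd hd (Set.notMem_empty d)
  have h1 := gen12_inn hcon (by rw [hR]; exact ⟨d0, Set.mem_univ _⟩) hl
  rw [h1, hR, hB, Set.ncard_univ, Set.ncard_empty, inn_tri]
  simp

theorem exists_side {T : Tri D} (hT : T.Conn) {X : Part D} (h : X.Le T) (hc : X.Con) (hne : X.R.Nonempty)
    (h1 : OneH X T) (hg : X.gen12 ≠ (ofTri T).gen12) :
    ∃ z ∈ X.B, (oth X T h z).gen12 ≠ (ofTri T).gen12 := by
  by_contra hcon
  push Not at hcon
  apply hg
  obtain ⟨d0, hd0⟩ := hne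
  have hne : X.R.Nonempty := ⟨d0, hd0⟩
  have htri := sid_tri hT ⟨d0⟩
  -- representatives
  have hrep : ∀ q : Quotient (hset X T), ∃ z ∈ X.B, ∀ d (hd : d ∈ X.X),
      (Quotient.mk (hset X T) ⟨d, hd⟩ = q ↔ X.Hc T z d) := by
    intro q
    induction q using Quotient.inductionOn with
    | h a =>
      obtain ⟨e, he, hae⟩ := hc_meets h hT hne a.2
      refine ⟨e, he, fun d hd => ⟨fun hq => ?_, fun hq => ?_⟩⟩
      · have h2 : X.Hc T d a.1 := Quotient.exact hq
        exact hc_trans (hc_symm hae) (hc_symm h2)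
      · exact Quotient.sound (show X.Hc T d a.1 from hc_symm (hc_trans hae hq))
  choose z hzB hz using hrep
  have hzX : ∀ q, z q ∈ X.X := fun q => Or.inr (hzB q)
  have hmemHC : ∀ q d, d ∈ X.HC T (z q) ↔ d ∈ X.X ∧ X.Hc T (z q) d := fun q d => Iff.rfl
  have hcov : ∀ d ∈ X.X, ∃ q, d ∈ X.HC T (z q) := fun d hd =>
    ⟨Quotient.mk _ ⟨d, hd⟩, hd, (hz _ d hd).1 rfl⟩
  have huni : ∀ q q' d e, d ∈ X.HC T (z q) → e ∈ X.HC T (z q') → X.Hc T d e → q = q' := by
    intro q q' d e hd he hde
    have h2 := (hz q d hd.1).2 hd.2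
    have h3 := (hz q' d hd.1).2 (hc_trans he.2 (hc_symm hde))
    rw [← h2, ← h3]
  -- the genus of one side
  have hside : ∀ q, ((X.HC T (z q) \ X.R).ncard : ℤ) + 3 * ((X.B ∩ X.HC T (z q)).ncard : ℤ) + 6 =
      6 * ({v : T.V | ∃ d ∈ X.HC T (z q), T.tl d = v}.ncard : ℤ) := by
    intro q
    have e1 := hcon (z q) (hzB q)
    have hSR := oth_R h (z q)
    have hSB := oth_B h (z q)
    have hSX := oth_X h (z q)
    have hzS : z q ∈ (oth X T h (z q)).B := by
      rw [hSB]
      exact ⟨hzB q, hzX q, hc_refl X T _⟩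
    have hl : (oth X T h (z q)).HL [z q] := by
      refine ⟨fun d hd => ?_, List.pairwise_singleton _ _, fun d hd => ⟨z q, List.mem_singleton.2 rfl, ?_⟩⟩
      · rw [List.mem_singleton.1 hd]
        exact hzS
      · rw [hSB] at hd
        have h3 := h1 _ (hzB q) d hd.1 hd.2.2
        have h4 : d ∈ X.hw (z q) := (mem_hw X (hzB q)).2 ⟨hd.1, h3⟩
        rw [← oth_hw h (z q) (hzB q) ⟨hzX q, hc_refl X T _⟩] at h4
        exact ((mem_hw _ hzS).1 h4).2
    have hne' : (oth X T h (z q)).R.Nonempty := ⟨d0, by rw [hSR]; exact Or.inl hd0⟩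
    have e2 := gen12_inn (oth_con h (z q) hT hc hne) hne' hl
    have e3 := inn_vtx (oth_le h (z q))
    rw [hSX] at e3
    have e4 : (oth X T h (z q)).R.ncard + (X.HC T (z q) \ X.R).ncard = Nat.card D := by
      have h5 : (oth X T h (z q)).Rᶜ = X.HC T (z q) \ X.R := by
        rw [hSR, Set.compl_union, compl_compl, Set.inter_comm]
        rfl
      rw [← h5]
      exact Set.ncard_add_ncard_compl _
    rw [← hSB]
    rw [e2, htri] at e1
    have e3' : ((oth X T h (z q)).inn : ℤ) +
        ({v : T.V | ∃ d ∈ X.HC T (z q), T.tl d = v}.ncard : ℤ) = Nat.card T.V := by exact_mod_cast e3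
    have e4' : ((oth X T h (z q)).R.ncard : ℤ) + ((X.HC T (z q) \ X.R).ncard : ℤ) = Nat.card D := by
      exact_mod_cast e4
    simp only [List.length_singleton, Nat.cast_one, mul_one] at e1
    linear_combination -e1 - 6 * e3' + e4'
  -- sums
  have : Finite T.V := Quotient.finite _
  have : Fintype (Quotient (hset X T)) := Fintype.ofFinite _
  have s1 : ∑ q, (X.HC T (z q) \ X.R).ncard = X.Rᶜ.ncard := by
    refine sid_sum _ _ (fun d => ⟨fun hd => ?_, ?_⟩) ?_
    · obtain ⟨q, hq⟩ := hcov d (Or.inl hd)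
      exact ⟨q, hq, hd⟩
    · rintro ⟨q, hq⟩
      exact hq.2
    · intro q q' d hd hd'
      exact huni q q' d d hd.1 hd'.1 (hc_refl X T d)
  have s2 : ∑ q, (X.B ∩ X.HC T (z q)).ncard = X.B.ncard := by
    refine sid_sum _ _ (fun d => ⟨fun hd => ?_, ?_⟩) ?_
    · obtain ⟨q, hq⟩ := hcov d (Or.inr hd)
      exact ⟨q, hd, hq⟩
    · rintro ⟨q, hq⟩
      exact hq.1
    · intro q q' d hd hd'
      exact huni q q' d d hd.2 hd'.2 (hc_refl X T d)
  have s3 : ∑ q, {v : T.V | ∃ d ∈ X.HC T (z q), T.tl d = v}.ncard =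
      {v : T.V | ∃ d ∈ X.X, T.tl d = v}.ncard := by
    refine sid_sum _ _ (fun v => ⟨?_, ?_⟩) ?_
    · rintro ⟨d, hd, hv⟩
      obtain ⟨q, hq⟩ := hcov d hd
      exact ⟨q, d, hq, hv⟩
    · rintro ⟨q, d, hq, hv⟩
      exact ⟨d, hq.1, hv⟩
    · rintro q q' v ⟨d, hd, hv⟩ ⟨e, he, hv'⟩
      exact huni q q' d e hd he (ret_hc h hd.1 he.1 (hv.trans hv'.symm))
  obtain ⟨l, hl⟩ := hl_exists X
  have hcl := (hcomp_oneH hT h hne hl).1 h1
  have hq : (Finset.univ : Finset (Quotient (hset X T))).card = l.length := by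
    rw [← hcl]
    unfold hcomp
    rw [Nat.card_eq_fintype_card, Finset.card_univ]
  have htot : (X.Rᶜ.ncard : ℤ) + 3 * (X.B.ncard : ℤ) + 6 * (l.length : ℤ) =
      6 * ({v : T.V | ∃ d ∈ X.X, T.tl d = v}.ncard : ℤ) := by
    rw [← s1, ← s2, ← s3, ← hq]
    push_cast
    rw [Finset.mul_sum, Finset.mul_sum, ← Finset.sum_add_distrib]
    have h6 : (6 : ℤ) * ((Finset.univ : Finset (Quotient (hset X T))).card : ℤ) =
        ∑ _q : Quotient (hset X T), (6 : ℤ) := by
      rw [Finset.sum_const, nsmul_eq_mul, mul_comm]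
    rw [h6, ← Finset.sum_add_distrib]
    exact Finset.sum_congr rfl fun q _ => hside q
  have e5 := gen12_inn hc hne hl
  have e6 := inn_vtx h
  have e6' : (X.inn : ℤ) + ({v : T.V | ∃ d ∈ X.X, T.tl d = v}.ncard : ℤ) = Nat.card T.V := by
    exact_mod_cast e6
  have e7 : (X.R.ncard : ℤ) + (X.Rᶜ.ncard : ℤ) = Nat.card D := by
    exact_mod_cast Set.ncard_add_ncard_compl X.R
  rw [e5, htri]
  linear_combination -htot - 6 * e6' + e7

end SYS.CO
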