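import Pool.Agent.SYS.CO.Flw

/-!
# SYSS-COH-Spn: the cycle space is spanned by cycles through a core

`E0` = edges of the core (`b` a dart of the core).  For every face `P d` is a set of edges which links the face of `d` to `b`
together with `E0`; `P` depends only on the face.  Then every cocycle on `E` is a sum of a cocycle on `E0` and of cocycles on
`G e = E0 u P e u P (T.a e) u {e, T.a e}`, `e` in `E \ E0`.

Proof: `2 c` is the sum of the `c e * z e`, where `z e` is the edge `e` closed by flows from its two faces to `b` which depend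
only on the faces.
-/

namespace SYS.CO

open Classical SST GNH SYS.Part

variable {D : Type}

private theorem sn_f2_ne (T : Tri D) (d : D) : T.f (T.f d) ≠ d := by
  intro h
  have h1 := congrArg T.f h
  rw [T.fff] at h1
  exact T.fne d h1.symm

private theorem sn_f_iff (T : Tri D) (c d : D) : T.f c = d ↔ c = T.f (T.f d) := by
  constructor
  · rintro rfl
    rw [T.fff]
  · rintro rfl
    rw [T.fff]

private theorem sn_ff_iff (T : Tri D) (c d : D) : T.f (T.f c) = d ↔ c = T.f d := by
  constructor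
  · rintro rfl
    rw [T.fff]
  · rintro rfl
    rw [T.fff]

private theorem sn_fci_sum (T : Tri D) (d c : D) : fci T d c =
    (if c = d then 1 else 0) + (if c = T.f d then 1 else 0) + (if c = T.f (T.f d) then 1 else 0) := by
  unfold fci
  by_cases h1 : c = d
  · subst h1
    rw [if_pos (Or.inl rfl), if_pos rfl, if_neg (T.fne c).symm, if_neg (sn_f2_ne T c).symm]
    ring
  · by_cases h2 : c = T.f d
    · subst h2
      rw [if_pos (Or.inr (Or.inl rfl)), if_neg h1, if_pos rfl, if_neg (T.fne _).symm]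
      ring
    · by_cases h3 : c = T.f (T.f d)
      · rw [if_pos (Or.inr (Or.inr h3)), if_neg h1, if_neg h2, if_pos h3]
        ring
      · rw [if_neg (by rintro (h | h | h) <;> contradiction), if_neg h1, if_neg h2, if_neg h3]
        ring

private theorem sn_fci_f (T : Tri D) (d c : D) : fci T (T.f d) c = fci T d c := by
  rw [sn_fci_sum, sn_fci_sum, T.fff]
  ring

/-- the flow through one edge -/
private noncomputable def ev (x y : D) (c : D) : ℝ := (if c = x then 1 else 0) - (if c = y then 1 else 0)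

private theorem sn_dvg_ev (T : Tri D) (x y c : D) : dvg T (ev x y) c = fci T x c - fci T y c := by
  have h : ∀ z : D, (if c = z then (1 : ℝ) else 0) + (if T.f c = z then 1 else 0) +
      (if T.f (T.f c) = z then 1 else 0) = fci T z c := by
    intro z
    rw [sn_fci_sum]
    simp only [sn_f_iff T c z, sn_ff_iff T c z]
    ring
  rw [← h x, ← h y]
  unfold dvg ev
  ring

private theorem sn_a_iff (T : Tri D) (c d : D) : T.a c = d ↔ c = T.a d := by
  constructor
  · rintro rfl
    rw [T.aa]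
  · rintro rfl
    rw [T.aa]

private theorem sn_ev_a (T : Tri D) (e k : D) : ev e (T.a e) (T.a k) = - ev e (T.a e) k := by
  have h1 : T.a k = T.a e ↔ k = e := T.a.injective.eq_iff
  unfold ev
  simp only [h1, sn_a_iff T k e]
  ring

private theorem sn_ev_supp (T : Tri D) {e k : D} (h : k ∉ ({e, T.a e} : Set D)) : ev e (T.a e) k = 0 := by
  have h1 : k ≠ e := fun h' => h (Or.inl h')
  have h2 : k ≠ T.a e := fun h' => h (Or.inr h')
  unfold ev
  rw [if_neg h1, if_neg h2, sub_zero]

/-- flows to the base face which depend only on the face -/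
private theorem sn_flows {T : Tri D} {E0 : Set D} {P : D → Set D} {b : D} (h0 : ∀ d, T.a d ∈ E0 ↔ d ∈ E0)
    (hP : ∀ d e, T.a e ∈ P d ↔ e ∈ P d) (hPf : ∀ d, P (T.f d) = P d) :
    ∃ W : D → D → ℝ, (∀ d, W (T.f d) = W d) ∧ (∀ d, ASy T (W d)) ∧ (∀ d c, c ∉ E0 ∪ P d → W d c = 0) ∧
      (∀ d, Lk T E0 d b → ∀ c, c ∉ E0 → W d c = 0) ∧
      ∀ d, Lk T (E0 ∪ P d) d b → ∀ c, dvg T (W d) c = fci T d c - fci T b c := by
  have hex : ∀ d, ∃ w : D → ℝ, ASy T w ∧ (∀ c, c ∉ E0 ∪ P d → w c = 0) ∧
      (Lk T E0 d b → ∀ c, c ∉ E0 → w c = 0) ∧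
      (Lk T (E0 ∪ P d) d b → ∀ c, dvg T w c = fci T d c - fci T b c) := by
    intro d
    by_cases h1 : Lk T E0 d b
    · obtain ⟨w, hw1, hw2, hw3⟩ := lk_flow h0 h1
      exact ⟨w, hw1, fun c hc => hw2 c fun h => hc (Or.inl h), fun _ => hw2, fun _ => hw3⟩
    · by_cases h2 : Lk T (E0 ∪ P d) d b
      · have hE : ∀ c, T.a c ∈ E0 ∪ P d ↔ c ∈ E0 ∪ P d := by
          intro c
          rw [Set.mem_union, Set.mem_union, h0, hP]
        obtain ⟨w, hw1, hw2, hw3⟩ := lk_flow hE h2
        exact ⟨w, hw1, hw2, fun h => absurd h h1, fun _ => hw3⟩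
      · exact ⟨fun _ => 0, fun _ => neg_zero.symm, fun _ _ => rfl, fun _ _ _ => rfl, fun h => absurd h h2⟩
  choose w h1 h2 h3 h4 using hex
  refine ⟨fun d c => 1 / 3 * (w d c + w (T.f d) c + w (T.f (T.f d)) c), ?_, ?_, ?_, ?_, ?_⟩
  · intro d
    funext c
    show 1 / 3 * (w (T.f d) c + w (T.f (T.f d)) c + w (T.f (T.f (T.f d))) c) =
      1 / 3 * (w d c + w (T.f d) c + w (T.f (T.f d)) c)
    rw [T.fff]
    ring
  · intro d c
    show 1 / 3 * (w d (T.a c) + w (T.f d) (T.a c) + w (T.f (T.f d)) (T.a c)) =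
      -(1 / 3 * (w d c + w (T.f d) c + w (T.f (T.f d)) c))
    rw [h1 d c, h1 (T.f d) c, h1 (T.f (T.f d)) c]
    ring
  · intro d c hc
    show 1 / 3 * (w d c + w (T.f d) c + w (T.f (T.f d)) c) = 0
    rw [h2 d c hc, h2 (T.f d) c (by rw [hPf]; exact hc), h2 (T.f (T.f d)) c (by rw [hPf, hPf]; exact hc)]
    ring
  · intro d hd c hc
    have e1 : Lk T E0 (T.f d) b := lk_trans (lk_symm (lk_f T E0 d)) hd
    have e2 : Lk T E0 (T.f (T.f d)) b := lk_trans (lk_symm (lk_f T E0 (T.f d))) e1
    show 1 / 3 * (w d c + w (T.f d) c + w (T.f (T.f d)) c) = 0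
    rw [h3 d hd c hc, h3 _ e1 c hc, h3 _ e2 c hc]
    ring
  · intro d hd c
    have e1 : Lk T (E0 ∪ P (T.f d)) (T.f d) b := by
      rw [hPf]
      exact lk_trans (lk_symm (lk_f T _ d)) hd
    have e2 : Lk T (E0 ∪ P (T.f (T.f d))) (T.f (T.f d)) b := by
      rw [hPf (T.f d)]
      exact lk_trans (lk_symm (lk_f T _ (T.f d))) e1
    have h5 : dvg T (fun c => 1 / 3 * (w d c + w (T.f d) c + w (T.f (T.f d)) c)) c =
        1 / 3 * (dvg T (w d) c + dvg T (w (T.f d)) c + dvg T (w (T.f (T.f d))) c) := by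
      unfold dvg
      ring
    show dvg T (fun c => 1 / 3 * (w d c + w (T.f d) c + w (T.f (T.f d)) c)) c = _
    rw [h5, h4 d hd c, h4 _ e1 c, h4 _ e2 c, sn_fci_f T (T.f d) c, sn_fci_f T d c]
    ring

private theorem sn_sum [Fintype D] {T : Tri D} {c : D → ℝ} (hcf : ∀ d, c d + c (T.f d) + c (T.f (T.f d)) = 0)
    {W : D → ℝ} (hW : ∀ d, W (T.f d) = W d) : ∑ e, c e * W e = 0 := by
  have h1 : ∑ e, c (T.f e) * W e = ∑ e, c e * W e := by
    rw [← Equiv.sum_comp T.f (fun e => c e * W e)]
    exact Finset.sum_congr rfl fun e _ => by rw [hW e]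
  have h2 : ∑ e, c (T.f (T.f e)) * W e = ∑ e, c e * W e := by
    rw [← h1, ← Equiv.sum_comp T.f (fun e => c (T.f e) * W e)]
    exact Finset.sum_congr rfl fun e _ => by rw [hW e]
  have h3 : ∑ e, (c e + c (T.f e) + c (T.f (T.f e))) * W e = 0 :=
    Finset.sum_eq_zero fun e _ => by rw [hcf e, zero_mul]
  simp only [add_mul, Finset.sum_add_distrib] at h3
  rw [h1, h2] at h3
  linarith

theorem span_le [Finite D] {T : Tri D} {E0 E : Set D} {P : D → Set D} {b : D} (h0 : ∀ d, T.a d ∈ E0 ↔ d ∈ E0)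
    (hP : ∀ d e, T.a e ∈ P d ↔ e ∈ P d) (hPf : ∀ d, P (T.f d) = P d) (hlk : ∀ d ∈ E, Lk T (E0 ∪ P d) d b)
    (hC : ∀ d ∈ E0, Lk T E0 d b) :
    Z T E ≤ Z T E0 ⊔ ⨆ e ∈ E \ E0, Z T (E0 ∪ P e ∪ P (T.a e) ∪ {e, T.a e}) := by
  have hfin : Fintype D := Fintype.ofFinite D
  obtain ⟨W, hW1, hW2, hW3, hW4, hW5⟩ := sn_flows (b := b) h0 hP hPf
  rintro c ⟨⟨hca, hcf⟩, hcE⟩
  let z : D → D → ℝ := fun e k => ev e (T.a e) k - W e k + W (T.a e) k
  have hterm : ∀ e, c e • z e ∈ Z T E0 ⊔ ⨆ e ∈ E \ E0, Z T (E0 ∪ P e ∪ P (T.a e) ∪ {e, T.a e}) := by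
    intro e
    by_cases hce : c e = 0
    · rw [hce, zero_smul]
      exact Submodule.zero_mem _
    · apply Submodule.smul_mem
      have he : e ∈ E := by
        by_contra h
        exact hce (hcE e h)
      have hae : T.a e ∈ E := by
        by_contra h
        have h1 := hcE _ h
        rw [hca e] at h1
        exact hce (neg_eq_zero.1 h1)
      have hcoc : T.IsCoc (z e) := by
        constructor
        · intro k
          show ev e (T.a e) (T.a k) - W e (T.a k) + W (T.a e) (T.a k) = -(ev e (T.a e) k - W e k + W (T.a e) k)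
          rw [sn_ev_a, hW2 e k, hW2 (T.a e) k]
          ring
        · intro k
          have h1 : dvg T (z e) k = dvg T (ev e (T.a e)) k - dvg T (W e) k + dvg T (W (T.a e)) k := by
            show z e k + z e (T.f k) + z e (T.f (T.f k)) = _
            unfold dvg
            simp only [z]
            ring
          show dvg T (z e) k = 0
          rw [h1, sn_dvg_ev, hW5 e (hlk e he) k, hW5 (T.a e) (hlk _ hae) k]
          ring
      by_cases he0 : e ∈ E0
      · refine Submodule.mem_sup_left ⟨hcoc, fun k hk => ?_⟩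
        have hae0 : T.a e ∈ E0 := (h0 e).2 he0
        show ev e (T.a e) k - W e k + W (T.a e) k = 0
        rw [sn_ev_supp T (by
          rintro (h | h)
          · exact hk (by rw [h]; exact he0)
          · exact hk (by rw [h]; exact hae0)), hW4 e (hC e he0) k hk, hW4 _ (hC _ hae0) k hk]
        ring
      · refine Submodule.mem_sup_right (Submodule.mem_iSup_of_mem e (Submodule.mem_iSup_of_mem ⟨he, he0⟩ ?_))
        refine ⟨hcoc, fun k hk => ?_⟩
        show ev e (T.a e) k - W e k + W (T.a e) k = 0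
        rw [sn_ev_supp T (fun h => hk (Or.inr h)), hW3 e k (fun h => hk (Or.inl (Or.inl h))),
          hW3 (T.a e) k (fun h => hk (Or.inl (h.elim (fun h => Or.inl (Or.inl h)) Or.inr)))]
        ring
  have hsum : c = (1 / 2 : ℝ) • ∑ e, c e • z e := by
    funext k
    rw [Pi.smul_apply, Finset.sum_apply, smul_eq_mul]
    have h1 : ∀ e, (c e • z e) k = c e * ev e (T.a e) k - c e * W e k + c e * W (T.a e) k := by
      intro e
      rw [Pi.smul_apply, smul_eq_mul]
      simp only [z]
      ring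
    rw [Finset.sum_congr rfl fun e _ => h1 e, Finset.sum_add_distrib, Finset.sum_sub_distrib]
    have h2 : ∑ e, c e * W e k = 0 := sn_sum hcf (W := fun e => W e k) fun d => by
      show W (T.f d) k = W d k
      rw [hW1]
    have h3 : ∑ e, c e * W (T.a e) k = 0 := by
      rw [← Equiv.sum_comp T.a (fun e => c e * W (T.a e) k)]
      have h4 : ∀ e, c (T.a e) * W (T.a (T.a e)) k = -(c e * W e k) := by
        intro e
        rw [hca e, T.aa]
        ring
      rw [Finset.sum_congr rfl fun e _ => h4 e, Finset.sum_neg_distrib, h2, neg_zero]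
    have h5 : ∑ e, c e * ev e (T.a e) k = 2 * c k := by
      have h6 : ∀ e, c e * ev e (T.a e) k = (if k = e then c e else 0) - (if T.a k = e then c e else 0) := by
        intro e
        unfold ev
        simp only [sn_a_iff T k e, mul_sub, mul_ite, mul_one, mul_zero]
      rw [Finset.sum_congr rfl fun e _ => h6 e, Finset.sum_sub_distrib, Finset.sum_ite_eq, Finset.sum_ite_eq,
        if_pos (Finset.mem_univ _), if_pos (Finset.mem_univ _), hca k]
      ring
    rw [h2, h3, h5]
    ring
  rw [hsum]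
  exact Submodule.smul_mem _ _ (Submodule.sum_mem _ fun e _ => hterm e)

end SYS.CO
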